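import Pool.Agent.Helper21.BPA.GvDim

/-!
PROJECT BP, block A2, module BaseChange: the rank of a real homogeneous matrix in degree `d` does not change over `C`.

Proof. Let `j : (Fin a → A_R) → (Fin a → A_C)` be `map (algebraMap ℝ ℂ)` on each component (real linear), `M_C = M.map (map (algebraMap ℝ ℂ))`. (1) For a finite
dimensional real subspace `U`: `finrank_C (span_C (j '' U)) = finrank_R U`: `j` maps a real basis to a family which is independent over `C`
(real and imaginary parts of the coefficients of the polynomials: if `∑ (x_i + I y_i) j(u_i) = 0` then `∑ x_i u_i = 0`, `∑ y_i u_i = 0`).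
(2) `gv dg' d` over `C` is the `C`-span of `j '' (gv dg' d over R)`: every `v` is `j(u1) + I j(u2)` with `u1`, `u2` the real and imaginary parts of the
coefficients. (3) `M_C (j u) = j (M u)`, so `imM M_C ∩ gv dg d = M_C (gv dg' d)` (`im_deg`, `mulVec_mem_gv`) is the `C`-span of
`j '' (M (gv dg' d)) = j '' (imM M ∩ gv dg d)`. Another way: `gd (imM M) dg d` is the rank of the matrix of the linear map in the bases of monomials,
and these matrices are real with the same entries.
-/

set_option autoImplicit false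

namespace Pool.Agent.Helper21.BPA

open MvPolynomial Pool.Agent.Helper72.BP

private noncomputable def jj {s a : ℕ} (v : Fin a → MvPolynomial (Fin s) ℝ) : Fin a → MvPolynomial (Fin s) ℂ :=
  fun i => map (algebraMap ℝ ℂ) (v i)

private theorem coeff_jj {s a : ℕ} (v : Fin a → MvPolynomial (Fin s) ℝ) (i : Fin a) (m : Fin s →₀ ℕ) :
    coeff m (jj v i) = ((coeff m (v i) : ℝ) : ℂ) := by
  unfold jj
  rw [coeff_map]
  rfl

private noncomputable def reP {s : ℕ} (p : MvPolynomial (Fin s) ℂ) : MvPolynomial (Fin s) ℝ :=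
  ∑ m ∈ p.support, monomial m (coeff m p).re

private theorem coeff_reP {s : ℕ} (m : Fin s →₀ ℕ) (p : MvPolynomial (Fin s) ℂ) :
    coeff m (reP p) = (coeff m p).re := by
  classical
  unfold reP
  rw [coeff_sum]
  simp only [coeff_monomial]
  rw [Finset.sum_ite_eq' p.support m (fun x => (coeff x p).re)]
  split_ifs with h
  · rfl
  · rw [notMem_support_iff.mp h]
    simp

private noncomputable def imP {s : ℕ} (p : MvPolynomial (Fin s) ℂ) : MvPolynomial (Fin s) ℝ :=
  ∑ m ∈ p.support, monomial m (coeff m p).im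

private theorem coeff_imP {s : ℕ} (m : Fin s →₀ ℕ) (p : MvPolynomial (Fin s) ℂ) :
    coeff m (imP p) = (coeff m p).im := by
  classical
  unfold imP
  rw [coeff_sum]
  simp only [coeff_monomial]
  rw [Finset.sum_ite_eq' p.support m (fun x => (coeff x p).im)]
  split_ifs with h
  · rfl
  · rw [notMem_support_iff.mp h]
    simp

theorem hm_map {s a b : ℕ} (dg : Fin a → ℕ) (dg' : Fin b → ℕ)
    (M : Matrix (Fin a) (Fin b) (MvPolynomial (Fin s) ℝ)) (hM : HM dg dg' M) :
    HM dg dg' (M.map (map (algebraMap ℝ ℂ))) := by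
  intro i j m hm
  refine hM i j m (fun h => hm ?_)
  rw [Matrix.map_apply, coeff_map, h, map_zero]

private theorem mulVec_jj {s a b : ℕ} (M : Matrix (Fin a) (Fin b) (MvPolynomial (Fin s) ℝ))
    (v : Fin b → MvPolynomial (Fin s) ℝ) :
    (M.map (map (algebraMap ℝ ℂ))).mulVec (jj v) = jj (M.mulVec v) := by
  funext i
  have := RingHom.map_mulVec (map (algebraMap ℝ ℂ) : MvPolynomial (Fin s) ℝ →+* MvPolynomial (Fin s) ℂ) M v i
  exact this.symm

private theorem jj_gv {s a : ℕ} (dg : Fin a → ℕ) (d : ℕ) (v : Fin a → MvPolynomial (Fin s) ℝ)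
    (hv : v ∈ (gv dg d : Submodule ℝ (Fin a → MvPolynomial (Fin s) ℝ))) :
    jj v ∈ (gv dg d : Submodule ℂ (Fin a → MvPolynomial (Fin s) ℂ)) := by
  intro j m hm
  refine hv j m (fun h => hm ?_)
  rw [coeff_jj, h]
  simp

theorem baseChange {s a b : ℕ} (dg : Fin a → ℕ) (dg' : Fin b → ℕ)
    (M : Matrix (Fin a) (Fin b) (MvPolynomial (Fin s) ℝ)) (hM : HM dg dg' M) (d : ℕ) :
    gd (imM M) dg d = gd (imM (M.map (map (algebraMap ℝ ℂ)))) dg d := by
  classical
  set U : Submodule ℝ (Fin a → MvPolynomial (Fin s) ℝ) := (imM M).restrictScalars ℝ ⊓ gv dg d with hU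
  set UC : Submodule ℂ (Fin a → MvPolynomial (Fin s) ℂ) :=
    (imM (M.map (map (algebraMap ℝ ℂ)))).restrictScalars ℂ ⊓ gv dg d with hUC
  change Module.finrank ℝ ↥U = Module.finrank ℂ ↥UC
  have hfd : FiniteDimensional ℝ ↥(gv dg d : Submodule ℝ (Fin a → MvPolynomial (Fin s) ℝ)) := gv_finite dg d
  have hfU : FiniteDimensional ℝ ↥U := Submodule.finiteDimensional_of_le (inf_le_right : U ≤ gv dg d)
  let B := Module.finBasis ℝ ↥U
  let n := Module.finrank ℝ ↥U
  let g : Fin n → (Fin a → MvPolynomial (Fin s) ℂ) := fun i => jj (B i : Fin a → MvPolynomial (Fin s) ℝ)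
  have hind : LinearIndependent ℂ g := by
    rw [Fintype.linearIndependent_iff]
    intro c hc
    have key : ∀ (α : Fin a) (m : Fin s →₀ ℕ),
        ∑ i, c i * ((coeff m ((B i : Fin a → MvPolynomial (Fin s) ℝ) α) : ℝ) : ℂ) = 0 := by
      intro α m
      have h1 := congrArg (fun v : Fin a → MvPolynomial (Fin s) ℂ => coeff m (v α)) hc
      simp only [Finset.sum_apply, Pi.smul_apply, Pi.zero_apply, coeff_zero, coeff_sum, coeff_smul, smul_eq_mul] at h1
      rw [← h1]
      refine Finset.sum_congr rfl (fun i _ => ?_)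
      rw [show g i α = jj (B i : Fin a → MvPolynomial (Fin s) ℝ) α from rfl, coeff_jj]
    have hre : ∑ i, (c i).re • B i = 0 := by
      apply Subtype.ext
      funext α
      apply MvPolynomial.ext
      intro m
      have h2 := congrArg Complex.re (key α m)
      rw [Complex.re_sum] at h2
      simp only [Complex.re_mul_ofReal, Complex.zero_re] at h2
      rw [← coeff_zero m] at h2
      simpa [coeff_sum, Finset.sum_apply, coeff_smul] using h2
    have him : ∑ i, (c i).im • B i = 0 := by
      apply Subtype.ext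
      funext α
      apply MvPolynomial.ext
      intro m
      have h2 := congrArg Complex.im (key α m)
      rw [Complex.im_sum] at h2
      simp only [Complex.im_mul_ofReal, Complex.zero_im] at h2
      rw [← coeff_zero m] at h2
      simpa [coeff_sum, Finset.sum_apply, coeff_smul] using h2
    have hB := Fintype.linearIndependent_iff.mp B.linearIndependent
    intro i
    exact Complex.ext (hB _ hre i) (hB _ him i)
  have hmem : ∀ u ∈ U, jj u ∈ Submodule.span ℂ (Set.range g) := by
    intro u hu
    have hrep := B.sum_repr ⟨u, hu⟩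
    have h3 : u = ∑ i, B.repr ⟨u, hu⟩ i • (B i : Fin a → MvPolynomial (Fin s) ℝ) := by
      have h0 := congrArg Subtype.val hrep
      rw [Submodule.coe_sum] at h0
      simp only [Submodule.coe_smul] at h0
      exact h0.symm
    have h4 : jj u = ∑ i, ((B.repr ⟨u, hu⟩ i : ℝ) : ℂ) • g i := by
      funext α
      apply MvPolynomial.ext
      intro m
      rw [coeff_jj]
      have h5 := congrArg (fun v : Fin a → MvPolynomial (Fin s) ℝ => coeff m (v α)) h3
      simp only [Finset.sum_apply, Pi.smul_apply, coeff_sum, coeff_smul, smul_eq_mul] at h5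
      rw [h5]
      simp only [Finset.sum_apply, Pi.smul_apply, coeff_sum, coeff_smul, smul_eq_mul]
      push_cast
      refine Finset.sum_congr rfl (fun i _ => ?_)
      rw [show g i α = jj (B i : Fin a → MvPolynomial (Fin s) ℝ) α from rfl, coeff_jj]
    rw [h4]
    exact Submodule.sum_mem _ (fun i _ => Submodule.smul_mem _ _ (Submodule.subset_span ⟨i, rfl⟩))
  have hspan : Submodule.span ℂ (Set.range g) = UC := by
    apply le_antisymm
    · rw [Submodule.span_le]
      rintro _ ⟨i, rfl⟩
      have hBi : (B i : Fin a → MvPolynomial (Fin s) ℝ) ∈ U := (B i).2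
      refine ⟨?_, jj_gv dg d _ hBi.2⟩
      obtain ⟨w, hw⟩ := hBi.1
      refine ⟨jj w, ?_⟩
      rw [Matrix.mulVecLin_apply] at hw ⊢
      rw [mulVec_jj, hw]
    · intro v hv
      obtain ⟨u, hu, huv⟩ := im_deg dg dg' (M.map (map (algebraMap ℝ ℂ))) (hm_map dg dg' M hM) d v hv.1 hv.2
      have hdec : u = jj (fun i => reP (u i)) + Complex.I • jj (fun i => imP (u i)) := by
        funext α
        apply MvPolynomial.ext
        intro m
        rw [Pi.add_apply, Pi.smul_apply, coeff_add, coeff_smul, coeff_jj, coeff_jj, coeff_reP, coeff_imP,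
          smul_eq_mul, mul_comm, Complex.re_add_im]
      have hgr : (fun i => reP (u i)) ∈ (gv dg' d : Submodule ℝ (Fin b → MvPolynomial (Fin s) ℝ)) := by
        intro j m hm
        refine hu j m (fun h => hm ?_)
        rw [coeff_reP, h, Complex.zero_re]
      have hgi : (fun i => imP (u i)) ∈ (gv dg' d : Submodule ℝ (Fin b → MvPolynomial (Fin s) ℝ)) := by
        intro j m hm
        refine hu j m (fun h => hm ?_)
        rw [coeff_imP, h, Complex.zero_im]
      have hin : ∀ w ∈ (gv dg' d : Submodule ℝ (Fin b → MvPolynomial (Fin s) ℝ)),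
          jj (M.mulVec w) ∈ Submodule.span ℂ (Set.range g) := by
        intro w hw
        refine hmem _ ⟨⟨w, ?_⟩, mulVec_mem_gv dg dg' M hM d w hw⟩
        rw [Matrix.mulVecLin_apply]
      have hlast : v = jj (M.mulVec (fun i => reP (u i))) + Complex.I • jj (M.mulVec (fun i => imP (u i))) := by
        rw [← mulVec_jj, ← mulVec_jj, ← huv]
        conv_lhs => rw [hdec]
        rw [Matrix.mulVec_add, Matrix.mulVec_smul]
      rw [hlast]
      exact Submodule.add_mem _ (hin _ hgr) (Submodule.smul_mem _ _ (hin _ hgi))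
  rw [← hspan, finrank_span_eq_card hind, Fintype.card_fin]

end Pool.Agent.Helper21.BPA
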