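import Pool.Agent.Helper21.BPA.SecIdeal

/-!
PROJECT BP, block A2, module Indep: the differentials of `F`, `f_j`, `v_k` (`k ≠ s0`) at `w0 = pt σ' ξ` are independent.

Proof. Chain rule: `eval ξ (pderiv a (phi σ' g)) = ∑_x dv w0 g x * (∂ (pt)_x / ∂ x_a)(ξ)`, that is
`= dv w0 g (inl (inl a)) + ∑_s dv w0 g (inr s) * eval ξ (pderiv a (σ' s))`
(prove it as a private lemma by `MvPolynomial.induction_on g`, or by `pderiv` of `aeval`, `Derivation` uniqueness).
Suppose `α dF + ∑ β_j df_j + ∑ γ_k dv_k = 0` at `w0`. Apply the linear functional of the chain rule for each `a`: `phi σ' F = 0`, `phi σ' v_k = 0` give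
`∑ β_j eval ξ (pderiv a (phi σ' (f j))) = 0` for all `a`, so `β = 0` (`hind`). Evaluate at `inr s0`: `dv_k (inr s0) = 0` for `k ≠ s0`
(`vv σ' k` does not involve `X (inr s0)`), so `α * dv w0 F (inr s0) = 0`, `α = 0`. Evaluate at the variable of `k` (`inl (inr k)` resp. `inr s`): `γ_k = 0`.
`fam_zero`: all members of the family vanish at `w0`: for `F` and `v_k` by `eval_phi`, for `f_j` this is the hypothesis `hf0`.
-/

set_option autoImplicit false
set_option linter.unusedSectionVars false

namespace Pool.Agent.Helper21.BPA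

open MvPolynomial Pool.Agent.Helper72.BP

variable {p : ℕ} {κ τ : Type} [Fintype κ] [Fintype τ]

/-- The chain rule for `phi`. -/
private theorem chain (σ' : τ → MvPolynomial (Fin (p + 1)) ℝ) (ξ : Fin (p + 1) → ℝ) (a : Fin (p + 1))
    (g : MvPolynomial (Var (Ix p κ) τ) ℝ) :
    eval ξ (pderiv a (phi σ' g)) =
      ∑ x : Var (Ix p κ) τ, dv (pt σ' ξ) g x * eval ξ (pderiv a (phi σ' (X x))) := by
  classical
  induction g using MvPolynomial.induction_on with
  | C r =>
    have h1 : phi σ' (C r : MvPolynomial (Var (Ix p κ) τ) ℝ) = C r := by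
      unfold phi
      exact aeval_C _ r
    rw [h1, pderiv_C, map_zero]
    symm
    refine Finset.sum_eq_zero (fun x _ => ?_)
    unfold dv
    rw [pderiv_C, map_zero, zero_mul]
  | add g1 g2 h1 h2 =>
    rw [map_add, map_add, map_add, h1, h2, ← Finset.sum_add_distrib]
    refine Finset.sum_congr rfl (fun x _ => ?_)
    unfold dv
    rw [map_add, map_add]
    ring
  | mul_X g i h1 =>
    rw [map_mul, pderiv_mul, map_add, map_mul, map_mul, h1, eval_phi, eval_phi]
    have h2 : ∀ x : Var (Ix p κ) τ, dv (pt σ' ξ) (g * X i) x * eval ξ (pderiv a (phi σ' (X x))) =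
        (dv (pt σ' ξ) g x * eval ξ (pderiv a (phi σ' (X x)))) * eval (pt σ' ξ) (X i) +
          eval (pt σ' ξ) g * (if x = i then eval ξ (pderiv a (phi σ' (X x))) else 0) := by
      intro x
      unfold dv
      rw [pderiv_mul, map_add, map_mul, map_mul, pderiv_X]
      by_cases hx : x = i
      · subst hx
        rw [Pi.single_eq_same, map_one, if_pos rfl]
        ring
      · rw [Pi.single_eq_of_ne (fun h => hx h.symm), map_zero, if_neg hx]
        ring
    rw [Finset.sum_congr rfl (fun x _ => h2 x), Finset.sum_add_distrib, ← Finset.sum_mul, ← Finset.mul_sum,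
      Finset.sum_ite_eq' Finset.univ i, if_pos (Finset.mem_univ i)]

/-- The variable of an equation. -/
private def vr : κ ⊕ τ → Var (Ix p κ) τ := Sum.elim (fun k => Sum.inl (Sum.inr k)) Sum.inr

omit [Fintype κ] [Fintype τ] in
private theorem pd_rename (q : MvPolynomial (Fin (p + 1)) ℝ) (k : κ ⊕ τ) :
    pderiv (vr k) (rename (fun a => (Sum.inl (Sum.inl a) : Var (Ix p κ) τ)) q) = 0 := by
  classical
  refine pderiv_eq_zero_of_notMem_vars (fun h => ?_)
  have := vars_rename _ q h
  rw [Finset.mem_image] at this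
  obtain ⟨a, _, ha⟩ := this
  cases k with
  | inl k => simp [vr] at ha
  | inr s => simp [vr] at ha

omit [Fintype κ] [Fintype τ] in
private theorem dvv [DecidableEq (κ ⊕ τ)] (σ' : τ → MvPolynomial (Fin (p + 1)) ℝ) (w : Var (Ix p κ) τ → ℝ) (k k0 : κ ⊕ τ) :
    dv w (vv σ' k) (vr k0) = if k = k0 then 1 else 0 := by
  classical
  unfold dv
  cases k with
  | inl k =>
    have h1 : vv (p := p) σ' (Sum.inl k : κ ⊕ τ) = X (vr (Sum.inl k)) := rfl
    rw [h1, pderiv_X]
    cases k0 with
    | inl k0 =>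
      by_cases h : k = k0
      · subst h
        simp
      · rw [Pi.single_eq_of_ne (fun h' => h (by simpa [vr] using h')), map_zero, if_neg (fun h' => h (Sum.inl.inj h'))]
    | inr s0 =>
      rw [Pi.single_eq_of_ne (fun h' => by simp [vr] at h'), map_zero, if_neg (fun h' => by cases h')]
  | inr s =>
    have h1 : vv (p := p) σ' (Sum.inr s : κ ⊕ τ) = X (vr (Sum.inr s)) -
      rename (fun a => (Sum.inl (Sum.inl a) : Var (Ix p κ) τ)) (σ' s) := rfl
    rw [h1, map_sub, pd_rename, sub_zero, pderiv_X]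
    cases k0 with
    | inl k0 =>
      rw [Pi.single_eq_of_ne (fun h' => by simp [vr] at h'), map_zero, if_neg (fun h' => by cases h')]
    | inr s0 =>
      by_cases h : s = s0
      · subst h
        simp
      · rw [Pi.single_eq_of_ne (fun h' => h (by simpa [vr] using h')), map_zero, if_neg (fun h' => h (Sum.inr.inj h'))]

theorem fam_zero (F : MvPolynomial (Var (Ix p κ) τ) ℝ) (f : Fin p → MvPolynomial (Var (Ix p κ) τ) ℝ)
    (σ' : τ → MvPolynomial (Fin (p + 1)) ℝ) (hF : phi σ' F = 0) (ξ : Fin (p + 1) → ℝ) (s0 : τ)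
    (hf0 : ∀ j, eval (pt σ' ξ) (f j) = 0) (j) : eval (pt σ' ξ) (fam F f σ' s0 j) = 0 := by
  cases j with
  | none =>
    change eval (pt σ' ξ) F = 0
    rw [← eval_phi, hF, map_zero]
  | some j =>
    cases j with
    | inl j => exact hf0 j
    | inr k =>
      change eval (pt σ' ξ) (vv σ' k.1) = 0
      rw [← eval_phi, phi_vv, map_zero]

theorem indep (F : MvPolynomial (Var (Ix p κ) τ) ℝ) (f : Fin p → MvPolynomial (Var (Ix p κ) τ) ℝ)
    (σ' : τ → MvPolynomial (Fin (p + 1)) ℝ) (hF : phi σ' F = 0) (ξ : Fin (p + 1) → ℝ) (s0 : τ)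
    (h0 : eval (pt σ' ξ) (pderiv (Sum.inr s0) F) ≠ 0)
    (hind : LinearIndependent ℝ (fun j : Fin p => fun a : Fin (p + 1) => eval ξ (pderiv a (phi σ' (f j))))) :
    LinearIndependent ℝ (fun j => dv (pt σ' ξ) (fam F f σ' s0 j)) := by
  classical
  rw [Fintype.linearIndependent_iff]
  intro g hg
  rw [Fintype.sum_option, Fintype.sum_sum_type] at hg
  have hgx : ∀ x, g none * dv (pt σ' ξ) F x + ((∑ j : Fin p, g (some (Sum.inl j)) * dv (pt σ' ξ) (f j) x) +
      ∑ k : {k : κ ⊕ τ // k ≠ Sum.inr s0}, g (some (Sum.inr k)) * dv (pt σ' ξ) (vv σ' k.1) x) = 0 := by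
    intro x
    have := congrFun hg x
    simpa [fam, Finset.sum_apply] using this
  -- the functionals of the chain rule
  have hβ : ∀ j, g (some (Sum.inl j)) = 0 := by
    rw [Fintype.linearIndependent_iff] at hind
    refine hind (fun j => g (some (Sum.inl j))) ?_
    ext a
    rw [Finset.sum_apply, Pi.zero_apply]
    have h1 : ∑ x : Var (Ix p κ) τ, (g none * dv (pt σ' ξ) F x + ((∑ j : Fin p, g (some (Sum.inl j)) * dv (pt σ' ξ) (f j) x) +
        ∑ k : {k : κ ⊕ τ // k ≠ Sum.inr s0}, g (some (Sum.inr k)) * dv (pt σ' ξ) (vv σ' k.1) x)) *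
          eval ξ (pderiv a (phi σ' (X x))) = 0 :=
      Finset.sum_eq_zero (fun x _ => by rw [hgx x, zero_mul])
    simp only [add_mul, Finset.sum_add_distrib, Finset.sum_mul] at h1
    rw [Finset.sum_comm (s := Finset.univ) (t := (Finset.univ : Finset (Fin p))),
      Finset.sum_comm (s := Finset.univ) (t := (Finset.univ : Finset {k : κ ⊕ τ // k ≠ Sum.inr s0}))] at h1
    have h2 : ∀ (c : ℝ) (q : MvPolynomial (Var (Ix p κ) τ) ℝ),
        ∑ x : Var (Ix p κ) τ, c * dv (pt σ' ξ) q x * eval ξ (pderiv a (phi σ' (X x))) =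
          c * eval ξ (pderiv a (phi σ' q)) := by
      intro c q
      rw [chain σ' ξ a q, Finset.mul_sum]
      exact Finset.sum_congr rfl (fun x _ => by ring)
    simp only [h2, hF, phi_vv, map_zero, mul_zero, Finset.sum_const_zero, zero_add, add_zero] at h1
    simpa using h1
  have hα : g none = 0 := by
    have h1 := hgx (vr (Sum.inr s0))
    simp only [hβ, zero_mul, Finset.sum_const_zero, zero_add] at h1
    rw [Finset.sum_eq_zero (fun k _ => by rw [dvv, if_neg k.2, mul_zero]), add_zero] at h1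
    rcases mul_eq_zero.1 h1 with h | h
    · exact h
    · exact absurd h h0
  have hγ : ∀ k, g (some (Sum.inr k)) = 0 := by
    intro k
    have h1 := hgx (vr k.1)
    simp only [hβ, hα, zero_mul, Finset.sum_const_zero, zero_add] at h1
    rw [Finset.sum_eq_single k (fun k' _ hk' => by rw [dvv, if_neg (fun h => hk' (Subtype.ext h)), mul_zero])
      (fun h => absurd (Finset.mem_univ k) h), dvv, if_pos rfl, mul_one] at h1
    exact h1
  intro j
  cases j with
  | none => exact hα
  | some j =>
    cases j with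
    | inl j => exact hβ j
    | inr k => exact hγ k

end Pool.Agent.Helper21.BPA
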