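import Pool.Agent.Helper21.BPA.GDefs

/-!
PROJECT BP, block A2, module LocStep: local exactness modulo `I` passes to `I + (x)` for a local nonzerodivisor `x`.

Proof of `locStep`. Let `Q v ∈ I + (x)` (all components): `Q v = x g + (I)`. Then `x (P g) = P Q v - P (I) ∈ I` (as `P Q ∈ I`), so there is `δ1`, `δ1(w) ≠ 0`,
`δ1 (P g) ∈ I` (finitely many components: product of the `δ`s), so `P (δ1 g) ∈ I`, so `δ2 δ1 g = Q u + (I)` by `h1`. So
`Q (δ2 δ1 v - x u) = x (δ2 δ1 g) - x Q u + (I) ∈ I`, so by `h2` `δ3 (δ2 δ1 v - x u) = S u' + (I)`, so `δ3 δ2 δ1 v - S u' ∈ I + (x)`.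
Proof of `locStep0`: the same, `hx` gives directly `δ g = Q u + (I)`. (`Ideal.mem_sup`, `Ideal.mem_span_singleton`.)
-/

set_option autoImplicit false

namespace Pool.Agent.Helper21.BPA

open MvPolynomial Pool.Agent.Helper72.BP

private theorem mulVec_mem {ι : Type} {a b : ℕ} (I : Ideal (MvPolynomial ι ℝ))
    (P : Matrix (Fin a) (Fin b) (MvPolynomial ι ℝ)) (h : Fin b → MvPolynomial ι ℝ) (hh : ∀ j, h j ∈ I) (i : Fin a) :
    P.mulVec h i ∈ I := by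
  rw [Matrix.mulVec, dotProduct]
  exact Ideal.sum_mem _ fun j _ => I.mul_mem_left _ (hh j)

private theorem step0 {ι : Type} {b c d : ℕ} (w : ι → ℝ) (I : Ideal (MvPolynomial ι ℝ)) (x : MvPolynomial ι ℝ)
    (Q : Matrix (Fin b) (Fin c) (MvPolynomial ι ℝ)) (S : Matrix (Fin c) (Fin d) (MvPolynomial ι ℝ))
    (h2 : LEx w I Q S)
    (hx : ∀ g : Fin b → MvPolynomial ι ℝ, (∃ u, ∀ i, x * g i - Q.mulVec u i ∈ I) →
      ∃ δ : MvPolynomial ι ℝ, eval w δ ≠ 0 ∧ ∃ u, ∀ i, δ * g i - Q.mulVec u i ∈ I) :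
    LEx w (I ⊔ Ideal.span {x}) Q S := by
  intro v hv
  have h3 : ∀ i, ∃ g : MvPolynomial ι ℝ, Q.mulVec v i - x * g ∈ I := by
    intro i
    obtain ⟨y, hy, z, hz, hyz⟩ := Submodule.mem_sup.mp (hv i)
    obtain ⟨g, rfl⟩ := Ideal.mem_span_singleton'.mp hz
    refine ⟨g, ?_⟩
    rw [← hyz]
    have : y + g * x - x * g = y := by ring
    rw [this]
    exact hy
  choose g hg using h3
  obtain ⟨δ, hδ, u, hu⟩ := hx g ⟨v, fun i => by
    have := I.neg_mem (hg i)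
    rwa [neg_sub] at this⟩
  have h4 : ∀ i, Q.mulVec (δ • v - x • u) i ∈ I := by
    intro i
    rw [Matrix.mulVec_sub, Matrix.mulVec_smul, Matrix.mulVec_smul, Pi.sub_apply, Pi.smul_apply, Pi.smul_apply,
      smul_eq_mul, smul_eq_mul]
    have h5 : δ * Q.mulVec v i - x * Q.mulVec u i = δ * (Q.mulVec v i - x * g i) + x * (δ * g i - Q.mulVec u i) := by
      ring
    rw [h5]
    exact I.add_mem (I.mul_mem_left _ (hg i)) (I.mul_mem_left _ (hu i))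
  obtain ⟨δ3, hδ3, u', hu'⟩ := h2 _ h4
  refine ⟨δ3 * δ, by rw [map_mul]; exact mul_ne_zero hδ3 hδ, u', fun j => ?_⟩
  have h6 : δ3 * δ * v j - S.mulVec u' j =
      (δ3 * (δ • v - x • u) j - S.mulVec u' j) + (δ3 * u j) * x := by
    rw [Pi.sub_apply, Pi.smul_apply, Pi.smul_apply, smul_eq_mul, smul_eq_mul]
    ring
  rw [h6]
  exact Submodule.add_mem_sup (hu' j) (Ideal.mul_mem_left _ _ (Ideal.mem_span_singleton_self x))

theorem locStep {ι : Type} {a b c d : ℕ} (w : ι → ℝ) (I : Ideal (MvPolynomial ι ℝ)) (x : MvPolynomial ι ℝ)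
    (P : Matrix (Fin a) (Fin b) (MvPolynomial ι ℝ)) (Q : Matrix (Fin b) (Fin c) (MvPolynomial ι ℝ))
    (S : Matrix (Fin c) (Fin d) (MvPolynomial ι ℝ)) (hPQ : ∀ i j, (P * Q) i j ∈ I) (h1 : LEx w I P Q)
    (h2 : LEx w I Q S) (hx : ∀ h, x * h ∈ I → LM w I h) : LEx w (I ⊔ Ideal.span {x}) Q S := by
  refine step0 w I x Q S h2 fun g hg => ?_
  obtain ⟨u, hu⟩ := hg
  have h3 : ∀ i, x * P.mulVec g i ∈ I := by
    intro i
    have h4 : x * P.mulVec g i = P.mulVec (x • g - Q.mulVec u) i + (P * Q).mulVec u i := by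
      rw [Matrix.mulVec_sub, Matrix.mulVec_smul, Matrix.mulVec_mulVec, Pi.sub_apply, Pi.smul_apply, smul_eq_mul]
      ring
    rw [h4]
    refine I.add_mem (mulVec_mem I P _ (fun j => hu j) i) ?_
    rw [Matrix.mulVec, dotProduct]
    exact Ideal.sum_mem _ fun j _ => Ideal.mul_mem_right _ I (hPQ i j)
  have h5 : ∀ i, LM w I (P.mulVec g i) := fun i => hx _ (h3 i)
  choose δ hδ hδm using h5
  let δ1 : MvPolynomial ι ℝ := ∏ i, δ i
  have hδ1 : eval w δ1 ≠ 0 := by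
    rw [map_prod]
    exact Finset.prod_ne_zero_iff.mpr fun i _ => hδ i
  have h6 : ∀ i, P.mulVec (δ1 • g) i ∈ I := by
    intro i
    rw [Matrix.mulVec_smul, Pi.smul_apply, smul_eq_mul]
    obtain ⟨r, hr⟩ := Finset.dvd_prod_of_mem δ (Finset.mem_univ i)
    have h7 : δ1 * P.mulVec g i = r * (δ i * P.mulVec g i) := by
      change (∏ i, δ i) * P.mulVec g i = r * (δ i * P.mulVec g i)
      rw [hr]
      ring
    rw [h7]
    exact I.mul_mem_left _ (hδm i)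
  obtain ⟨δ2, hδ2, u', hu'⟩ := h1 _ h6
  refine ⟨δ2 * δ1, by rw [map_mul]; exact mul_ne_zero hδ2 hδ1, u', fun j => ?_⟩
  have h8 := hu' j
  rw [Pi.smul_apply, smul_eq_mul, ← mul_assoc] at h8
  exact h8

theorem locStep0 {ι : Type} {b c d : ℕ} (w : ι → ℝ) (I : Ideal (MvPolynomial ι ℝ)) (x : MvPolynomial ι ℝ)
    (Q : Matrix (Fin b) (Fin c) (MvPolynomial ι ℝ)) (S : Matrix (Fin c) (Fin d) (MvPolynomial ι ℝ))
    (h2 : LEx w I Q S)
    (hx : ∀ g : Fin b → MvPolynomial ι ℝ, (∃ u, ∀ i, x * g i - Q.mulVec u i ∈ I) →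
      ∃ δ : MvPolynomial ι ℝ, eval w δ ≠ 0 ∧ ∃ u, ∀ i, δ * g i - Q.mulVec u i ∈ I) :
    LEx w (I ⊔ Ideal.span {x}) Q S :=
  step0 w I x Q S h2 hx

end Pool.Agent.Helper21.BPA
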