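import Pool.Agent.Helper21.BPA.SecDefs

/-!
PROJECT BP, block A2, module SecIdeal: the kernel of `phi` and the derivatives of its elements.

Proofs. `phi_surj`: `phi σ' (rename (fun a => inl (inl a)) g) = g`. `phi_vv`: compute. `phi_ker`: modulo the ideal `V` of all `vv σ' k` every `f` is congruent to
`rename _ (phi σ' f)` (true for the variables: `X (inl (inl a))` exactly, `X (inl (inr k)) ∈ V`, `X (inr s) - rename _ (σ' s) ∈ V`; both sides are
ring maps: `MvPolynomial.induction_on`), so `phi σ' f = 0` gives `f ∈ V`. `eval_phi`: `eval x (phi σ' f) = eval (pt σ' x) f`.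
`secIdeal`: `F = ∑_k a_k v_k` (`phi_ker`, `Ideal.mem_span_range_iff_exists_fun`, `κ ⊕ τ` finite). At `w0 = pt σ' ξ` all `v_k(w0) = 0`, so
`∂F/∂t_s0 (w0) = ∑ a_k(w0) ∂v_k/∂t_s0 (w0) = a_s0(w0)` (`∂v_k/∂t_s0 = 1` for `k = inr s0`, else `0`); put `a = a_(inr s0)`, so `a v_s0 ∈ (F, v_k, k ≠ s0)`.
-/

set_option autoImplicit false

namespace Pool.Agent.Helper21.BPA

open MvPolynomial Pool.Agent.Helper72.BP

variable {p : ℕ} {κ τ : Type} (σ' : τ → MvPolynomial (Fin (p + 1)) ℝ)

theorem phi_rename (g : MvPolynomial (Fin (p + 1)) ℝ) :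
    phi σ' (rename (fun a => (Sum.inl (Sum.inl a) : Var (Ix p κ) τ)) g) = g := by
  unfold phi
  rw [aeval_rename]
  have h : ((Sum.elim (inc X) σ' : Var (Ix p κ) τ → MvPolynomial (Fin (p + 1)) ℝ) ∘
      (fun a => (Sum.inl (Sum.inl a) : Var (Ix p κ) τ))) = X := by
    funext a
    rfl
  rw [h, aeval_X_left, AlgHom.id_apply]

theorem eval_phi (x : Fin (p + 1) → ℝ) (f : MvPolynomial (Var (Ix p κ) τ) ℝ) :
    eval x (phi σ' f) = eval (pt σ' x) f := by
  induction f using MvPolynomial.induction_on with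
  | C r =>
    unfold phi
    rw [aeval_C, eval_C]
    exact eval_C r
  | add f g hf hg => rw [map_add, map_add, map_add, hf, hg]
  | mul_X f i hf =>
    rw [map_mul, map_mul, map_mul, hf, eval_X]
    congr 1
    unfold phi
    rw [aeval_X]
    rcases i with (a | k) | s
    · exact eval_X a
    · exact map_zero _
    · rfl

theorem phi_vv (k : κ ⊕ τ) : phi σ' (vv σ' k) = 0 := by
  rcases k with k | s
  · change phi σ' (X (Sum.inl (Sum.inr k))) = 0
    unfold phi
    rw [aeval_X]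
    rfl
  · change phi σ' (X (Sum.inr s) - rename (fun a => (Sum.inl (Sum.inl a) : Var (Ix p κ) τ)) (σ' s)) = 0
    rw [map_sub, phi_rename]
    unfold phi
    rw [aeval_X]
    exact sub_self _

private theorem congr_mod (f : MvPolynomial (Var (Ix p κ) τ) ℝ) :
    f - rename (fun a => (Sum.inl (Sum.inl a) : Var (Ix p κ) τ)) (phi σ' f) ∈
      Ideal.span (Set.range (vv (κ := κ) σ')) := by
  induction f using MvPolynomial.induction_on with
  | C r =>
    have h : phi σ' (C r : MvPolynomial (Var (Ix p κ) τ) ℝ) = C r := by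
      unfold phi
      rw [aeval_C]
      rfl
    rw [h, rename_C, sub_self]
    exact Ideal.zero_mem _
  | add f g hf hg =>
    have h : f + g - rename (fun a => (Sum.inl (Sum.inl a) : Var (Ix p κ) τ)) (phi σ' (f + g)) =
        (f - rename (fun a => (Sum.inl (Sum.inl a) : Var (Ix p κ) τ)) (phi σ' f)) +
        (g - rename (fun a => (Sum.inl (Sum.inl a) : Var (Ix p κ) τ)) (phi σ' g)) := by
      rw [map_add, map_add]
      ring
    rw [h]
    exact Ideal.add_mem _ hf hg
  | mul_X f i hf =>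
    have hX : (X i : MvPolynomial (Var (Ix p κ) τ) ℝ) -
        rename (fun a => (Sum.inl (Sum.inl a) : Var (Ix p κ) τ)) (phi σ' (X i)) ∈
        Ideal.span (Set.range (vv (κ := κ) σ')) := by
      have h1 : phi σ' (X i : MvPolynomial (Var (Ix p κ) τ) ℝ) =
          (Sum.elim (inc X) σ' : Var (Ix p κ) τ → MvPolynomial (Fin (p + 1)) ℝ) i := by
        unfold phi
        rw [aeval_X]
      rw [h1]
      rcases i with (a | k) | s
      · have h2 : rename (fun a => (Sum.inl (Sum.inl a) : Var (Ix p κ) τ))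
            ((Sum.elim (inc X) σ' : Var (Ix p κ) τ → MvPolynomial (Fin (p + 1)) ℝ) (Sum.inl (Sum.inl a))) =
            X (Sum.inl (Sum.inl a)) := rename_X _ _
        rw [h2, sub_self]
        exact Ideal.zero_mem _
      · have h2 : rename (fun a => (Sum.inl (Sum.inl a) : Var (Ix p κ) τ))
            ((Sum.elim (inc X) σ' : Var (Ix p κ) τ → MvPolynomial (Fin (p + 1)) ℝ) (Sum.inl (Sum.inr k))) = 0 :=
          map_zero _
        rw [h2, sub_zero]
        exact Ideal.subset_span ⟨Sum.inl k, rfl⟩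
      · exact Ideal.subset_span ⟨Sum.inr s, rfl⟩
    have h : f * X i - rename (fun a => (Sum.inl (Sum.inl a) : Var (Ix p κ) τ)) (phi σ' (f * X i)) =
        (f - rename (fun a => (Sum.inl (Sum.inl a) : Var (Ix p κ) τ)) (phi σ' f)) * X i +
        rename (fun a => (Sum.inl (Sum.inl a) : Var (Ix p κ) τ)) (phi σ' f) *
          (X i - rename (fun a => (Sum.inl (Sum.inl a) : Var (Ix p κ) τ)) (phi σ' (X i))) := by
      rw [map_mul, map_mul]
      ring
    rw [h]
    exact Ideal.add_mem _ (Ideal.mul_mem_right _ _ hf) (Ideal.mul_mem_left _ _ hX)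

theorem phi_ker (f : MvPolynomial (Var (Ix p κ) τ) ℝ) (hf : phi σ' f = 0) : f ∈ Ideal.span (Set.range (vv σ')) := by
  have h := congr_mod (κ := κ) σ' f
  rw [hf, map_zero, sub_zero] at h
  exact h

private theorem eval_vv (ξ : Fin (p + 1) → ℝ) (k : κ ⊕ τ) : eval (pt σ' ξ) (vv σ' k) = 0 := by
  rw [← eval_phi, phi_vv, map_zero]

private theorem pderiv_ren (s0 : τ) (g : MvPolynomial (Fin (p + 1)) ℝ) :
    pderiv (Sum.inr s0) (rename (fun a => (Sum.inl (Sum.inl a) : Var (Ix p κ) τ)) g) = 0 := by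
  classical
  induction g using MvPolynomial.induction_on with
  | C r => rw [rename_C, pderiv_C]
  | add f g hf hg => rw [map_add, map_add, hf, hg, add_zero]
  | mul_X f i hf =>
    rw [map_mul, pderiv_mul, hf, zero_mul, zero_add, rename_X, pderiv_X_of_ne (by exact Sum.inl_ne_inr), mul_zero]

private theorem pderiv_vv_ne (s0 : τ) (k : κ ⊕ τ) (hk : k ≠ Sum.inr s0) :
    pderiv (Sum.inr s0) (vv (p := p) σ' k) = 0 := by
  classical
  rcases k with k | s
  · change pderiv (Sum.inr s0) (X (Sum.inl (Sum.inr k)) : MvPolynomial (Var (Ix p κ) τ) ℝ) = 0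
    exact pderiv_X_of_ne Sum.inl_ne_inr
  · change pderiv (Sum.inr s0) (X (Sum.inr s) -
      rename (fun a => (Sum.inl (Sum.inl a) : Var (Ix p κ) τ)) (σ' s)) = 0
    rw [map_sub, pderiv_ren, pderiv_X_of_ne, sub_zero]
    intro h
    exact hk (by rw [Sum.inr_injective h])

private theorem pderiv_vv_self (s0 : τ) :
    pderiv (Sum.inr s0) (vv (p := p) (κ := κ) σ' (Sum.inr s0)) = 1 := by
  classical
  change pderiv (Sum.inr s0) (X (Sum.inr s0) -
    rename (fun a => (Sum.inl (Sum.inl a) : Var (Ix p κ) τ)) (σ' s0)) = 1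
  rw [map_sub, pderiv_ren, pderiv_X_self, sub_zero]

theorem secIdeal [Fintype κ] [Fintype τ] (F : MvPolynomial (Var (Ix p κ) τ) ℝ) (hF : phi σ' F = 0)
    (ξ : Fin (p + 1) → ℝ) (s0 : τ) (h0 : eval (pt σ' ξ) (pderiv (Sum.inr s0) F) ≠ 0) :
    ∃ a : MvPolynomial (Var (Ix p κ) τ) ℝ, eval (pt σ' ξ) a ≠ 0 ∧
      ∀ f, phi σ' f = 0 → a * f ∈ Ideal.span (insert F {g | ∃ k : κ ⊕ τ, k ≠ Sum.inr s0 ∧ g = vv σ' k}) := by
  classical
  obtain ⟨c, hc⟩ := Ideal.mem_span_range_iff_exists_fun.1 (phi_ker (κ := κ) σ' F hF)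
  have hd : eval (pt σ' ξ) (pderiv (Sum.inr s0) F) = eval (pt σ' ξ) (c (Sum.inr s0)) := by
    rw [← hc, map_sum, map_sum, Finset.sum_eq_single (Sum.inr s0)]
    · rw [pderiv_mul, map_add, map_mul, map_mul, eval_vv, mul_zero, zero_add, pderiv_vv_self, map_one, mul_one]
    · intro k _ hk
      rw [pderiv_mul, map_add, map_mul, map_mul, eval_vv, mul_zero, zero_add, pderiv_vv_ne σ' s0 k hk, map_zero,
        mul_zero]
    · intro h
      exact absurd (Finset.mem_univ _) h
  refine ⟨c (Sum.inr s0), ?_, ?_⟩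
  · rw [← hd]
    exact h0
  · intro f hf
    obtain ⟨e, he⟩ := Ideal.mem_span_range_iff_exists_fun.1 (phi_ker (κ := κ) σ' f hf)
    have hne : ∀ k : κ ⊕ τ, k ≠ Sum.inr s0 →
        vv σ' k ∈ Ideal.span (insert F {g | ∃ k : κ ⊕ τ, k ≠ Sum.inr s0 ∧ g = vv σ' k}) := by
      intro k hk
      exact Ideal.subset_span (Set.mem_insert_of_mem _ ⟨k, hk, rfl⟩)
    have hs : c (Sum.inr s0) * vv σ' (Sum.inr s0) ∈
        Ideal.span (insert F {g | ∃ k : κ ⊕ τ, k ≠ Sum.inr s0 ∧ g = vv σ' k}) := by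
      have h1 : c (Sum.inr s0) * vv σ' (Sum.inr s0) =
          F - ∑ k ∈ Finset.univ.erase (Sum.inr s0), c k * vv σ' k := by
        rw [← hc, ← Finset.add_sum_erase Finset.univ _ (Finset.mem_univ (Sum.inr s0)), add_sub_cancel_right]
      rw [h1]
      refine Ideal.sub_mem _ (Ideal.subset_span (Set.mem_insert _ _)) (Ideal.sum_mem _ ?_)
      intro k hk
      exact Ideal.mul_mem_left _ _ (hne k (Finset.ne_of_mem_erase hk))
    rw [← he, Finset.mul_sum]
    refine Ideal.sum_mem _ ?_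
    intro k _
    rw [mul_left_comm]
    refine Ideal.mul_mem_left _ _ ?_
    by_cases hk : k = Sum.inr s0
    · rw [hk]
      exact hs
    · exact Ideal.mul_mem_left _ _ (hne k hk)

end Pool.Agent.Helper21.BPA
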