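import Pool.Agent.Helper21.BPA.LocReg
import Pool.Agent.Helper21.BPA.LocStep
import Pool.Agent.Helper21.BPA.Indep
import Pool.Agent.Helper21.BPA.SecIdeal

/-!
PROJECT BP, block A2, module LocExact: the restricted complex is exact at the spots `1, .., n` locally at `ξ`.

Proof. `w0 = pt σ' ξ`, `N = {k : κ ⊕ τ // k ≠ inr s0}`. For a finite set `T` of elements of `N` let `I_T = span (fam '' ({none} ∪ {some (inr k) | k ∈ T}))`
(generated by `F` and the `v_k`, `k ∈ T`). Claim (induction on `T`): `LEx w0 I_T (M i) (M (i+1))` for all `i < n`. `T = ∅`: `M_exact` (`δ = 1`).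
Step from `T` to `insert k T`, `k ∉ T`: `x = v_k` satisfies `x h ∈ I_T → LM w0 I_T h` (`locReg` for `fam`, `S = {none} ∪ T`, `fam_zero`, `indep`). For `i ≥ 1` use
`locStep` with `P = M (i-1)`, `Q = M i`, `S = M (i+1)` (`M_comp`: entries of `M (i-1) * M i` in `(F) ⊆ I_T`). For `i = 0` use `locStep0`: `rk 0 = 1`;
if `x g = M 0 u + (I_T)` then `x g_0 ∈ J + I_T` (`M_J`: the entries of `M 0` are in `J`), `x g_0 = h + r`, `h ∈ J`, `r ∈ I_T`; `hloc h`: `δ h ∈ (F, f_j)`, so
`x δ g_0 ∈ span (fam '' S')`, `S' = {none} ∪ {f_j} ∪ T`, so by `locReg` `δ' δ g_0 ∈ span (fam '' S') ⊆ J + I_T`, and by `M_J` an element of `J` is `M 0 u`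
modulo `(F)`. Put `T` = everything: `I` = the ideal of `F` and all `v_k`, `k ≠ s0`. Now let `(Gm i) v = 0`, `i < n`. Lift `v` by `rename` to `v'` (`phi_rename`).
`phi ((M i) v') = 0`, so `a (M i) v' ∈ I` (`secIdeal`), so by the claim for `a v'`: `δ a v' = (M (i+1)) u + (I)`; apply `phi σ'` (which kills `I`):
`phi (δ a) v = (Gm (i+1)) (phi u)`, and `eval ξ (phi (δ a)) = δ(w0) a(w0) ≠ 0` (`eval_phi`).
-/

set_option autoImplicit false

namespace Pool.Agent.Helper21.BPA

open MvPolynomial Pool.Agent.Helper72.BP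

private theorem le_row_mem {S : Type} [CommRing S] {r c : ℕ} (hr : r = 1) (A : Matrix (Fin r) (Fin c) S) (f : S)
    (hf : f ∈ Ideal.span {f | ∃ a b, f = A a b}) : ∃ u : Fin c → S, ∀ a, A.mulVec u a = f := by
  subst hr
  induction hf using Submodule.span_induction with
  | mem x hx =>
    obtain ⟨a, b, rfl⟩ := hx
    refine ⟨Pi.single b 1, fun a' => ?_⟩
    rw [Subsingleton.elim a' a]
    simp [Matrix.mulVec_single]
  | zero => exact ⟨0, fun a => by simp⟩
  | add x y _ _ hx hy =>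
    obtain ⟨u, hu⟩ := hx
    obtain ⟨v, hv⟩ := hy
    exact ⟨u + v, fun a => by rw [Matrix.mulVec_add, Pi.add_apply, hu, hv]⟩
  | smul s x _ hx =>
    obtain ⟨u, hu⟩ := hx
    exact ⟨s • u, fun a => by rw [Matrix.mulVec_smul, Pi.smul_apply, hu]⟩

/-- The index set of `F` and the equations in `T`. -/
private def ST {p : ℕ} {κ τ : Type} {s0 : τ} (T : Finset {k : κ ⊕ τ // k ≠ Sum.inr s0}) :
    Set (Option (Fin p ⊕ {k : κ ⊕ τ // k ≠ Sum.inr s0})) := {x | x = none ∨ ∃ k ∈ T, x = some (Sum.inr k)}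

theorem locExact {p : ℕ} {κ τ : Type} [Fintype κ] [DecidableEq κ] [Fintype τ] [DecidableEq τ]
    (F : MvPolynomial (Var (Ix p κ) τ) ℝ) (J : Ideal (MvPolynomial (Var (Ix p κ) τ) ℝ))
    (σ : τ → MvPolynomial (Ix p κ) ℂ) (σ' : τ → MvPolynomial (Fin (p + 1)) ℝ) (hF : phi σ' F = 0)
    (ξ : Fin (p + 1) → ℝ) (s0 : τ) (h0 : eval (pt σ' ξ) (pderiv (Sum.inr s0) F) ≠ 0)
    (f : Fin p → MvPolynomial (Var (Ix p κ) τ) ℝ) (hf : ∀ j, f j ∈ J) (hf0 : ∀ j, eval (pt σ' ξ) (f j) = 0)
    (hloc : ∀ h ∈ J, ∃ δ : MvPolynomial (Var (Ix p κ) τ) ℝ,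
      eval (pt σ' ξ) δ ≠ 0 ∧ δ * h ∈ Ideal.span (insert F (Set.range f)))
    (hind : LinearIndependent ℝ (fun j : Fin p => fun a : Fin (p + 1) => eval ξ (pderiv a (phi σ' (f j)))))
    (R : Pre F J σ) (i : ℕ) (hi : i < R.n) (v : Fin (R.rk (i + 1)) → MvPolynomial (Fin (p + 1)) ℝ)
    (hv : (Gm R σ' i).mulVec v = 0) :
    ∃ δ : MvPolynomial (Fin (p + 1)) ℝ, eval ξ δ ≠ 0 ∧ δ • v ∈ imM (Gm R σ' (i + 1)) := by
  classical
  have hz := fam_zero (κ := κ) F f σ' hF ξ s0 hf0
  have hI := indep (κ := κ) F f σ' hF ξ s0 h0 hind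
  have hreg := locReg (pt σ' ξ) (fam F f σ' s0) hz hI
  -- elements of `J`
  have hJrow : ∀ e ∈ J, ∃ u, ∀ i, e - (R.M 0).mulVec u i ∈ Ideal.span {F} := by
    intro e he
    rw [R.M_J, Ideal.span_insert] at he
    obtain ⟨g, hg, k, hk, hgk⟩ := Submodule.mem_sup.1 he
    obtain ⟨u, hu⟩ := le_row_mem R.rk0 (R.M 0) k hk
    refine ⟨u, fun i => ?_⟩
    rw [hu i, ← hgk, add_sub_cancel_right]
    exact hg
  have hrowJ : ∀ (u : Fin (R.rk (0 + 1)) → MvPolynomial (Var (Ix p κ) τ) ℝ) i, (R.M 0).mulVec u i ∈ J := by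
    intro u i
    rw [Matrix.mulVec, dotProduct]
    refine Ideal.sum_mem _ fun b _ => Ideal.mul_mem_right _ _ ?_
    exact (le_of_eq R.M_J.symm) (Ideal.subset_span (Set.mem_insert_of_mem _ ⟨i, b, rfl⟩))
  have hFle : ∀ T : Finset {k : κ ⊕ τ // k ≠ Sum.inr s0},
      Ideal.span {F} ≤ Ideal.span (fam F f σ' s0 '' (ST T)) := by
    intro T
    rw [Ideal.span_le, Set.singleton_subset_iff]
    exact Ideal.subset_span ⟨none, Or.inl rfl, rfl⟩
  -- the claim
  have claim : ∀ T : Finset {k : κ ⊕ τ // k ≠ Sum.inr s0}, ∀ i < R.n,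
      LEx (pt σ' ξ) (Ideal.span (fam F f σ' s0 '' (ST T))) (R.M i) (R.M (i + 1)) := by
    intro T
    induction T using Finset.induction_on with
    | empty =>
      intro i hi v hv
      have e : Ideal.span (fam F f σ' s0 '' (ST (∅ : Finset {k : κ ⊕ τ // k ≠ Sum.inr s0}))) =
          Ideal.span {F} := by
        congr 1
        ext g
        constructor
        · rintro ⟨x, hx, rfl⟩
          rcases hx with rfl | ⟨k, hk, _⟩
          · rfl
          · exact absurd hk (Finset.notMem_empty k)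
        · rintro rfl
          exact ⟨none, Or.inl rfl, rfl⟩
      rw [e] at hv ⊢
      obtain ⟨u, hu⟩ := R.M_exact i hi v hv
      exact ⟨1, by rw [map_one]; exact one_ne_zero, u, fun j => by rw [one_mul]; exact hu j⟩
    | insert k T hk ih =>
      have e : Ideal.span (fam F f σ' s0 '' (ST (insert k T))) =
          Ideal.span (fam F f σ' s0 '' (ST T)) ⊔ Ideal.span {vv σ' k.1} := by
        rw [← Ideal.span_union]
        congr 1
        ext g
        constructor
        · rintro ⟨x, hx, rfl⟩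
          rcases hx with rfl | ⟨k', hk', rfl⟩
          · exact Or.inl ⟨none, Or.inl rfl, rfl⟩
          · rcases Finset.mem_insert.1 hk' with rfl | h
            · exact Or.inr rfl
            · exact Or.inl ⟨_, Or.inr ⟨k', h, rfl⟩, rfl⟩
        · rintro (⟨x, hx, rfl⟩ | hg)
          · rcases hx with rfl | ⟨k', hk', rfl⟩
            · exact ⟨none, Or.inl rfl, rfl⟩
            · exact ⟨_, Or.inr ⟨k', Finset.mem_insert_of_mem hk', rfl⟩, rfl⟩
          · rw [Set.mem_singleton_iff] at hg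
            subst hg
            exact ⟨_, Or.inr ⟨k, Finset.mem_insert_self _ _, rfl⟩, rfl⟩
      have hk' : some (Sum.inr k) ∉ (ST T : Set (Option (Fin p ⊕ {k : κ ⊕ τ // k ≠ Sum.inr s0}))) := by
        rintro (h | ⟨k', h1, h2⟩)
        · exact absurd h (by simp)
        · have : k = k' := by simpa using h2
          subst this
          exact hk h1
      intro i hi
      rw [e]
      cases i with
      | succ i =>
        refine locStep (pt σ' ξ) _ (vv σ' k.1) (R.M i) (R.M (i + 1)) (R.M (i + 1 + 1)) ?_ (ih i (by omega))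
          (ih (i + 1) hi) ?_
        · intro a b
          exact hFle T (R.M_comp i (by omega) a b)
        · intro h hh
          exact hreg (ST T) (some (Sum.inr k)) hk' h hh
      | zero =>
        refine locStep0 (pt σ' ξ) _ (vv σ' k.1) (R.M 0) (R.M 1) (ih 0 hi) ?_
        rintro g ⟨u, hu⟩
        have i0 : Fin (R.rk 0) := ⟨0, by rw [R.rk0]; exact one_pos⟩
        have hsub : Subsingleton (Fin (R.rk 0)) := by rw [R.rk0]; infer_instance
        obtain ⟨δ1, hδ1, h1⟩ := hloc _ (hrowJ u i0)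
        -- the big index set
        set S' : Set (Option (Fin p ⊕ {k : κ ⊕ τ // k ≠ Sum.inr s0})) :=
          ST T ∪ {x | ∃ j : Fin p, x = some (Sum.inl j)} with hS'
        have hle1 : Ideal.span (insert F (Set.range f)) ≤ Ideal.span (fam F f σ' s0 '' S') := by
          refine Ideal.span_mono ?_
          rintro g (rfl | ⟨j, rfl⟩)
          · exact ⟨none, Or.inl (Or.inl rfl), rfl⟩
          · exact ⟨some (Sum.inl j), Or.inr ⟨j, rfl⟩, rfl⟩
        have hle2 : Ideal.span (fam F f σ' s0 '' (ST T)) ≤ Ideal.span (fam F f σ' s0 '' S') :=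
          Ideal.span_mono (Set.image_mono Set.subset_union_left)
        have hkS' : some (Sum.inr k) ∉ S' := by
          rintro (h | ⟨j, h⟩)
          · exact hk' h
          · exact absurd h (by simp)
        have hx : fam F f σ' s0 (some (Sum.inr k)) * (δ1 * g i0) ∈ Ideal.span (fam F f σ' s0 '' S') := by
          have e1 : fam F f σ' s0 (some (Sum.inr k)) * (δ1 * g i0) =
              δ1 * (R.M 0).mulVec u i0 + δ1 * (vv σ' k.1 * g i0 - (R.M 0).mulVec u i0) := by
            have : fam F f σ' s0 (some (Sum.inr k)) = vv σ' k.1 := rfl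
            rw [this]
            ring
          rw [e1]
          exact Ideal.add_mem _ (hle1 h1) (Ideal.mul_mem_left _ _ (hle2 (hu i0)))
        obtain ⟨δ2, hδ2, h2⟩ := hreg S' (some (Sum.inr k)) hkS' _ hx
        have hle3 : Ideal.span (fam F f σ' s0 '' S') ≤ J ⊔ Ideal.span (fam F f σ' s0 '' (ST T)) := by
          rw [Ideal.span_le]
          rintro _ ⟨x, hx | ⟨j, rfl⟩, rfl⟩
          · exact Ideal.mem_sup_right (Ideal.subset_span ⟨x, hx, rfl⟩)
          · exact Ideal.mem_sup_left (hf j)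
        obtain ⟨e', he', r, hr, her⟩ := Submodule.mem_sup.1 (hle3 h2)
        obtain ⟨u', hu'⟩ := hJrow e' he'
        refine ⟨δ2 * δ1, by rw [map_mul]; exact mul_ne_zero hδ2 hδ1, u', fun i => ?_⟩
        rw [Subsingleton.elim i i0]
        have e2 : δ2 * δ1 * g i0 - (R.M 0).mulVec u' i0 = (e' - (R.M 0).mulVec u' i0) + r := by
          rw [mul_assoc, ← her]
          ring
        rw [e2]
        exact Ideal.add_mem _ (hFle T (hu' i0)) hr
  -- the end
  obtain ⟨a0, ha0, ha⟩ := secIdeal (κ := κ) σ' F hF ξ s0 h0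
  have hall : Ideal.span (insert F {g | ∃ k : κ ⊕ τ, k ≠ Sum.inr s0 ∧ g = vv σ' k}) ≤
      Ideal.span (fam F f σ' s0 '' (ST Finset.univ)) := by
    refine Ideal.span_mono ?_
    rintro g (rfl | ⟨k, hk, rfl⟩)
    · exact ⟨none, Or.inl rfl, rfl⟩
    · exact ⟨some (Sum.inr ⟨k, hk⟩), Or.inr ⟨⟨k, hk⟩, Finset.mem_univ _, rfl⟩, rfl⟩
  have hkill : ∀ g ∈ Ideal.span (fam F f σ' s0 '' (ST (Finset.univ : Finset {k : κ ⊕ τ // k ≠ Sum.inr s0}))),
      phi σ' g = 0 := by
    intro g hg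
    have : Ideal.span (fam F f σ' s0 '' (ST (Finset.univ : Finset {k : κ ⊕ τ // k ≠ Sum.inr s0}))) ≤
        RingHom.ker (phi σ' : MvPolynomial (Var (Ix p κ) τ) ℝ →ₐ[ℝ] MvPolynomial (Fin (p + 1)) ℝ) := by
      rw [Ideal.span_le]
      rintro _ ⟨x, rfl | ⟨k, _, rfl⟩, rfl⟩
      · exact hF
      · exact phi_vv σ' k.1
    exact this hg
  set v' : Fin (R.rk (i + 1)) → MvPolynomial (Var (Ix p κ) τ) ℝ :=
    fun j => rename (fun a => (Sum.inl (Sum.inl a) : Var (Ix p κ) τ)) (v j) with hv'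
  have hpv : ∀ j, phi σ' (v' j) = v j := fun j => phi_rename σ' (v j)
  have hphimul : ∀ (i : ℕ) (w : Fin (R.rk (i + 1)) → MvPolynomial (Var (Ix p κ) τ) ℝ) (a : Fin (R.rk i)),
      phi σ' ((R.M i).mulVec w a) = (Gm R σ' i).mulVec (fun j => phi σ' (w j)) a := by
    intro i w a
    rw [Gm, Matrix.mulVec, Matrix.mulVec, dotProduct, dotProduct, map_sum]
    refine Finset.sum_congr rfl fun b _ => ?_
    rw [map_mul, Matrix.map_apply]
  have h1 : ∀ a, (R.M i).mulVec (a0 • v') a ∈ Ideal.span (fam F f σ' s0 '' (ST Finset.univ)) := by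
    intro a
    rw [Matrix.mulVec_smul, Pi.smul_apply, smul_eq_mul]
    refine hall (ha _ ?_)
    rw [hphimul]
    have : (fun j => phi σ' (v' j)) = v := funext hpv
    rw [this, hv]
    rfl
  obtain ⟨δ, hδ, u, hu⟩ := claim Finset.univ i hi _ h1
  refine ⟨phi σ' (δ * a0), ?_, ?_⟩
  · rw [eval_phi, map_mul]
    exact mul_ne_zero hδ ha0
  · refine LinearMap.mem_range.2 ⟨fun j => phi σ' (u j), ?_⟩
    rw [Matrix.mulVecLin_apply]
    funext j
    rw [← hphimul, Pi.smul_apply, smul_eq_mul, ← hpv j, ← map_mul]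
    have h3 := hkill _ (hu j)
    rw [map_sub, sub_eq_zero] at h3
    rw [← h3, Pi.smul_apply, smul_eq_mul, mul_assoc]

end Pool.Agent.Helper21.BPA
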