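import Mathlib

/-!
PROJECT BP, block A2, module Numbers: the value at `t = -1` of `a(t) = ∑_i (-1)^i ∑_j t^(deg i j)`.

Proof. In `ℤ⟦t⟧`: `(1 - t)^(-(p+1)) = ∑_e (e+p choose p) t^e` (`PowerSeries.invOneSubPow`, `PowerSeries.invOneSubPow_val_eq_mk_sub_one_add_choose_of_pos` or
`PowerSeries.mk_one_pow_eq_mk_choose_add`), so the coefficient of `t^d` of `a(t) (1-t)^(-(p+1))` is `∑_i (-1)^i ∑_j [deg i j ≤ d] (d - deg i j + p choose p)`,
which is `c` for `d ≥ d1`. So `a(t) (1-t)^(-(p+1)) = c (1-t)^(-1) + q(t)` with a polynomial `q ∈ ℤ[t]` (of degree `< d1`), so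
`a(t) = c (1-t)^p + (1-t)^(p+1) q(t)` as power series, so as polynomials. Evaluate at `-1`: `a(-1) = c 2^p + 2^(p+1) q(-1) = 2^p (c + 2 q(-1))`.
-/

set_option autoImplicit false

namespace Pool.Agent.Helper21.BPA

private theorem numbers_series (p L : ℕ) (rk : ℕ → ℕ) (deg : (i : ℕ) → Fin (rk i) → ℕ) (d : ℕ) :
    PowerSeries.coeff d ((((∑ i ∈ Finset.range (L + 1), Polynomial.C ((-1 : ℤ) ^ i) *
      ∑ j, (Polynomial.X : Polynomial ℤ) ^ deg i j : Polynomial ℤ)) : PowerSeries ℤ) *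
        (PowerSeries.mk fun n => ((p + n).choose p : ℤ))) =
    ∑ i ∈ Finset.range (L + 1), (-1 : ℤ) ^ i *
      ∑ j, (if deg i j ≤ d then ((d - deg i j + p).choose p : ℤ) else 0) := by
  have hcoe : (((∑ i ∈ Finset.range (L + 1), Polynomial.C ((-1 : ℤ) ^ i) *
      ∑ j, (Polynomial.X : Polynomial ℤ) ^ deg i j : Polynomial ℤ)) : PowerSeries ℤ) =
      ∑ i ∈ Finset.range (L + 1), PowerSeries.C ((-1 : ℤ) ^ i) *
      ∑ j, (PowerSeries.X : PowerSeries ℤ) ^ deg i j := by
    rw [← Polynomial.coeToPowerSeries.ringHom_apply, map_sum]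
    refine Finset.sum_congr rfl fun i _ => ?_
    rw [map_mul, map_sum]
    congr 1
    · exact Polynomial.coe_C _
    · refine Finset.sum_congr rfl fun j _ => ?_
      rw [map_pow]
      congr 1
      exact Polynomial.coe_X
  rw [hcoe, Finset.sum_mul, map_sum]
  refine Finset.sum_congr rfl fun i _ => ?_
  rw [mul_assoc, PowerSeries.coeff_C_mul, Finset.sum_mul, map_sum]
  congr 1
  refine Finset.sum_congr rfl fun j _ => ?_
  rw [PowerSeries.coeff_X_pow_mul']
  split_ifs with hj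
  · rw [PowerSeries.coeff_mk, add_comm]
  · rfl

theorem numbers (p L : ℕ) (rk : ℕ → ℕ) (deg : (i : ℕ) → Fin (rk i) → ℕ) (c : ℤ) (hc : Odd c) (d1 : ℕ)
    (h : ∀ d ≥ d1, ∑ i ∈ Finset.range (L + 1), (-1 : ℤ) ^ i *
      ∑ j, (if deg i j ≤ d then ((d - deg i j + p).choose p : ℤ) else 0) = c) :
    ∃ c' : ℤ, Odd c' ∧ ∑ i ∈ Finset.range (L + 1), (-1 : ℤ) ^ i * ∑ j, (-1 : ℤ) ^ deg i j = 2 ^ p * c' := by
  set A : Polynomial ℤ := ∑ i ∈ Finset.range (L + 1), Polynomial.C ((-1 : ℤ) ^ i) *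
      ∑ j, (Polynomial.X : Polynomial ℤ) ^ deg i j with hA
  set B : PowerSeries ℤ := PowerSeries.mk fun n => ((p + n).choose p : ℤ) with hB
  have hB1 : B * (1 - PowerSeries.X) ^ (p + 1) = 1 := by
    have h1 : B = (PowerSeries.mk 1 : PowerSeries ℤ) ^ (p + 1) := by
      rw [PowerSeries.mk_one_pow_eq_mk_choose_add]
    rw [h1, ← mul_pow, PowerSeries.mk_one_mul_one_sub_eq_one, one_pow]
  set q : Polynomial ℤ := PowerSeries.trunc d1 ((A : PowerSeries ℤ) * B - PowerSeries.C c * PowerSeries.mk 1)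
    with hq
  have key : (A : PowerSeries ℤ) * B = PowerSeries.C c * PowerSeries.mk 1 + (q : PowerSeries ℤ) := by
    ext d
    rw [map_add, Polynomial.coeff_coe, hq, PowerSeries.coeff_trunc]
    split_ifs with hd
    · rw [map_sub]; ring
    · rw [PowerSeries.coeff_C_mul, PowerSeries.coeff_mk, add_zero, Pi.one_apply, mul_one,
        hA, hB, numbers_series, h d (by omega)]
  have key2 : (A : PowerSeries ℤ) = PowerSeries.C c * (1 - PowerSeries.X) ^ p +
      (1 - PowerSeries.X) ^ (p + 1) * (q : PowerSeries ℤ) := by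
    have h1 : (PowerSeries.mk 1 : PowerSeries ℤ) * (1 - PowerSeries.X) ^ (p + 1) = (1 - PowerSeries.X) ^ p := by
      rw [pow_succ, mul_comm ((1 - PowerSeries.X : PowerSeries ℤ) ^ p), ← mul_assoc,
        PowerSeries.mk_one_mul_one_sub_eq_one, one_mul]
    calc (A : PowerSeries ℤ) = (A : PowerSeries ℤ) * B * (1 - PowerSeries.X) ^ (p + 1) := by
          rw [mul_assoc, hB1, mul_one]
      _ = _ := by
          rw [key, add_mul, mul_assoc, h1, mul_comm (q : PowerSeries ℤ)]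
  have key3 : A = Polynomial.C c * (1 - Polynomial.X) ^ p + (1 - Polynomial.X) ^ (p + 1) * q := by
    apply Polynomial.coe_injective
    rw [key2]
    simp only [Polynomial.coe_add, Polynomial.coe_mul, Polynomial.coe_C, Polynomial.coe_pow,
      Polynomial.coe_sub, Polynomial.coe_one, Polynomial.coe_X]
  refine ⟨c + 2 * q.eval (-1), hc.add_even (even_two_mul _), ?_⟩
  have h2 : A.eval (-1) = ∑ i ∈ Finset.range (L + 1), (-1 : ℤ) ^ i * ∑ j, (-1 : ℤ) ^ deg i j := by
    rw [hA, Polynomial.eval_finsetSum]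
    refine Finset.sum_congr rfl fun i _ => ?_
    rw [Polynomial.eval_mul, Polynomial.eval_C, Polynomial.eval_finsetSum]
    simp
  rw [← h2, key3]
  simp only [Polynomial.eval_add, Polynomial.eval_mul, Polynomial.eval_C, Polynomial.eval_pow,
    Polynomial.eval_sub, Polynomial.eval_one, Polynomial.eval_X]
  norm_num
  ring

/-- Euler characteristic of a complex: `c_i` dimensions, `z_i` kernels, `b_i` images. -/
theorem eulerNum (n L : ℕ) (hn : 1 ≤ n) (hL : n < L) (c z b h : ℕ → ℤ) (h0 : c 0 = z 0)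
    (h1 : ∀ i < L, c (i + 1) = z (i + 1) + b i) (h2 : ∀ i, n ≤ i → i < L → z i = b i) (h3 : z L = 0)
    (h4 : ∀ i < n, z i = b i + h i) (h5 : Odd (h 0)) (h6 : ∀ i, 1 ≤ i → i < n → Even (h i)) :
    Odd (∑ i ∈ Finset.range n, (-1 : ℤ) ^ i * h i) ∧
      ∑ i ∈ Finset.range (L + 1), (-1 : ℤ) ^ i * c i = ∑ i ∈ Finset.range n, (-1 : ℤ) ^ i * h i := by
  have hodd : Odd (∑ i ∈ Finset.range n, (-1 : ℤ) ^ i * h i) := by
    obtain ⟨m, rfl⟩ : ∃ m, n = m + 1 := ⟨n - 1, by omega⟩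
    rw [Finset.sum_range_succ']
    have he : Even (∑ i ∈ Finset.range m, (-1 : ℤ) ^ (i + 1) * h (i + 1)) := by
      refine Finset.sum_induction _ Even (fun a b ha hb => ha.add hb) Even.zero fun i hi => ?_
      exact (h6 (i + 1) (by omega) (by have := Finset.mem_range.mp hi; omega)).mul_left _
    refine he.add_odd ?_
    simpa using h5
  refine ⟨hodd, ?_⟩
  have hs : ∀ M, M ≤ L → ∑ i ∈ Finset.range (M + 1), (-1 : ℤ) ^ i * c i =
      ∑ i ∈ Finset.range M, (-1 : ℤ) ^ i * (z i - b i) + (-1) ^ M * z M := by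
    intro M
    induction M with
    | zero => intro _; simp [h0]
    | succ M ih =>
      intro hM
      rw [Finset.sum_range_succ, ih (by omega), Finset.sum_range_succ, h1 M (by omega), pow_succ]
      ring
  rw [hs L le_rfl, h3, mul_zero, add_zero]
  obtain ⟨k, rfl⟩ : ∃ k, L = n + k := ⟨L - n, by omega⟩
  rw [Finset.sum_range_add]
  have hz : ∑ x ∈ Finset.range k, (-1 : ℤ) ^ (n + x) * (z (n + x) - b (n + x)) = 0 := by
    refine Finset.sum_eq_zero fun x hx => ?_
    rw [h2 (n + x) (by omega) (by have := Finset.mem_range.mp hx; omega), sub_self, mul_zero]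
  rw [hz, add_zero]
  refine Finset.sum_congr rfl fun i hi => ?_
  rw [h4 i (Finset.mem_range.mp hi), add_sub_cancel_left]

end Pool.Agent.Helper21.BPA
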