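import Pool.Agent.Helper21.BPA.GDefs

/-!
PROJECT BP, block A2, module Points: pointwise exactness of the restricted complex `Hm`.

Proofs. `eval x (psi g) = eval (inc x) g`, so `(Hm R i).map (eval x) = (R.H i).map (eval (inc x))`, and `inc x ≠ 0` if `x ≠ 0`. `pts` for `n ≤ i`: `X3`. For `i + 1 = n`:
`H_eq` gives `(R.H j).map (eval y) = evMat w (R.M j)`, `w = Sum.elim y (fun s => eval y (σ s))`, `y = inc x`, for `j = i, i + 1 ≤ n`
(`eval y (aeval (Sum.elim X σ) g) = aeval w g`); `aeval w F = 0` by `hσF`, some `pderiv (inr s) F` is not `0` at `w` by `hσd`; `X1C`.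
`pts_inj`: `X3i`. `s0_ex`: `hσd` at `y = inc (ξ as a complex point)`: `w` is the complexification of the real point `pt σ' ξ`
(`hσσ'`: `eval (inc ξ) (σ s) = eval ξ (map _ (σ' s))`, a real number), so the real number `eval (pt σ' ξ) (pderiv (inr s) F)` is not `0`.
-/

set_option autoImplicit false

namespace Pool.Agent.Helper21.BPA

open MvPolynomial Pool.Agent.Helper72.BP

private theorem ev_psi {p : ℕ} {κ : Type} (x : Fin (p + 1) → ℂ) (g : MvPolynomial (Ix p κ) ℂ) :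
    eval x (psi g) = eval (inc x : Ix p κ → ℂ) g := by
  have h : ((aeval x : MvPolynomial (Fin (p + 1)) ℂ →ₐ[ℂ] ℂ).comp (psi (p := p) (κ := κ))) =
      (aeval (inc x : Ix p κ → ℂ) : MvPolynomial (Ix p κ) ℂ →ₐ[ℂ] ℂ) := by
    apply MvPolynomial.algHom_ext
    intro i
    rcases i with i | i
    · simp [psi, inc]
    · simp [psi, inc]
  have h2 := DFunLike.congr_fun h g
  rw [AlgHom.comp_apply, aeval_eq_eval, aeval_eq_eval] at h2
  exact h2

private theorem inc_ne {p : ℕ} {κ : Type} {R : Type*} [CommRing R] {x : Fin (p + 1) → R} (hx : x ≠ 0) :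
    (inc x : Ix p κ → R) ≠ 0 := by
  intro h
  apply hx
  funext j
  exact congrFun h (Sum.inl j)

private theorem ev_sec {p : ℕ} {κ τ : Type} (σ : τ → MvPolynomial (Ix p κ) ℂ) (y : Ix p κ → ℂ)
    (g : MvPolynomial (Var (Ix p κ) τ) ℝ) :
    eval y (aeval (Sum.elim X σ : Var (Ix p κ) τ → MvPolynomial (Ix p κ) ℂ) g) =
      aeval (Sum.elim y (fun s => eval y (σ s)) : Var (Ix p κ) τ → ℂ) g := by
  have h : (((aeval y : MvPolynomial (Ix p κ) ℂ →ₐ[ℂ] ℂ).restrictScalars ℝ).comp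
      (aeval (Sum.elim X σ : Var (Ix p κ) τ → MvPolynomial (Ix p κ) ℂ) : MvPolynomial (Var (Ix p κ) τ) ℝ →ₐ[ℝ] _)) =
      (aeval (Sum.elim y (fun s => eval y (σ s)) : Var (Ix p κ) τ → ℂ) : MvPolynomial (Var (Ix p κ) τ) ℝ →ₐ[ℝ] ℂ) := by
    apply MvPolynomial.algHom_ext
    intro i
    rcases i with i | i
    · simp
    · simp [aeval_eq_eval]
  have h2 := DFunLike.congr_fun h g
  rw [AlgHom.comp_apply, AlgHom.restrictScalars_apply, aeval_eq_eval] at h2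
  exact h2

section

variable {p : ℕ} {κ τ : Type} [Fintype κ] [Fintype τ] {F : MvPolynomial (Var (Ix p κ) τ) ℝ}
  {J : Ideal (MvPolynomial (Var (Ix p κ) τ) ℝ)} {σ : τ → MvPolynomial (Ix p κ) ℂ}
  {σ' : τ → MvPolynomial (Fin (p + 1)) ℝ}

private theorem hm_map (R : Pre F J σ) (i : ℕ) (x : Fin (p + 1) → ℂ) :
    (Hm R i).map (eval x) = (R.H i).map (eval (inc x : Ix p κ → ℂ)) := by
  ext a b
  exact ev_psi x (R.H i a b)

private theorem map_ev (R : Pre F J σ) (i : ℕ) (hi : i ≤ R.n) (y : Ix p κ → ℂ) :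
    (R.H i).map (eval y) =
      evMat (Sum.elim y (fun s => eval y (σ s)) : Var (Ix p κ) τ → ℂ) (R.M i) := by
  ext a b
  show eval y (R.H i a b) = aeval (Sum.elim y (fun s => eval y (σ s)) : Var (Ix p κ) τ → ℂ) (R.M i a b)
  rw [R.H_eq i hi a b, ev_sec]

theorem pts (hσF : aeval (Sum.elim X σ : Var (Ix p κ) τ → MvPolynomial (Ix p κ) ℂ) F = 0)
    (hσd : ∀ y : Ix p κ → ℂ, y ≠ 0 →
      ∃ s, aeval (Sum.elim y (fun s => eval y (σ s)) : Var (Ix p κ) τ → ℂ) (pderiv (Sum.inr s) F) ≠ 0)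
    (R : Pre F J σ) (i : ℕ) (hi : R.n ≤ i + 1) (hi' : i + 1 < R.L) (x : Fin (p + 1) → ℂ) (hx : x ≠ 0) :
    Ex2 ((Hm R i).map (eval x)) ((Hm R (i + 1)).map (eval x)) := by
  rw [hm_map, hm_map]
  by_cases hn : R.n ≤ i
  · exact R.X3 (inc x) (inc_ne hx) i hn hi'
  · have hn1 : i + 1 = R.n := by omega
    have hF : aeval (Sum.elim (inc x : Ix p κ → ℂ) (fun s => eval (inc x : Ix p κ → ℂ) (σ s)) :
        Var (Ix p κ) τ → ℂ) F = 0 := by
      rw [← ev_sec, hσF, map_zero]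
    obtain ⟨s, hs⟩ := hσd (inc x) (inc_ne hx)
    have h := R.X1C _ hF ⟨Sum.inr s, hs⟩ i hn1
    rw [map_ev R i (by omega), map_ev R (i + 1) (by omega)]
    exact h

theorem pts_inj (R : Pre F J σ) (i : ℕ) (hi : i + 1 = R.L) (x : Fin (p + 1) → ℂ) (hx : x ≠ 0)
    (u : Fin (R.rk (i + 1)) → ℂ) (hu : ((Hm R i).map (eval x)).mulVec u = 0) : u = 0 := by
  rw [hm_map] at hu
  exact R.X3i (inc x) (inc_ne hx) i hi u hu

theorem s0_ex (hσσ' : ∀ s, aeval (inc X : Ix p κ → MvPolynomial (Fin (p + 1)) ℂ) (σ s) = map (algebraMap ℝ ℂ) (σ' s))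
    (hσd : ∀ y : Ix p κ → ℂ, y ≠ 0 →
      ∃ s, aeval (Sum.elim y (fun s => eval y (σ s)) : Var (Ix p κ) τ → ℂ) (pderiv (Sum.inr s) F) ≠ 0)
    (ξ : Fin (p + 1) → ℝ) (hξ : ξ ≠ 0) : ∃ s0, eval (pt σ' ξ) (pderiv (Sum.inr s0) F) ≠ 0 := by
  have hx : (fun j => algebraMap ℝ ℂ (ξ j)) ≠ 0 := by
    intro h
    apply hξ
    funext j
    have h1 := congrFun h j
    exact (algebraMap ℝ ℂ).injective (by rw [Pi.zero_apply] at h1; rw [h1, Pi.zero_apply, map_zero])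
  obtain ⟨s, hs⟩ := hσd (inc (fun j => algebraMap ℝ ℂ (ξ j))) (inc_ne hx)
  refine ⟨s, ?_⟩
  intro h0
  apply hs
  have hw : (Sum.elim (inc (fun j => algebraMap ℝ ℂ (ξ j)))
      (fun s => eval (inc (fun j => algebraMap ℝ ℂ (ξ j)) : Ix p κ → ℂ) (σ s)) : Var (Ix p κ) τ → ℂ) =
      fun v => algebraMap ℝ ℂ (pt (κ := κ) σ' ξ v) := by
    funext v
    rcases v with v | v
    · rcases v with v | v
      · rfl
      · exact (map_zero (algebraMap ℝ ℂ)).symm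
    · show eval (inc (fun j => algebraMap ℝ ℂ (ξ j)) : Ix p κ → ℂ) (σ v) = algebraMap ℝ ℂ (eval ξ (σ' v))
      rw [← ev_psi]
      have h3 : psi (σ v) = map (algebraMap ℝ ℂ) (σ' v) := hσσ' v
      rw [h3, eval_map]
      have h4 := eval₂_comp_left (algebraMap ℝ ℂ) (RingHom.id ℝ) ξ (σ' v)
      rw [eval₂_id] at h4
      rw [h4]
      rfl
  rw [hw]
  have h5 := aeval_algebraMap_apply ℂ (pt (κ := κ) σ' ξ) (pderiv (Sum.inr s) F)
  have h6 : aeval (pt (κ := κ) σ' ξ) (pderiv (Sum.inr s) F) = (0 : ℝ) := by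
    rw [aeval_eq_eval]
    exact h0
  rw [h6, map_zero] at h5
  exact h5

end

end Pool.Agent.Helper21.BPA
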