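import Pool.Agent.Helper21.BPA.GvB
import Pool.Agent.Helper21.BPA.SecIdeal

/-!
PROJECT BP, block A2, module Kill: the ideal `J' = phi(J)` kills the homology of the restricted complex; `J'` is homogeneous; zeros of `J'`.

Proofs. `phi σ'` is surjective (`phi_rename`), so `f ∈ J'` is `phi σ' h`, `h ∈ J` (`Ideal.mem_map_iff_of_surjective`). Note that `Ideal.map` is along
`(phi σ').toRingHom` (this is the ideal of `hK` in `pMain`; `phi` unfolds to `aeval ..`). `kill0`, `killS`: `M_htpy h`, apply `phi σ'` to the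
matrix equations (`phi σ' F = 0` kills `Ideal.span {F}`); multiply by `v`. `J_eq`: `M_J` and `hF`. `J_hom`: `f = phi σ' h`,
`h = ∑ weightedHomogeneousComponent wt d h` (finite sum), each piece in `J` by `hJ`, and `phi σ'` of the piece of weight `d` is homogeneous of degree `d` (`hσ'`),
so `homogeneousComponent d f = phi σ' (weightedHomogeneousComponent wt d h)`. `J_zero`: `eval_phi`; `IsZero` is stated with
`aeval (Sum.elim (inc x) ..)`; `aeval w f = eval w f` for real points.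
-/

set_option autoImplicit false

namespace Pool.Agent.Helper21.BPA

open MvPolynomial Pool.Agent.Helper72.BP

section

variable {p : ℕ} {κ τ : Type} [Fintype κ] [Fintype τ] {F : MvPolynomial (Var (Ix p κ) τ) ℝ}
  {J : Ideal (MvPolynomial (Var (Ix p κ) τ) ℝ)} {σ : τ → MvPolynomial (Ix p κ) ℂ}
  {σ' : τ → MvPolynomial (Fin (p + 1)) ℝ}

theorem J_mem (f : MvPolynomial (Fin (p + 1)) ℝ) (hf : f ∈ Ideal.map (phi (κ := κ) σ').toRingHom J) :
    ∃ h ∈ J, phi σ' h = f := by
  have hs : Function.Surjective (phi (κ := κ) σ').toRingHom := fun g => ⟨_, phi_rename (κ := κ) σ' g⟩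
  rw [Ideal.mem_map_iff_of_surjective _ hs] at hf
  exact hf

omit [Fintype κ] [Fintype τ] in
private theorem span_zero (hF : phi σ' F = 0) (g : MvPolynomial (Var (Ix p κ) τ) ℝ) (hg : g ∈ Ideal.span {F}) :
    phi σ' g = 0 := by
  rw [Ideal.mem_span_singleton] at hg
  obtain ⟨c, rfl⟩ := hg
  rw [map_mul, hF, zero_mul]

omit [Fintype κ] [Fintype τ] in
private theorem mat_id (hF : phi σ' F = 0) {n : ℕ} (h : MvPolynomial (Var (Ix p κ) τ) ℝ)
    (Y : Matrix (Fin n) (Fin n) (MvPolynomial (Var (Ix p κ) τ) ℝ))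
    (hY : ∀ a b, (h • (1 : Matrix (Fin n) (Fin n) (MvPolynomial (Var (Ix p κ) τ) ℝ)) - Y) a b ∈ Ideal.span {F}) :
    Y.map (phi σ') = phi σ' h • (1 : Matrix (Fin n) (Fin n) (MvPolynomial (Fin (p + 1)) ℝ)) := by
  ext1 a b
  have h1 := span_zero hF _ (hY a b)
  rw [Matrix.sub_apply, map_sub, Matrix.smul_apply, smul_eq_mul, map_mul, sub_eq_zero] at h1
  rw [Matrix.map_apply, ← h1, Matrix.smul_apply, smul_eq_mul]
  congr 1
  by_cases hab : a = b
  · subst hab
    simp
  · rw [Matrix.one_apply_ne hab, Matrix.one_apply_ne hab, map_zero]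

omit [Fintype κ] [Fintype τ] in
private theorem map_mul' {a b c : ℕ} (A : Matrix (Fin a) (Fin b) (MvPolynomial (Var (Ix p κ) τ) ℝ))
    (B : Matrix (Fin b) (Fin c) (MvPolynomial (Var (Ix p κ) τ) ℝ)) :
    (A * B).map (phi σ') = A.map (phi σ') * B.map (phi σ') := by
  ext1 i j
  rw [Matrix.map_apply, Matrix.mul_apply, Matrix.mul_apply, map_sum]
  refine Finset.sum_congr rfl fun x _ => ?_
  rw [map_mul, Matrix.map_apply, Matrix.map_apply]

theorem kill0 (hF : phi σ' F = 0) (R : Pre F J σ) (f : MvPolynomial (Fin (p + 1)) ℝ)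
    (hf : f ∈ Ideal.map (phi (κ := κ) σ').toRingHom J) (v : Fin (R.rk 0) → MvPolynomial (Fin (p + 1)) ℝ) :
    f • v ∈ imM (Gm R σ' 0) := by
  obtain ⟨h, hh, rfl⟩ := J_mem f hf
  obtain ⟨H, H0, -⟩ := R.M_htpy h hh
  have h1 := mat_id hF h _ H0
  rw [map_mul'] at h1
  rw [mem_imM]
  refine ⟨((H 0).map (phi σ')).mulVec v, ?_⟩
  have h2 : (Gm R σ' 0).mulVec (((H 0).map (phi σ')).mulVec v) =
      ((R.M 0).map (phi σ') * (H 0).map (phi σ')).mulVec v := by
    rw [Matrix.mulVec_mulVec]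
    rfl
  rw [h2, h1, Matrix.smul_mulVec, Matrix.one_mulVec]

theorem killS (hF : phi σ' F = 0) (R : Pre F J σ) (i : ℕ) (hi : i < R.n) (f : MvPolynomial (Fin (p + 1)) ℝ)
    (hf : f ∈ Ideal.map (phi (κ := κ) σ').toRingHom J) (v : Fin (R.rk (i + 1)) → MvPolynomial (Fin (p + 1)) ℝ)
    (hv : v ∈ kerM (Gm R σ' i)) : f • v ∈ imM (Gm R σ' (i + 1)) := by
  obtain ⟨h, hh, rfl⟩ := J_mem f hf
  obtain ⟨H, -, HS⟩ := R.M_htpy h hh
  have h1 := mat_id hF h _ (HS i hi)
  rw [mem_kerM] at hv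
  have h2 : (R.M (i + 1) * H (i + 1) + H i * R.M i).map (phi σ') =
      (R.M (i + 1)).map (phi σ') * (H (i + 1)).map (phi σ') + (H i).map (phi σ') * (R.M i).map (phi σ') := by
    rw [← map_mul', ← map_mul']
    ext1 a b
    rw [Matrix.map_apply, Matrix.add_apply, map_add, Matrix.add_apply, Matrix.map_apply, Matrix.map_apply]
  rw [h2] at h1
  rw [mem_imM]
  refine ⟨((H (i + 1)).map (phi σ')).mulVec v, ?_⟩
  have h3 : ((R.M (i + 1)).map (phi σ') * (H (i + 1)).map (phi σ') +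
      (H i).map (phi σ') * (R.M i).map (phi σ')).mulVec v =
      (Gm R σ' (i + 1)).mulVec (((H (i + 1)).map (phi σ')).mulVec v) := by
    rw [Matrix.add_mulVec, ← Matrix.mulVec_mulVec, ← Matrix.mulVec_mulVec]
    have h4 : ((R.M i).map (phi σ')).mulVec v = 0 := hv
    rw [h4, Matrix.mulVec_zero, add_zero]
    rfl
  rw [← h3, h1, Matrix.smul_mulVec, Matrix.one_mulVec]

/-- The image of `Gm 0` is `J'`. -/
theorem J_eq (hF : phi σ' F = 0) (R : Pre F J σ) (v : Fin (R.rk 0) → MvPolynomial (Fin (p + 1)) ℝ) :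
    v ∈ imM (Gm R σ' 0) ↔ ∀ j, v j ∈ Ideal.map (phi (κ := κ) σ').toRingHom J := by
  constructor
  · intro hv j
    rw [mem_imM] at hv
    obtain ⟨u, rfl⟩ := hv
    have h1 : (Gm R σ' 0).mulVec u j = ∑ b, phi σ' (R.M 0 j b) * u b := rfl
    rw [h1]
    refine Ideal.sum_mem _ fun b _ => Ideal.mul_mem_right _ _ ?_
    have h2 : R.M 0 j b ∈ J := by
      have h3 : R.M 0 j b ∈ Ideal.span (insert F {f | ∃ a b, f = R.M 0 a b}) :=
        Ideal.subset_span (Set.mem_insert_of_mem _ ⟨j, b, rfl⟩)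
      rw [← R.M_J] at h3
      exact h3
    exact Ideal.mem_map_of_mem (phi (κ := κ) σ').toRingHom h2
  · intro hv
    have h1 : 0 < R.rk 0 := by rw [R.rk0]; exact one_pos
    have h2 := kill0 hF R (v ⟨0, h1⟩) (hv _) (fun _ => 1)
    have h3 : v ⟨0, h1⟩ • (fun _ => 1 : Fin (R.rk 0) → MvPolynomial (Fin (p + 1)) ℝ) = v := by
      funext j
      have h4 : j = ⟨0, h1⟩ := by
        apply Fin.ext
        have h5 := j.isLt
        have h6 := R.rk0
        show (j : ℕ) = 0
        omega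
      rw [Pi.smul_apply, smul_eq_mul, mul_one, h4]
    rw [h3] at h2
    exact h2

omit [Fintype κ] [Fintype τ] in
private theorem phi_mon (hσ' : ∀ s, (σ' s).IsHomogeneous 2) (m : Var (Ix p κ) τ →₀ ℕ) (c : ℝ) :
    (phi σ' (monomial m c)).IsHomogeneous (Finsupp.weight (wt : Var (Ix p κ) τ → ℕ) m) := by
  unfold phi
  rw [aeval_monomial, Finsupp.weight_apply]
  have h1 : (algebraMap ℝ (MvPolynomial (Fin (p + 1)) ℝ) c).IsHomogeneous 0 := isHomogeneous_C _ c
  have h2 : (m.prod fun i k => (Sum.elim (inc X) σ' : Var (Ix p κ) τ → MvPolynomial (Fin (p + 1)) ℝ) i ^ k).IsHomogeneous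
      (m.sum fun i c => c • (wt : Var (Ix p κ) τ → ℕ) i) := by
    unfold Finsupp.prod Finsupp.sum
    refine IsHomogeneous.prod _ _ _ ?_
    intro i _
    have h3 : ((Sum.elim (inc X) σ' : Var (Ix p κ) τ → MvPolynomial (Fin (p + 1)) ℝ) i).IsHomogeneous
        ((wt : Var (Ix p κ) τ → ℕ) i) := by
      rcases i with (a | b) | t
      · exact isHomogeneous_X _ _
      · exact isHomogeneous_zero _ _ _
      · exact hσ' t
    have h4 := h3.pow (m i)
    have h5 : (wt : Var (Ix p κ) τ → ℕ) i * m i = m i • (wt : Var (Ix p κ) τ → ℕ) i := by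
      rw [smul_eq_mul, mul_comm]
    rw [h5] at h4
    exact h4
  have h3 := h1.mul h2
  rw [zero_add] at h3
  exact h3

omit [Fintype κ] [Fintype τ] in
private theorem hom_phi (hσ' : ∀ s, (σ' s).IsHomogeneous 2) (d : ℕ) (h : MvPolynomial (Var (Ix p κ) τ) ℝ) :
    homogeneousComponent d (phi σ' h) = phi σ' (weightedHomogeneousComponent (wt : Var (Ix p κ) τ → ℕ) d h) := by
  have key : ∀ (m : Var (Ix p κ) τ →₀ ℕ) (c : ℝ), homogeneousComponent d (phi σ' (monomial m c)) =
      phi σ' (weightedHomogeneousComponent (wt : Var (Ix p κ) τ → ℕ) d (monomial m c)) := by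
    intro m c
    have h1 := phi_mon hσ' m c
    by_cases hd : Finsupp.weight (wt : Var (Ix p κ) τ → ℕ) m = d
    · have h2 : IsWeightedHomogeneous (wt : Var (Ix p κ) τ → ℕ) (monomial m c) d :=
        isWeightedHomogeneous_monomial _ _ _ hd
      rw [weightedHomogeneousComponent_of_mem h2]
      rw [hd] at h1
      rw [homogeneousComponent_of_mem h1]
      simp
    · have h2 : IsWeightedHomogeneous (wt : Var (Ix p κ) τ → ℕ) (monomial m c)
          (Finsupp.weight (wt : Var (Ix p κ) τ → ℕ) m) := isWeightedHomogeneous_monomial _ _ _ rfl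
      rw [weightedHomogeneousComponent_of_mem h2, homogeneousComponent_of_mem h1]
      rw [if_neg (fun h => hd h.symm), if_neg (fun h => hd h.symm), map_zero]
  conv_lhs => rw [h.as_sum]
  conv_rhs => rw [h.as_sum]
  rw [map_sum, map_sum, map_sum, map_sum]
  exact Finset.sum_congr rfl fun m _ => key m _

theorem J_hom (hσ' : ∀ s, (σ' s).IsHomogeneous 2)
    (hJ : ∀ f ∈ J, ∀ d, weightedHomogeneousComponent (wt : Var (Ix p κ) τ → ℕ) d f ∈ J)
    (f : MvPolynomial (Fin (p + 1)) ℝ) (hf : f ∈ Ideal.map (phi (κ := κ) σ').toRingHom J) (d : ℕ) :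
    homogeneousComponent d f ∈ Ideal.map (phi (κ := κ) σ').toRingHom J := by
  obtain ⟨h, hh, rfl⟩ := J_mem f hf
  rw [hom_phi hσ']
  exact Ideal.mem_map_of_mem (phi (κ := κ) σ').toRingHom (hJ h hh d)

theorem J_zero (x : Fin (p + 1) → ℝ) :
    (∀ f ∈ Ideal.map (phi (κ := κ) σ').toRingHom J, eval x f = 0) ↔
      IsZero J (inc x : Ix p κ → ℝ) (fun s => eval x (σ' s)) := by
  have key : ∀ f : MvPolynomial (Var (Ix p κ) τ) ℝ,
      aeval (Sum.elim (inc x : Ix p κ → ℝ) (fun s => eval x (σ' s)) : Var (Ix p κ) τ → ℝ) f = eval x (phi σ' f) := by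
    intro f
    rw [eval_phi]
    rfl
  constructor
  · intro h f hf
    rw [key]
    exact h _ (Ideal.mem_map_of_mem (phi (κ := κ) σ').toRingHom hf)
  · intro h f hf
    obtain ⟨g, hg, rfl⟩ := J_mem f hf
    rw [← key]
    exact h g hg

end

end Pool.Agent.Helper21.BPA
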