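import Pool.Agent.Helper21.BPA.GDefs

/-!
PROJECT BP, block A2, module Line: the ideal of the line of `ξ` is locally generated by `p` elements with independent differentials.

Proof. Choose `a0` with `ξ a0 ≠ 0`, `λ_k = C (ξ a0) * X (a0.succAbove k) - C (ξ (a0.succAbove k)) * X a0` for `k : Fin p`. (1) If `g` is homogeneous of
degree `e` with `g(ξ) = 0` then `g ∈ (λ)`: modulo `(λ)` `C (ξ a0) X_a ≡ C (ξ a) X_a0` for all `a`, so `C (ξ a0)^e g ≡ C (g(ξ)) X_a0^e = 0` (for monomials, then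
linearity), and `ξ a0` is invertible. So every `g` all of whose homogeneous components vanish at `ξ` is in `(λ)`. (2) So `g_j = ∑_k A_jk λ_k`
(`Ideal.mem_span_range_iff_exists_fun`). As `λ_k(ξ) = 0`: `∂g_j/∂x_a (ξ) = ∑_k A_jk(ξ) ∂λ_k/∂x_a (ξ)`; if `det A(ξ) = 0` there is `β ≠ 0` with
`∑_j β_j A_jk(ξ) = 0` for all `k`, so `∑_j β_j dg_j(ξ) = 0`, contradiction to `hind`. (3) `δ = det A`, `adj(A) g = δ λ`, so `δ λ_k ∈ (g_j)`.
-/

set_option autoImplicit false

namespace Pool.Agent.Helper21.BPA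

open MvPolynomial Pool.Agent.Helper72.BP

private lemma scaling {σ R : Type*} [Fintype σ] [CommRing R] [Algebra ℝ R] (t : R) (y : σ → R) {g : MvPolynomial σ ℝ}
    {e : ℕ} (hg : g.IsHomogeneous e) : aeval (fun a => t * y a) g = t ^ e * aeval y g := by
  rw [aeval_def, aeval_def, eval₂_eq', eval₂_eq', Finset.mul_sum]
  refine Finset.sum_congr rfl fun d hd => ?_
  have h1 : ∑ i, d i = e := by
    rw [hg.degree_eq_sum_deg_support hd]
    refine (Finset.sum_subset (Finset.subset_univ _) fun i _ hi => ?_).symm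
    exact Finsupp.notMem_support_iff.mp hi
  have h2 : ∏ i, (t * y i) ^ d i = t ^ e * ∏ i, y i ^ d i := by
    simp_rw [mul_pow]
    rw [Finset.prod_mul_distrib, Finset.prod_pow_eq_pow_sum, h1]
  rw [h2]; ring

/-- The linear forms of the line. -/
private noncomputable def lam {p : ℕ} (ξ : Fin (p + 1) → ℝ) (a0 : Fin (p + 1)) (k : Fin p) :
    MvPolynomial (Fin (p + 1)) ℝ :=
  C (ξ a0) * X (a0.succAbove k) - C (ξ (a0.succAbove k)) * X a0

private lemma eval_lam {p : ℕ} (ξ : Fin (p + 1) → ℝ) (a0 : Fin (p + 1)) (k : Fin p) :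
    eval ξ (lam ξ a0 k) = 0 := by
  unfold lam; simp; ring

private lemma mem_lam_hom {p : ℕ} (ξ : Fin (p + 1) → ℝ) (a0 : Fin (p + 1)) (h0 : ξ a0 ≠ 0)
    {g : MvPolynomial (Fin (p + 1)) ℝ} {e : ℕ} (hg : g.IsHomogeneous e) (hg0 : eval ξ g = 0) :
    g ∈ Ideal.span (Set.range (lam ξ a0)) := by
  set I := Ideal.span (Set.range (lam ξ a0)) with hI
  rw [← Ideal.Quotient.eq_zero_iff_mem]
  have hx : ∀ a, (Ideal.Quotient.mk I (X a)) = Ideal.Quotient.mk I (C (ξ a0)⁻¹ * X a0) *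
      algebraMap ℝ (MvPolynomial (Fin (p + 1)) ℝ ⧸ I) (ξ a) := by
    intro a
    have e1 : algebraMap ℝ (MvPolynomial (Fin (p + 1)) ℝ ⧸ I) (ξ a) = Ideal.Quotient.mk I (C (ξ a)) := rfl
    rw [e1, ← map_mul, Ideal.Quotient.eq]
    rcases Fin.eq_self_or_eq_succAbove a0 a with h | ⟨k, hk⟩
    · rw [h]
      have : (X a0 : MvPolynomial (Fin (p + 1)) ℝ) - C (ξ a0)⁻¹ * X a0 * C (ξ a0) = 0 := by
        have e2 : (C (ξ a0)⁻¹ * C (ξ a0) : MvPolynomial (Fin (p + 1)) ℝ) = 1 := by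
          rw [← C_mul, inv_mul_cancel₀ h0, C_1]
        linear_combination (-X a0 : MvPolynomial (Fin (p + 1)) ℝ) * e2
      rw [this]; exact I.zero_mem
    · rw [hk]
      have e2 : (C (ξ a0)⁻¹ * C (ξ a0) : MvPolynomial (Fin (p + 1)) ℝ) = 1 := by
        rw [← C_mul, inv_mul_cancel₀ h0, C_1]
      have : (X (a0.succAbove k) : MvPolynomial (Fin (p + 1)) ℝ) - C (ξ a0)⁻¹ * X a0 * C (ξ (a0.succAbove k)) =
          C (ξ a0)⁻¹ * lam ξ a0 k := by
        unfold lam
        linear_combination (-X (a0.succAbove k) : MvPolynomial (Fin (p + 1)) ℝ) * e2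
      rw [this]
      exact I.mul_mem_left _ (Ideal.subset_span ⟨k, rfl⟩)
  have h1 : Ideal.Quotient.mk I g = aeval (fun a => Ideal.Quotient.mk I (X a)) g := by
    have : (Ideal.Quotient.mkₐ ℝ I) = aeval (fun a => Ideal.Quotient.mk I (X a)) := by
      ext a; simp
    rw [← this]; rfl
  rw [h1, show (fun a => Ideal.Quotient.mk I (X a)) = fun a => Ideal.Quotient.mk I (C (ξ a0)⁻¹ * X a0) *
      algebraMap ℝ (MvPolynomial (Fin (p + 1)) ℝ ⧸ I) (ξ a) from funext hx, scaling _ _ hg]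
  have h2 : aeval (fun a => algebraMap ℝ (MvPolynomial (Fin (p + 1)) ℝ ⧸ I) (ξ a)) g =
      algebraMap ℝ (MvPolynomial (Fin (p + 1)) ℝ ⧸ I) (eval ξ g) := by
    exact MvPolynomial.aeval_algebraMap_apply _ ξ g
  rw [h2, hg0, map_zero, mul_zero]

private lemma mem_lam {p : ℕ} (ξ : Fin (p + 1) → ℝ) (a0 : Fin (p + 1)) (h0 : ξ a0 ≠ 0)
    {g : MvPolynomial (Fin (p + 1)) ℝ} (hg : ∀ d, eval ξ (homogeneousComponent d g) = 0) :
    g ∈ Ideal.span (Set.range (lam ξ a0)) := by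
  rw [← sum_homogeneousComponent g]
  exact Ideal.sum_mem _ fun d _ => mem_lam_hom ξ a0 h0 (homogeneousComponent_isHomogeneous d g) (hg d)

theorem line {p : ℕ} (ξ : Fin (p + 1) → ℝ) (hξ : ξ ≠ 0) (g : Fin p → MvPolynomial (Fin (p + 1)) ℝ)
    (hg : ∀ j d, eval ξ (homogeneousComponent d (g j)) = 0)
    (hind : LinearIndependent ℝ (fun j : Fin p => fun a : Fin (p + 1) => eval ξ (pderiv a (g j)))) :
    ∃ δ : MvPolynomial (Fin (p + 1)) ℝ, eval ξ δ ≠ 0 ∧
      ∀ h : MvPolynomial (Fin (p + 1)) ℝ, (∀ d, eval ξ (homogeneousComponent d h) = 0) →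
        δ * h ∈ Ideal.span (Set.range g) := by
  obtain ⟨a0, h0⟩ := Function.ne_iff.mp hξ
  have h0' : ξ a0 ≠ 0 := h0
  have h1 : ∀ j, ∃ c : Fin p → MvPolynomial (Fin (p + 1)) ℝ, ∑ k, c k * lam ξ a0 k = g j := fun j =>
    Ideal.mem_span_range_iff_exists_fun.mp (mem_lam ξ a0 h0' (hg j))
  choose A hA using h1
  let M : Matrix (Fin p) (Fin p) (MvPolynomial (Fin (p + 1)) ℝ) := fun j k => A j k
  have hMg : M.mulVec (lam ξ a0) = g := by
    funext j
    exact hA j
  have hder : ∀ j a, eval ξ (pderiv a (g j)) = ∑ k, eval ξ (A j k) * eval ξ (pderiv a (lam ξ a0 k)) := by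
    intro j a
    rw [← hA j, map_sum, map_sum]
    refine Finset.sum_congr rfl fun k _ => ?_
    rw [Derivation.leibniz]
    simp only [smul_eq_mul, map_add, map_mul, eval_lam]
    ring
  have hdet : eval ξ M.det ≠ 0 := by
    intro hd
    have hd' : (M.map (eval ξ)).det = 0 := by
      rw [← hd, RingHom.map_det]; rfl
    obtain ⟨β, hβ, hβ2⟩ := Matrix.exists_vecMul_eq_zero_iff.mpr hd'
    apply hβ
    have := Fintype.linearIndependent_iff.mp hind β (by
      funext a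
      simp only [Finset.sum_apply, Pi.smul_apply, smul_eq_mul, Pi.zero_apply]
      simp_rw [hder, Finset.mul_sum]
      rw [Finset.sum_comm]
      refine Finset.sum_eq_zero fun k _ => ?_
      have h3 : ∑ j, β j * eval ξ (A j k) = 0 := congrFun hβ2 k
      have h4 : ∑ j, β j * (eval ξ (A j k) * eval ξ (pderiv a (lam ξ a0 k))) =
          (∑ j, β j * eval ξ (A j k)) * eval ξ (pderiv a (lam ξ a0 k)) := by
        rw [Finset.sum_mul]
        exact Finset.sum_congr rfl fun j _ => by ring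
      rw [h4, h3, zero_mul])
    funext j
    exact this j
  refine ⟨M.det, hdet, fun h hh => ?_⟩
  have hlam : ∀ k, M.det * lam ξ a0 k ∈ Ideal.span (Set.range g) := by
    intro k
    have h5 : M.adjugate.mulVec g = M.det • lam ξ a0 := by
      rw [← hMg, Matrix.mulVec_mulVec, Matrix.adjugate_mul, Matrix.smul_mulVec, Matrix.one_mulVec]
    have h6 : M.det * lam ξ a0 k = ∑ j, M.adjugate k j * g j := by
      have := congrFun h5 k
      rw [Pi.smul_apply, smul_eq_mul] at this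
      rw [← this]; rfl
    rw [h6]
    exact Ideal.sum_mem _ fun j _ => Ideal.mul_mem_left _ _ (Ideal.subset_span ⟨j, rfl⟩)
  obtain ⟨c, hc⟩ := Ideal.mem_span_range_iff_exists_fun.mp (mem_lam ξ a0 h0' hh)
  rw [← hc, Finset.mul_sum]
  refine Ideal.sum_mem _ fun k _ => ?_
  rw [mul_left_comm]
  exact Ideal.mul_mem_left _ _ (hlam k)

end Pool.Agent.Helper21.BPA
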