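import Pool.Agent.Helper21.BPA.GvB

/-!
PROJECT BP, block A2, module Pull: the restricted complexes.

Proofs. `phiF`: the injective map `map (algebraMap ℝ ℂ)` sends `phi σ' F` to `psi (aeval (Sum.elim X σ) F) = 0`: private lemma `map_phi`:
`map (algebraMap ℝ ℂ) (phi σ' f) = psi (aeval (Sum.elim X σ) f)` for all `f` (`MvPolynomial.induction_on`; on the variables: `inc X`, `hσσ'`).
`Hm_eq`: `H_eq` and `map_phi`. `Gm_hom`: `M_wh`; `phi σ'` sends a monomial of weight `e` (weights `wt`) to a homogeneous polynomial of degree `e`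
(`hσ'`, `IsHomogeneous.mul`, `.pow`, `.prod`), and a polynomial with all monomials of weight `e` to a homogeneous polynomial of degree `e`;
use `wh_one_iff`. `Hm_hom`: the same with `psi` (variables go to variables or `0`). `Gm_comp`: `M_comp`, `phi σ' F = 0`; `Hm_comp`: `H_comp`.
-/

set_option autoImplicit false

namespace Pool.Agent.Helper21.BPA

open MvPolynomial Pool.Agent.Helper72.BP


private theorem wh_aeval {k : Type} [Field k] {ι : Type} {s : ℕ} (w : ι → ℕ) (v : ι → MvPolynomial (Fin s) k)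
    (hv : ∀ i, (v i).IsHomogeneous (w i)) (e d : ℕ) (f : MvPolynomial ι k) (hf : WH w e d f) :
    WH (fun _ => 1) e d (aeval v f) := by
  intro x hx
  rw [aeval_def, eval₂_eq, coeff_sum] at hx
  obtain ⟨m, hm, hm0⟩ := Finset.exists_ne_zero_of_sum_ne_zero hx
  have h1 : coeff m f ≠ 0 := mem_support_iff.1 hm
  have h2 : (∏ i ∈ m.support, v i ^ m i).IsHomogeneous (∑ i ∈ m.support, w i * m i) :=
    IsHomogeneous.prod _ _ _ fun i _ => (hv i).pow (m i)
  rw [algebraMap_eq, coeff_C_mul] at hm0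
  have h3 : coeff x (∏ i ∈ m.support, v i ^ m i) ≠ 0 := right_ne_zero_of_mul hm0
  have h4 : Finsupp.weight (fun _ : Fin s => 1) x = ∑ i ∈ m.support, w i * m i := h2 h3
  have h5 := hf m h1
  rw [Finsupp.weight_apply, Finsupp.sum] at h5
  rw [h4, ← h5]
  congr 1
  exact Finset.sum_congr rfl fun i _ => by rw [smul_eq_mul, mul_comm]

section

variable {p : ℕ} {κ τ : Type} [Fintype κ] [Fintype τ] {F : MvPolynomial (Var (Ix p κ) τ) ℝ}
  {J : Ideal (MvPolynomial (Var (Ix p κ) τ) ℝ)} {σ : τ → MvPolynomial (Ix p κ) ℂ}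
  {σ' : τ → MvPolynomial (Fin (p + 1)) ℝ}

theorem map_phi (hσσ' : ∀ s, aeval (inc X : Ix p κ → MvPolynomial (Fin (p + 1)) ℂ) (σ s) = map (algebraMap ℝ ℂ) (σ' s))
    (f : MvPolynomial (Var (Ix p κ) τ) ℝ) :
    map (algebraMap ℝ ℂ) (phi σ' f) =
      psi (aeval (Sum.elim X σ : Var (Ix p κ) τ → MvPolynomial (Ix p κ) ℂ) f) := by
  induction f using MvPolynomial.induction_on with
  | C a =>
    have h1 : (phi σ' (C a : MvPolynomial (Var (Ix p κ) τ) ℝ)) = C a := by
      rw [phi, aeval_C, algebraMap_eq]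
    have h2 : aeval (Sum.elim X σ : Var (Ix p κ) τ → MvPolynomial (Ix p κ) ℂ) (C a) = C (algebraMap ℝ ℂ a) := by
      rw [aeval_C]
      rfl
    rw [h1, h2, map_C, psi, aeval_C]
    rfl
  | add f g hf hg => rw [map_add, map_add, map_add, map_add, hf, hg]
  | mul_X f x hf =>
    rw [map_mul, map_mul, map_mul, map_mul, hf]
    congr 1
    rw [phi, aeval_X, aeval_X]
    rcases x with x | x
    · rw [Sum.elim_inl, Sum.elim_inl, psi, aeval_X]
      rcases x with i | i
      · change map (algebraMap ℝ ℂ) (X i) = X i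
        rw [map_X]
      · change map (algebraMap ℝ ℂ) 0 = 0
        rw [map_zero]
    · rw [Sum.elim_inr, Sum.elim_inr, psi, hσσ']

theorem phiF (hσσ' : ∀ s, aeval (inc X : Ix p κ → MvPolynomial (Fin (p + 1)) ℂ) (σ s) = map (algebraMap ℝ ℂ) (σ' s))
    (hσF : aeval (Sum.elim X σ : Var (Ix p κ) τ → MvPolynomial (Ix p κ) ℂ) F = 0) : phi σ' F = 0 := by
  apply map_injective (algebraMap ℝ ℂ) (algebraMap ℝ ℂ).injective
  rw [map_phi hσσ', hσF, map_zero, map_zero]

theorem Hm_eq (hσσ' : ∀ s, aeval (inc X : Ix p κ → MvPolynomial (Fin (p + 1)) ℂ) (σ s) = map (algebraMap ℝ ℂ) (σ' s))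
    (R : Pre F J σ) (i : ℕ) (hi : i ≤ R.n) : Hm R i = (Gm R σ' i).map (map (algebraMap ℝ ℂ)) := by
  ext1 a b
  rw [Hm, Gm, Matrix.map_apply, Matrix.map_apply, Matrix.map_apply, map_phi hσσ', R.H_eq i hi]

theorem Gm_hom (hσ' : ∀ s, (σ' s).IsHomogeneous 2) (R : Pre F J σ) (i : ℕ) (hi : i ≤ R.n) :
    HM (R.deg i) (R.deg (i + 1)) (Gm R σ' i) := by
  intro a b
  rw [Gm, Matrix.map_apply, phi]
  refine wh_aeval wt _ ?_ _ _ _ (R.M_wh i hi a b)
  intro x
  rcases x with x | x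
  · rcases x with j | j
    · exact isHomogeneous_X _ _
    · exact isHomogeneous_zero _ _ _
  · exact hσ' x

theorem Hm_hom (R : Pre F J σ) (i : ℕ) (hi : i < R.L) : HM (R.deg i) (R.deg (i + 1)) (Hm R i) := by
  intro a b
  rw [Hm, Matrix.map_apply, psi]
  refine wh_aeval (fun _ => 1) _ ?_ _ _ _ (R.H_wh i hi a b)
  intro x
  rcases x with j | j
  · exact isHomogeneous_X _ _
  · exact isHomogeneous_zero _ _ _

theorem Gm_comp (hF : phi σ' F = 0) (R : Pre F J σ) (i : ℕ) (hi : i < R.n) : Gm R σ' i * Gm R σ' (i + 1) = 0 := by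
  have h1 : Gm R σ' i * Gm R σ' (i + 1) = (R.M i * R.M (i + 1)).map (phi σ') := by
    rw [Gm, Gm, Matrix.map_mul]
  rw [h1]
  ext1 a b
  rw [Matrix.map_apply, Matrix.zero_apply]
  obtain ⟨c, hc⟩ := Ideal.mem_span_singleton'.1 (R.M_comp i hi a b)
  rw [← hc, map_mul, hF, mul_zero]

theorem Hm_comp (R : Pre F J σ) (i : ℕ) (hi : i + 1 < R.L) : Hm R i * Hm R (i + 1) = 0 := by
  have h1 : Hm R i * Hm R (i + 1) = (R.H i * R.H (i + 1)).map psi := by
    rw [Hm, Hm, Matrix.map_mul]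
  rw [h1, R.H_comp i hi]
  ext1 a b
  rw [Matrix.map_apply, Matrix.zero_apply, Matrix.zero_apply, map_zero]

end

end Pool.Agent.Helper21.BPA
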