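import Pool.Agent.Helper21.BPA.Par2
import Pool.Agent.Helper21.BPA.Line
import Pool.Agent.Helper21.BPA.Pull
import Pool.Agent.Helper21.BPA.Kill

/-!
PROJECT BP, block A2, module SpotPar: the homology of the restricted real complex has eventually constant dimension, odd at the spot `0`, even at the spots
`1, .., n - 1`.

Proofs. `spotS`: `par2` with `Z = kerM (Gm i)`, `B = imM (Gm (i+1))`, `I = J'` (`gr_ker`, `gr_im`, `Gm_hom`, `Gm_comp`, `killS`, `J_zero`, `hloc'`).
`spot0`: `b = rk 0 = 1`, `B = imM (Gm 0)`, `Z` = the submodule of all `v` such that all homogeneous components of all `v j` vanish at `ξ` (graded; it contains `B`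
by `J_eq`, `J_hom` and `hξJ`); `kill0`; local vanishing: `line` with `g j = phi σ' (f j)` (in `J'`; components vanish by `J_hom`, `J_zero`, `hξJ`), and `J_eq`.
So `gd Z dg d = gd B dg d + N`, `N` even. And `finrank (gv dg d) = gd Z dg d + 1` for all `d`: `Z ∩ gv dg d` is the kernel of the linear form
`v ↦ eval ξ (v j0)` on `gv dg d` (`j0` the only index, `dg j0 = 0` by `R.deg0`, `v j0` is homogeneous of degree `d`), which is not `0`: `X a0 ^ d`, `ξ a0 ≠ 0`.
-/

set_option autoImplicit false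

namespace Pool.Agent.Helper21.BPA

open MvPolynomial Pool.Agent.Helper72.BP

/-- Restriction to the line of `ξ`. -/
private noncomputable def lin {s : ℕ} (ξ : Fin s → ℝ) : MvPolynomial (Fin s) ℝ →ₐ[ℝ] Polynomial ℝ :=
  aeval (fun a => Polynomial.C (ξ a) * Polynomial.X)

private theorem coeff_lin {s : ℕ} (ξ : Fin s → ℝ) (g : MvPolynomial (Fin s) ℝ) (d : ℕ) :
    (lin ξ g).coeff d = eval ξ (homogeneousComponent d g) := by
  induction g using MvPolynomial.induction_on' with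
  | monomial m r =>
    have h1 : lin ξ (monomial m r) =
        Polynomial.C (r * m.prod fun a k => ξ a ^ k) * Polynomial.X ^ m.degree := by
      unfold lin
      rw [aeval_monomial, Polynomial.C_mul, mul_assoc]
      congr 1
      rw [Finsupp.prod, Finsupp.prod, map_prod, Finsupp.degree_apply, ← Finset.prod_pow_eq_pow_sum,
        ← Finset.prod_mul_distrib]
      refine Finset.prod_congr rfl fun a _ => ?_
      rw [mul_pow, map_pow]
    rw [h1, homogeneousComponent_of_mem (isHomogeneous_monomial r (rfl : m.degree = m.degree)),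
      Polynomial.coeff_C_mul_X_pow]
    split_ifs with h
    · rw [eval_monomial]
    · rw [map_zero]
  | add p q hp hq => rw [map_add, Polynomial.coeff_add, hp, hq, map_add, map_add]

/-- The vectors all of whose components vanish on the line of `ξ`. -/
private noncomputable def ZZ {s b : ℕ} (ξ : Fin s → ℝ) :
    Submodule (MvPolynomial (Fin s) ℝ) (Fin b → MvPolynomial (Fin s) ℝ) where
  carrier := {v | ∀ j, lin ξ (v j) = 0}
  add_mem' := by
    intro u v hu hv j
    rw [Pi.add_apply, map_add, hu j, hv j, add_zero]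
  zero_mem' := by
    intro j
    rw [Pi.zero_apply, map_zero]
  smul_mem' := by
    intro c u hu j
    rw [Pi.smul_apply, smul_eq_mul, map_mul, hu j, mul_zero]

private theorem lin_zero_iff {s : ℕ} (ξ : Fin s → ℝ) (g : MvPolynomial (Fin s) ℝ) :
    lin ξ g = 0 ↔ ∀ d, eval ξ (homogeneousComponent d g) = 0 := by
  constructor
  · intro h d
    rw [← coeff_lin, h, Polynomial.coeff_zero]
  · intro h
    ext d
    rw [coeff_lin, h d, Polynomial.coeff_zero]

private theorem mem_ZZ {s b : ℕ} (ξ : Fin s → ℝ) (v : Fin b → MvPolynomial (Fin s) ℝ) :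
    v ∈ (ZZ ξ : Submodule (MvPolynomial (Fin s) ℝ) (Fin b → MvPolynomial (Fin s) ℝ)) ↔
      ∀ j d, eval ξ (homogeneousComponent d (v j)) = 0 := by
  constructor
  · intro h j
    exact (lin_zero_iff ξ (v j)).1 (h j)
  · intro h j
    exact (lin_zero_iff ξ (v j)).2 (h j)

private theorem hc_hc {s : ℕ} (g : MvPolynomial (Fin s) ℝ) (d e : ℕ) :
    homogeneousComponent d (homogeneousComponent e g) = if d = e then homogeneousComponent e g else 0 :=
  homogeneousComponent_of_mem (homogeneousComponent_isHomogeneous e g)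

private theorem gr_ZZ {s b : ℕ} (dg : Fin b → ℕ) (ξ : Fin s → ℝ) :
    Gr dg (ZZ ξ : Submodule (MvPolynomial (Fin s) ℝ) (Fin b → MvPolynomial (Fin s) ℝ)) := by
  intro v hv d
  rw [mem_ZZ] at hv ⊢
  intro j e
  unfold cmp
  rw [LinearMap.pi_apply]
  by_cases h : dg j ≤ d
  · rw [if_pos h, LinearMap.comp_apply, LinearMap.proj_apply, hc_hc]
    split_ifs with h2
    · exact hv j _
    · rw [map_zero]
  · rw [if_neg h, LinearMap.zero_apply, map_zero, map_zero]

section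

variable {p : ℕ} {κ τ : Type} [Fintype κ] [Fintype τ] {F : MvPolynomial (Var (Ix p κ) τ) ℝ}
  {J : Ideal (MvPolynomial (Var (Ix p κ) τ) ℝ)} {σ : τ → MvPolynomial (Ix p κ) ℂ}
  {σ' : τ → MvPolynomial (Fin (p + 1)) ℝ}

theorem spotS (hJ : ∀ f ∈ J, ∀ d, weightedHomogeneousComponent (wt : Var (Ix p κ) τ → ℕ) d f ∈ J)
    (hF : phi σ' F = 0) (hσ' : ∀ s, (σ' s).IsHomogeneous 2) (c : Fin (p + 1) → ℝ) (K : ℕ)
    (hK : ∀ a, (X a : MvPolynomial (Fin (p + 1)) ℝ) ^ K ∈
      Ideal.map (phi (κ := κ) σ').toRingHom J ⊔ Ideal.span {∑ a, C (c a) * X a})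
    (ξ : Fin (p + 1) → ℝ)
    (huniq : ∀ x : Fin (p + 1) → ℝ, IsZero J (inc x : Ix p κ → ℝ) (fun s => eval x (σ' s)) → ∃ c : ℝ, x = c • ξ)
    (R : Pre F J σ) (i : ℕ) (hi : i < R.n)
    (hloc' : ∀ v, (Gm R σ' i).mulVec v = 0 →
      ∃ δ : MvPolynomial (Fin (p + 1)) ℝ, eval ξ δ ≠ 0 ∧ δ • v ∈ imM (Gm R σ' (i + 1))) :
    ∃ N, Even N ∧ ∃ d1, ∀ d ≥ d1,
      gd (kerM (Gm R σ' i)) (R.deg (i + 1)) d = gd (imM (Gm R σ' (i + 1))) (R.deg (i + 1)) d + N := by
  refine par2 (R.deg (i + 1)) (kerM (Gm R σ' i)) (imM (Gm R σ' (i + 1)))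
    (gr_ker _ _ _ (Gm_hom hσ' R i hi.le)) (gr_im _ _ _ (Gm_hom hσ' R (i + 1) hi)) ?_
    (Ideal.map (phi (κ := κ) σ').toRingHom J) (fun f hf v hv => killS hF R i hi f hf v hv)
    c K hK ξ (fun x hx => huniq x ((J_zero x).1 hx)) (fun v hv => hloc' v ((mem_kerM _ _).1 hv))
  intro v hv
  rw [mem_imM] at hv
  obtain ⟨u, rfl⟩ := hv
  rw [mem_kerM, Matrix.mulVec_mulVec, Gm_comp hF R i hi, Matrix.zero_mulVec]

theorem spot0 (hJ : ∀ f ∈ J, ∀ d, weightedHomogeneousComponent (wt : Var (Ix p κ) τ → ℕ) d f ∈ J)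
    (hF : phi σ' F = 0) (hσ' : ∀ s, (σ' s).IsHomogeneous 2) (c : Fin (p + 1) → ℝ) (K : ℕ)
    (hK : ∀ a, (X a : MvPolynomial (Fin (p + 1)) ℝ) ^ K ∈
      Ideal.map (phi (κ := κ) σ').toRingHom J ⊔ Ideal.span {∑ a, C (c a) * X a})
    (ξ : Fin (p + 1) → ℝ) (hξ : ξ ≠ 0) (hξJ : IsZero J (inc ξ : Ix p κ → ℝ) (fun s => eval ξ (σ' s)))
    (huniq : ∀ x : Fin (p + 1) → ℝ, IsZero J (inc x : Ix p κ → ℝ) (fun s => eval x (σ' s)) → ∃ c : ℝ, x = c • ξ)
    (f : Fin p → MvPolynomial (Var (Ix p κ) τ) ℝ) (hf : ∀ j, f j ∈ J)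
    (hind : LinearIndependent ℝ (fun j : Fin p => fun a : Fin (p + 1) => eval ξ (pderiv a (phi σ' (f j)))))
    (R : Pre F J σ) :
    ∃ N, Odd N ∧ ∃ d1, ∀ d ≥ d1,
      Module.finrank ℝ ↥(gv (R.deg 0) d : Submodule ℝ (Fin (R.rk 0) → MvPolynomial (Fin (p + 1)) ℝ)) =
        gd (imM (Gm R σ' 0)) (R.deg 0) d + N := by
  have hJξ : ∀ g ∈ Ideal.map (phi (κ := κ) σ').toRingHom J, ∀ d, eval ξ (homogeneousComponent d g) = 0 := by
    intro g hg d
    exact (J_zero ξ).2 hξJ _ (J_hom hσ' hJ g hg d)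
  have hfJ : ∀ j, phi σ' (f j) ∈ Ideal.map (phi (κ := κ) σ').toRingHom J := fun j =>
    Ideal.mem_map_of_mem (phi (κ := κ) σ').toRingHom (hf j)
  obtain ⟨δ, hδ, hδ'⟩ := line ξ hξ (fun j => phi σ' (f j)) (fun j d => hJξ _ (hfJ j) d) hind
  have hspan : Ideal.span (Set.range fun j => phi σ' (f j)) ≤ Ideal.map (phi (κ := κ) σ').toRingHom J := by
    rw [Ideal.span_le]
    rintro _ ⟨j, rfl⟩
    exact hfJ j
  obtain ⟨N, hN, d1, hd1⟩ := par2 (R.deg 0) (ZZ ξ) (imM (Gm R σ' 0)) (gr_ZZ _ _)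
    (gr_im _ _ _ (Gm_hom hσ' R 0 (Nat.zero_le _)))
    (by
      intro v hv
      rw [mem_ZZ]
      intro j
      exact hJξ _ ((J_eq hF R v).1 hv j))
    (Ideal.map (phi (κ := κ) σ').toRingHom J) (fun f hf v _ => kill0 hF R f hf v)
    c K hK ξ (fun x hx => huniq x ((J_zero x).1 hx))
    (fun v hv => ⟨δ, hδ, (J_eq hF R (δ • v)).2 fun j => hspan (hδ' (v j) ((mem_ZZ ξ v).1 hv j))⟩)
  refine ⟨N + 1, hN.add_one, d1, fun d hd => ?_⟩
  rw [← add_assoc, ← hd1 d hd]
  obtain ⟨j0, hj0⟩ : ∃ j0 : Fin (R.rk 0), ∀ j, j = j0 := by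
    refine ⟨⟨0, by rw [R.rk0]; exact one_pos⟩, fun j => ?_⟩
    apply Fin.ext
    have h := j.2
    have h2 := R.rk0
    show (j : ℕ) = 0
    omega
  obtain ⟨a0, ha0⟩ : ∃ a, ξ a ≠ 0 := by
    by_contra h
    push Not at h
    exact hξ (funext h)
  have hfd := gv_finite (k := ℝ) (s := p + 1) (R.deg 0) d
  obtain ⟨φ, hφ⟩ : ∃ φ : ↥(gv (R.deg 0) d : Submodule ℝ (Fin (R.rk 0) → MvPolynomial (Fin (p + 1)) ℝ)) →ₗ[ℝ] ℝ,
      ∀ v, φ v = eval ξ ((v : Fin (R.rk 0) → MvPolynomial (Fin (p + 1)) ℝ) j0) :=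
    ⟨{ toFun := fun v => eval ξ ((v : Fin (R.rk 0) → MvPolynomial (Fin (p + 1)) ℝ) j0)
       map_add' := by
        intro u v
        rw [Submodule.coe_add, Pi.add_apply, map_add]
       map_smul' := by
        intro c u
        rw [Submodule.coe_smul, Pi.smul_apply, smul_eval, smul_eq_mul, RingHom.id_apply] }, fun _ => rfl⟩
  have hsurj : LinearMap.range φ = ⊤ := by
    rw [LinearMap.range_eq_top]
    apply LinearMap.surjective
    intro h0
    have h1 : (fun _ => X a0 ^ d : Fin (R.rk 0) → MvPolynomial (Fin (p + 1)) ℝ) ∈ gv (R.deg 0) d := by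
      intro j
      rw [R.deg0 j, wh_zero_iff]
      exact isHomogeneous_X_pow a0 d
    have h2 : φ ⟨_, h1⟩ = 0 := by
      rw [h0, LinearMap.zero_apply]
    rw [hφ] at h2
    have h3 : (ξ a0) ^ d = 0 := by
      rw [← h2]
      show _ = eval ξ (X a0 ^ d)
      rw [map_pow, eval_X]
    exact pow_ne_zero d ha0 h3
  have hker : (LinearMap.ker φ).map (Submodule.subtype _) =
      (ZZ ξ : Submodule (MvPolynomial (Fin (p + 1)) ℝ) (Fin (R.rk 0) → MvPolynomial (Fin (p + 1)) ℝ)).restrictScalars ℝ ⊓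
        gv (R.deg 0) d := by
    ext v
    have hkey : v ∈ (gv (R.deg 0) d : Submodule ℝ (Fin (R.rk 0) → MvPolynomial (Fin (p + 1)) ℝ)) →
        (v ∈ (ZZ ξ : Submodule (MvPolynomial (Fin (p + 1)) ℝ) (Fin (R.rk 0) → MvPolynomial (Fin (p + 1)) ℝ)) ↔
          eval ξ (v j0) = 0) := by
      intro hv
      have hh : (v j0).IsHomogeneous d := by
        have h := hv j0
        rw [R.deg0 j0, wh_zero_iff] at h
        exact h
      rw [mem_ZZ]
      constructor
      · intro h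
        have h2 := h j0 d
        rw [homogeneousComponent_of_mem hh, if_pos rfl] at h2
        exact h2
      · intro h j e
        rw [hj0 j, homogeneousComponent_of_mem hh]
        split_ifs
        · exact h
        · rw [map_zero]
    rw [Submodule.mem_map, Submodule.mem_inf, Submodule.restrictScalars_mem]
    constructor
    · rintro ⟨w, hw, rfl⟩
      rw [LinearMap.mem_ker, hφ] at hw
      exact ⟨(hkey w.2).2 hw, w.2⟩
    · rintro ⟨h1, h2⟩
      refine ⟨⟨v, h2⟩, ?_, rfl⟩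
      rw [LinearMap.mem_ker, hφ]
      exact (hkey h2).1 h1
  have hrn := LinearMap.finrank_range_add_finrank_ker φ
  rw [hsurj, finrank_top, Module.finrank_self] at hrn
  unfold gd
  rw [← hker, ← hrn, add_comm 1]
  congr 1
  exact LinearEquiv.finrank_eq (Submodule.equivMapOfInjective _ (Submodule.injective_subtype _) _)

end

end Pool.Agent.Helper21.BPA
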