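import Pool.Agent.Helper21.BPA.LargeExact
import Pool.Agent.Helper21.BPA.LocExact
import Pool.Agent.Helper21.BPA.SpotPar
import Pool.Agent.Helper21.BPA.Points
import Pool.Agent.Helper21.BPA.BaseChange
import Pool.Agent.Helper21.BPA.Numbers

/-!
PROJECT BP, block A, second half: the number `a(-1)` (owner helper21).

Proof. In large degrees `d` the restricted complex complex `Hm` is exact at the spots `n, .., L` (`largeExact`, `pts`, `pts_inj`), so its Euler characteristic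
`∑_(i ≤ L) (-1)^i dim gv (deg i) d` is the alternating sum of the dimensions of the homology at the spots `0, .., n - 1`, where
`Hm = Gm ⊗ C`; these are eventually constant, odd at the spot `0` and even at the spots `1, .., n - 1` (`spot0`, `spotS`, `locExact`).
Then `numbers`.
-/

set_option autoImplicit false

namespace Pool.Agent.Helper21.BPA

open MvPolynomial Pool.Agent.Helper72.BP

/-- A common bound. -/
private theorem common (L : ℕ) (P : ℕ → ℕ → Prop) (h : ∀ i < L, ∃ d0, ∀ d ≥ d0, P i d) :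
    ∃ d0, ∀ i < L, ∀ d ≥ d0, P i d := by
  induction L with
  | zero => exact ⟨0, fun i hi => absurd hi (Nat.not_lt_zero i)⟩
  | succ L ih =>
    obtain ⟨d1, h1⟩ := ih (fun i hi => h i (by omega))
    obtain ⟨d2, h2⟩ := h L (by omega)
    refine ⟨max d1 d2, fun i hi d hd => ?_⟩
    by_cases hi' : i < L
    · exact h1 i hi' d (le_trans (le_max_left _ _) hd)
    · have : i = L := by omega
      subst this
      exact h2 d (le_trans (le_max_right _ _) hd)

/-- BLOCK A, second half. -/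
theorem pMain {p : ℕ} {κ τ : Type} [Fintype κ] [DecidableEq κ] [Fintype τ] [DecidableEq τ]
    (F : MvPolynomial (Var (Ix p κ) τ) ℝ) (J : Ideal (MvPolynomial (Var (Ix p κ) τ) ℝ))
    (hJ : ∀ f ∈ J, ∀ d, weightedHomogeneousComponent (wt : Var (Ix p κ) τ → ℕ) d f ∈ J)
    (σ : τ → MvPolynomial (Ix p κ) ℂ)
    (hσF : aeval (Sum.elim X σ : Var (Ix p κ) τ → MvPolynomial (Ix p κ) ℂ) F = 0)
    (hσd : ∀ y : Ix p κ → ℂ, y ≠ 0 →
      ∃ s, aeval (Sum.elim y (fun s => eval y (σ s)) : Var (Ix p κ) τ → ℂ) (pderiv (Sum.inr s) F) ≠ 0)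
    (σ' : τ → MvPolynomial (Fin (p + 1)) ℝ) (hσ' : ∀ s, (σ' s).IsHomogeneous 2)
    (hσσ' : ∀ s, aeval (inc X : Ix p κ → MvPolynomial (Fin (p + 1)) ℂ) (σ s) = map (algebraMap ℝ ℂ) (σ' s))
    (c : Fin (p + 1) → ℝ) (K : ℕ)
    (hK : ∀ a, (X a : MvPolynomial (Fin (p + 1)) ℝ) ^ K ∈
      Ideal.map (aeval (Sum.elim (inc X) σ' : Var (Ix p κ) τ → MvPolynomial (Fin (p + 1)) ℝ)).toRingHom J ⊔
        Ideal.span {∑ a, C (c a) * X a})
    (ξ : Fin (p + 1) → ℝ) (hξ : ξ ≠ 0) (hξJ : IsZero J (inc ξ) (fun s => eval ξ (σ' s)))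
    (huniq : ∀ x : Fin (p + 1) → ℝ, IsZero J (inc x) (fun s => eval x (σ' s)) → ∃ c : ℝ, x = c • ξ)
    (f : Fin p → MvPolynomial (Var (Ix p κ) τ) ℝ) (hf : ∀ j, f j ∈ J)
    (hloc : ∀ h ∈ J, ∃ δ : MvPolynomial (Var (Ix p κ) τ) ℝ,
      aeval (Sum.elim (inc ξ) (fun s => eval ξ (σ' s)) : Var (Ix p κ) τ → ℝ) δ ≠ 0 ∧
        δ * h ∈ Ideal.span (insert F (Set.range f)))
    (hind : LinearIndependent ℝ (fun j : Fin p => fun a : Fin (p + 1) =>
      eval ξ (pderiv a (aeval (Sum.elim (inc X) σ' : Var (Ix p κ) τ → MvPolynomial (Fin (p + 1)) ℝ) (f j)))))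
    (R : Pre F J σ) :
    ∃ c : ℤ, Odd c ∧ ∑ i ∈ Finset.range (R.L + 1), (-1 : ℤ) ^ i * ∑ j, (-1 : ℤ) ^ R.deg i j = 2 ^ p * c := by
  classical
  have hF : phi σ' F = 0 := phiF hσσ' hσF
  obtain ⟨s0, h0⟩ := s0_ex (F := F) hσσ' hσd ξ hξ
  have hf0 : ∀ j, eval (pt σ' ξ) (f j) = 0 := fun j => by
    have := hξJ (f j) (hf j)
    rwa [MvPolynomial.aeval_eq_eval] at this
  have hloc2 : ∀ h ∈ J, ∃ δ : MvPolynomial (Var (Ix p κ) τ) ℝ,
      eval (pt σ' ξ) δ ≠ 0 ∧ δ * h ∈ Ideal.span (insert F (Set.range f)) := fun h hh => by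
    obtain ⟨δ, h1, h2⟩ := hloc h hh
    refine ⟨δ, ?_, h2⟩
    rwa [MvPolynomial.aeval_eq_eval] at h1
  have hle := locExact F J σ σ' hF ξ s0 h0 f hf hf0 hloc2 hind R
  -- the spots
  obtain ⟨N0, hN0, e0, he0⟩ := spot0 hJ hF hσ' c K hK ξ hξ hξJ huniq f hf hind R
  have hS : ∀ i < R.n, ∃ N, Even N ∧ ∃ d1, ∀ d ≥ d1,
      gd (kerM (Gm R σ' i)) (R.deg (i + 1)) d = gd (imM (Gm R σ' (i + 1))) (R.deg (i + 1)) d + N :=
    fun i hi => spotS hJ hF hσ' c K hK ξ huniq R i hi (hle i hi)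
  have hS' : ∃ N : ℕ → ℕ, ∀ i < R.n, Even (N i) ∧ ∃ d1, ∀ d ≥ d1,
      gd (kerM (Gm R σ' i)) (R.deg (i + 1)) d = gd (imM (Gm R σ' (i + 1))) (R.deg (i + 1)) d + N i := by
    refine ⟨fun i => if hi : i < R.n then (hS i hi).choose else 0, fun i hi => ?_⟩
    have := (hS i hi).choose_spec
    simpa [hi] using this
  obtain ⟨N, hN⟩ := hS'
  obtain ⟨e1, he1⟩ := common R.n (fun i d => gd (kerM (Gm R σ' i)) (R.deg (i + 1)) d =
    gd (imM (Gm R σ' (i + 1))) (R.deg (i + 1)) d + N i) (fun i hi => (hN i hi).2)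
  -- exactness in large degrees
  obtain ⟨e2, he2⟩ := common R.L (fun i d => R.n ≤ i + 1 → i + 1 < R.L →
    gd (kerM (Hm R i)) (R.deg (i + 1)) d = gd (imM (Hm R (i + 1))) (R.deg (i + 1)) d) (fun i hi => by
      by_cases hc : R.n ≤ i + 1 ∧ i + 1 < R.L
      · obtain ⟨d0, hd0⟩ := largeExact (R.deg i) (R.deg (i + 1)) (R.deg (i + 1 + 1)) (Hm R i) (Hm R (i + 1))
          (Hm_hom R i hi) (Hm_hom R (i + 1) hc.2) (Hm_comp R i hc.2)
          (fun x hx => pts hσF hσd R i hc.1 hc.2 x hx)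
        exact ⟨d0, fun d hd _ _ => hd0 d hd⟩
      · exact ⟨0, fun d _ h1 h2 => absurd ⟨h1, h2⟩ hc⟩)
  have hL : R.n < R.L := by
    have := R.n_lt
    omega
  -- the Euler characteristic in degree `d`
  set h : ℕ → ℤ := fun i => if i = 0 then (N0 : ℤ) else (N (i - 1) : ℤ) with hh
  have key : ∀ d ≥ max e0 (max e1 e2), ∑ i ∈ Finset.range (R.L + 1), (-1 : ℤ) ^ i *
      (Module.finrank ℂ ↥(gv (R.deg i) d : Submodule ℂ (Fin (R.rk i) → MvPolynomial (Fin (p + 1)) ℂ)) : ℤ) =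
        ∑ i ∈ Finset.range R.n, (-1 : ℤ) ^ i * h i ∧ Odd (∑ i ∈ Finset.range R.n, (-1 : ℤ) ^ i * h i) := by
    intro d hd
    have hd0 : e0 ≤ d := le_trans (le_max_left _ _) hd
    have hd1 : e1 ≤ d := le_trans (le_trans (le_max_left _ _) (le_max_right _ _)) hd
    have hd2 : e2 ≤ d := le_trans (le_trans (le_max_right _ _) (le_max_right _ _)) hd
    have hc1 : ∀ i, Module.finrank ℂ ↥(gv (R.deg i) d : Submodule ℂ (Fin (R.rk i) → MvPolynomial (Fin (p + 1)) ℂ)) =
        Module.finrank ℝ ↥(gv (R.deg i) d : Submodule ℝ (Fin (R.rk i) → MvPolynomial (Fin (p + 1)) ℝ)) := by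
      intro i
      rw [finrank_gv, finrank_gv]
    have hb1 : ∀ i ≤ R.n, gd (imM (Hm R i)) (R.deg i) d = gd (imM (Gm R σ' i)) (R.deg i) d := by
      intro i hi
      rw [Hm_eq hσσ' R i hi]
      exact (baseChange _ _ _ (Gm_hom hσ' R i hi) d).symm
    have hrn : ∀ i < R.L, Module.finrank ℂ ↥(gv (R.deg (i + 1)) d :
        Submodule ℂ (Fin (R.rk (i + 1)) → MvPolynomial (Fin (p + 1)) ℂ)) =
          gd (kerM (Hm R i)) (R.deg (i + 1)) d + gd (imM (Hm R i)) (R.deg i) d :=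
      fun i hi => rank_null (R.deg i) (R.deg (i + 1)) (Hm R i) (Hm_hom R i hi) d
    have hrn' : ∀ i ≤ R.n, Module.finrank ℝ ↥(gv (R.deg (i + 1)) d :
        Submodule ℝ (Fin (R.rk (i + 1)) → MvPolynomial (Fin (p + 1)) ℝ)) =
          gd (kerM (Gm R σ' i)) (R.deg (i + 1)) d + gd (imM (Gm R σ' i)) (R.deg i) d :=
      fun i hi => rank_null (R.deg i) (R.deg (i + 1)) (Gm R σ' i) (Gm_hom hσ' R i hi) d
    have hz1 : ∀ i ≤ R.n, gd (kerM (Hm R i)) (R.deg (i + 1)) d = gd (kerM (Gm R σ' i)) (R.deg (i + 1)) d := by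
      intro i hi
      have a1 := hrn i (by omega)
      have a2 := hrn' i hi
      have a3 := hb1 i hi
      have a4 := hc1 (i + 1)
      omega
    have hkL : ∀ i, i + 1 = R.L → gd (kerM (Hm R i)) (R.deg (i + 1)) d = 0 := by
      intro i hi
      have hbot : kerM (Hm R i) = ⊥ := by
        rw [eq_bot_iff]
        intro v hv
        rw [mem_kerM] at hv
        rw [Submodule.mem_bot]
        exact inj_of_points (Hm R i) (fun x hx u hu => pts_inj R i hi x hx u hu) v hv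
      unfold gd
      rw [hbot]
      have : (Submodule.restrictScalars ℂ (⊥ : Submodule (MvPolynomial (Fin (p + 1)) ℂ)
        (Fin (R.rk (i + 1)) → MvPolynomial (Fin (p + 1)) ℂ)) ⊓ gv (R.deg (i + 1)) d) = ⊥ := by
        rw [eq_bot_iff]
        intro v hv
        exact hv.1
      rw [this]
      exact finrank_bot ℂ _
    have hnp := R.n_pos
    have hE := eulerNum R.n R.L R.n_pos hL
      (fun i => (Module.finrank ℂ ↥(gv (R.deg i) d : Submodule ℂ (Fin (R.rk i) → MvPolynomial (Fin (p + 1)) ℂ)) : ℤ))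
      (fun i => if hi : i = 0 then (Module.finrank ℂ ↥(gv (R.deg 0) d :
          Submodule ℂ (Fin (R.rk 0) → MvPolynomial (Fin (p + 1)) ℂ)) : ℤ) else
        (Module.finrank ℂ ↥(gv (R.deg i) d : Submodule ℂ (Fin (R.rk i) → MvPolynomial (Fin (p + 1)) ℂ)) : ℤ) -
          gd (imM (Hm R (i - 1))) (R.deg (i - 1)) d)
      (fun i => (gd (imM (Hm R i)) (R.deg i) d : ℤ)) h
      (by simp) ?_ ?_ ?_ ?_ ?_ ?_
    · exact ⟨hE.2, hE.1⟩
    · intro i hi
      simp
    · intro i hi1 hi2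
      obtain ⟨j, rfl⟩ : ∃ j, i = j + 1 := ⟨i - 1, by omega⟩
      have a1 := hrn j (by omega)
      have a2 := he2 j (by omega) d hd2 hi1 hi2
      simp only [Nat.add_eq_zero_iff, one_ne_zero, and_false, dite_false]
      change (_ : ℤ) - (gd (imM (Hm R j)) (R.deg j) d : ℤ) = _
      rw [a1, a2]
      push_cast
      ring
    · obtain ⟨j, hj⟩ : ∃ j, R.L = j + 1 := ⟨R.L - 1, by omega⟩
      have a1 := hrn j (by omega)
      have a2 := hkL j hj.symm
      rw [hj]
      simp only [Nat.add_eq_zero_iff, one_ne_zero, and_false, dite_false]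
      change (_ : ℤ) - (gd (imM (Hm R j)) (R.deg j) d : ℤ) = _
      rw [a1, a2]
      push_cast
      ring
    · intro i hi
      by_cases hi0 : i = 0
      · subst hi0
        have a1 := he0 d hd0
        have a2 := hc1 0
        have a3 := hb1 0 (Nat.zero_le _)
        simp only [hh, if_true, dite_true]
        rw [a2, a1, a3]
        push_cast
        ring
      · obtain ⟨j, rfl⟩ : ∃ j, i = j + 1 := ⟨i - 1, by omega⟩
        have a1 := he1 j (by omega) d hd1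
        have a2 := hrn j (by omega)
        have a3 := hz1 j (by omega)
        have a4 := hb1 (j + 1) (by omega)
        simp only [hh, Nat.add_eq_zero_iff, one_ne_zero, and_false, dite_false, if_false]
        change (_ : ℤ) - (gd (imM (Hm R j)) (R.deg j) d : ℤ) = _ + (N j : ℤ)
        rw [a2, a3, a1, a4]
        push_cast
        ring
    · simp only [hh, if_true]
      exact_mod_cast hN0
    · intro i hi1 hi2
      have : ¬ i = 0 := by omega
      simp only [hh, this, if_false]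
      exact_mod_cast (hN (i - 1) (by omega)).1
  obtain ⟨hodd⟩ : Nonempty (Odd (∑ i ∈ Finset.range R.n, (-1 : ℤ) ^ i * h i)) :=
    ⟨(key _ le_rfl).2⟩
  refine numbers p R.L R.rk R.deg _ hodd (max e0 (max e1 e2)) (fun d hd => ?_)
  rw [← (key d hd).1]
  refine Finset.sum_congr rfl (fun i _ => ?_)
  rw [finrank_gv]
  push_cast
  rfl

end Pool.Agent.Helper21.BPA
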