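import Pool.Agent.Helper72.BP.Defs

/-!
PROJECT BP (MP_1cfd37_ag), block A: definitions shared by the two halves of block A (helper1: resolutions, exactness at points, Hilbert;
helper21: the number `a(-1)`). Plan: plan_BP.md in the store, section 4.

`WH w e d f`: every monomial of `f` has weight `d - e` (and `f = 0` if `d < e`).
`Pre F J σ`: the complex produced by the first half; the second half computes its number `P`.
Spots: exactness at the spot `i + 1` means `ker (M i) = im (M (i + 1))`.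
-/

set_option autoImplicit false

namespace Pool.Agent.Helper21.BPA

open MvPolynomial Pool.Agent.Helper72.BP

/-- Every monomial of `f` has weight `d - e`. -/
def WH {σ K : Type} [CommRing K] (w : σ → ℕ) (e d : ℕ) (f : MvPolynomial σ K) : Prop :=
  ∀ m, coeff m f ≠ 0 → Finsupp.weight w m + e = d

/-- A real matrix of polynomials evaluated at a point of an algebra. -/
noncomputable def evMat {σ : Type} {a b : ℕ} {R : Type*} [CommRing R] [Algebra ℝ R] (w : σ → R)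
    (M : Matrix (Fin a) (Fin b) (MvPolynomial σ ℝ)) : Matrix (Fin a) (Fin b) R :=
  M.map (aeval w)

/-- Exactness of `B` followed by `A` in the middle. -/
def Ex2 {a b c : ℕ} {K : Type*} [CommRing K] (A : Matrix (Fin a) (Fin b) K) (B : Matrix (Fin b) (Fin c) K) :
    Prop :=
  ∀ v : Fin b → K, A.mulVec v = 0 ↔ ∃ u : Fin c → K, B.mulVec u = v

/-- The complex produced by the first half of block A. -/
structure Pre {p : ℕ} {κ τ : Type} [Fintype κ] [Fintype τ] (F : MvPolynomial (Var (Ix p κ) τ) ℝ)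
    (J : Ideal (MvPolynomial (Var (Ix p κ) τ) ℝ)) (σ : τ → MvPolynomial (Ix p κ) ℂ) where
  n : ℕ
  L : ℕ
  n_pos : 1 ≤ n
  n_lt : n + 1 < L
  rk : ℕ → ℕ
  deg : (i : ℕ) → Fin (rk i) → ℕ
  M : (i : ℕ) → Matrix (Fin (rk i)) (Fin (rk (i + 1))) (MvPolynomial (Var (Ix p κ) τ) ℝ)
  H : (i : ℕ) → Matrix (Fin (rk i)) (Fin (rk (i + 1))) (MvPolynomial (Ix p κ) ℂ)
  rk0 : rk 0 = 1
  deg0 : ∀ j, deg 0 j = 0
  M_wh : ∀ i ≤ n, ∀ a b, WH wt (deg i a) (deg (i + 1) b) (M i a b)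
  H_wh : ∀ i < L, ∀ a b, WH (fun _ => 1) (deg i a) (deg (i + 1) b) (H i a b)
  H_eq : ∀ i ≤ n, ∀ a b, H i a b = aeval (Sum.elim X σ) (M i a b)
  M_comp : ∀ i < n, ∀ a b, (M i * M (i + 1)) a b ∈ Ideal.span {F}
  H_comp : ∀ i, i + 1 < L → H i * H (i + 1) = 0
  /-- exactness over `R[Y,t]/(F)` at the spots `1, .., n`. -/
  M_exact : ∀ i < n, ∀ v : Fin (rk (i + 1)) → MvPolynomial (Var (Ix p κ) τ) ℝ,
    (∀ a, (M i).mulVec v a ∈ Ideal.span {F}) →
      ∃ u : Fin (rk (i + 1 + 1)) → MvPolynomial (Var (Ix p κ) τ) ℝ, ∀ b, v b - (M (i + 1)).mulVec u b ∈ Ideal.span {F}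
  /-- the cokernel of `M 0` is `R[Y,t]/J`. -/
  M_J : J = Ideal.span (insert F {f | ∃ a b, f = M 0 a b})
  /-- the multiplication by `f` in `J` is homotopic to `0` over `R[Y,t]/(F)`. -/
  M_htpy : ∀ f ∈ J, ∃ h : (i : ℕ) → Matrix (Fin (rk (i + 1))) (Fin (rk i)) (MvPolynomial (Var (Ix p κ) τ) ℝ),
    (∀ a b, (f • (1 : Matrix (Fin (rk 0)) (Fin (rk 0)) (MvPolynomial (Var (Ix p κ) τ) ℝ)) - M 0 * h 0) a b ∈
      Ideal.span {F}) ∧
    ∀ i < n, ∀ a b, (f • (1 : Matrix (Fin (rk (i + 1))) (Fin (rk (i + 1))) (MvPolynomial (Var (Ix p κ) τ) ℝ)) -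
      (M (i + 1) * h (i + 1) + h i * M i)) a b ∈ Ideal.span {F}
  /-- exactness at the spot `n` at regular complex points of `F = 0`. -/
  X1C : ∀ w : Var (Ix p κ) τ → ℂ, aeval w F = 0 → (∃ x, aeval w (pderiv x F) ≠ 0) →
    ∀ i, i + 1 = n → Ex2 (evMat w (M i)) (evMat w (M (i + 1)))
  /-- exactness at the spots `n + 1, .., L - 1` and injectivity at the spot `L` at the points `y ≠ 0`. -/
  X3 : ∀ y : Ix p κ → ℂ, y ≠ 0 → ∀ i, n ≤ i → i + 1 < L →
    Ex2 ((H i).map (eval y)) ((H (i + 1)).map (eval y))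
  X3i : ∀ y : Ix p κ → ℂ, y ≠ 0 → ∀ i, i + 1 = L → ∀ u, ((H i).map (eval y)).mulVec u = 0 → u = 0

end Pool.Agent.Helper21.BPA
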