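import Mathlib

/-!
PROJECT BP, block A2, module Cramer: a minor of the size of the rank kills the homology.

Proof. `K = FractionRing A`. If the minor is `0`, take `u = 0`. Otherwise over `K`: `ker P` has dimension `b - rank P = m` and contains the column space of `Q`,
which has dimension `m`; so they are equal. The columns `Q_(g j)`, `j : Fin m`, are independent over `K` (already their restrictions to the rows `e` are,
as the determinant is not `0`), so they are a basis of the column space. So `v = ∑ u_j Q_(g j)` over `K`. Put `S = Q.submatrix e g`. On the rows `e`: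
`v ∘ e = S u`, so `S.adjugate (v ∘ e) = (det S) u`. So over `K`: `(det S) v = ∑_j (det S) u_j Q_(g j) = ∑_j (S.adjugate (v ∘ e))_j Q_(g j)`, and all entries
are in `A`, so the equation holds over `A` (the map `A → K` is injective). The coefficient vector of `Q` is `u'_c = ∑_(j, g j = c) (S.adjugate (v ∘ e))_j`.
-/

set_option autoImplicit false

namespace Pool.Agent.Helper21.BPA

/-- Field version: a kernel vector is a combination of the columns `g j`. -/
private lemma cramer_field {K : Type} [Field K] {a b c m : ℕ} (P : Matrix (Fin a) (Fin b) K)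
    (Q : Matrix (Fin b) (Fin c) K) (hPQ : P * Q = 0)
    (hQ : Q.rank = m) (hP : P.rank + m = b)
    (e : Fin m → Fin b) (g : Fin m → Fin c) (hdet : (Q.submatrix e g).det ≠ 0)
    (v : Fin b → K) (hv : P.mulVec v = 0) :
    ∃ w : Fin m → K, (Q.submatrix id g).mulVec w = v := by
  classical
  -- the linear map given by the columns `g j`
  set L : (Fin m → K) →ₗ[K] (Fin b → K) := (Q.submatrix id g).mulVecLin with hL
  have hLinj : Function.Injective L := by
    rw [← LinearMap.ker_eq_bot, LinearMap.ker_eq_bot']
    intro w hw
    have h1 : (Q.submatrix e g).mulVec w = 0 := by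
      funext i
      have := congrFun hw (e i)
      simpa [hL, Matrix.mulVec, dotProduct] using this
    exact Matrix.eq_zero_of_mulVec_eq_zero hdet h1
  have hrange_le : LinearMap.range L ≤ LinearMap.ker P.mulVecLin := by
    rintro _ ⟨w, rfl⟩
    rw [LinearMap.mem_ker]
    have h2 : (Q.submatrix id g) = Q * ((1 : Matrix (Fin c) (Fin c) K).submatrix id g) := by
      rw [← Matrix.submatrix_id_id Q]
      ext i j
      simp [Matrix.mul_apply, Matrix.one_apply]
    simp only [hL, Matrix.mulVecLin_apply, Matrix.mulVec_mulVec]
    rw [h2, ← Matrix.mul_assoc, hPQ, Matrix.zero_mul, Matrix.zero_mulVec]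
  have hker : Module.finrank K (LinearMap.ker P.mulVecLin) = m := by
    have := LinearMap.finrank_range_add_finrank_ker P.mulVecLin
    rw [Module.finrank_fin_fun] at this
    have h3 : Module.finrank K (LinearMap.range P.mulVecLin) = P.rank := rfl
    omega
  have hrange : Module.finrank K (LinearMap.range L) = m := by
    rw [LinearMap.finrank_range_of_inj hLinj, Module.finrank_fin_fun]
  have heq : LinearMap.range L = LinearMap.ker P.mulVecLin :=
    Submodule.eq_of_le_of_finrank_eq hrange_le (by rw [hrange, hker])
  have hvmem : v ∈ LinearMap.range L := by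
    rw [heq, LinearMap.mem_ker]
    simpa using hv
  obtain ⟨w, hw⟩ := hvmem
  exact ⟨w, by simpa [hL] using hw⟩

theorem cramer {A : Type} [CommRing A] [IsDomain A] {a b c m : ℕ} (P : Matrix (Fin a) (Fin b) A)
    (Q : Matrix (Fin b) (Fin c) A) (hPQ : P * Q = 0)
    (hQ : (Q.map (algebraMap A (FractionRing A))).rank = m)
    (hP : (P.map (algebraMap A (FractionRing A))).rank + m = b)
    (e : Fin m → Fin b) (g : Fin m → Fin c) (v : Fin b → A) (hv : P.mulVec v = 0) :
    ∃ u : Fin c → A, Q.mulVec u = (Q.submatrix e g).det • v := by
  classical
  by_cases hdet : (Q.submatrix e g).det = 0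
  · exact ⟨0, by rw [hdet, zero_smul, Matrix.mulVec_zero]⟩
  set K := FractionRing A
  set f : A →+* K := algebraMap A K with hf
  have hfinj : Function.Injective f := IsFractionRing.injective A K
  -- everything over K
  have h1 : P.map f * Q.map f = 0 := by
    rw [← Matrix.map_mul, hPQ]
    ext i j
    simp
  have h2 : ((Q.map f).submatrix e g).det ≠ 0 := by
    have : ((Q.map f).submatrix e g) = (Q.submatrix e g).map f := rfl
    rw [this, ← RingHom.mapMatrix_apply, ← RingHom.map_det]
    intro h
    exact hdet (hfinj (by rw [h, map_zero]))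
  have h3 : (P.map f).mulVec (f ∘ v) = 0 := by
    have := RingHom.map_mulVec f P v
    funext i
    have h4 := this i
    rw [hv] at h4
    simpa using h4.symm
  obtain ⟨w, hw⟩ := cramer_field (P.map f) (Q.map f) h1 hQ hP e g h2 (f ∘ v) h3
  -- coefficients
  set S := Q.submatrix e g with hS
  set t : Fin m → A := S.adjugate.mulVec (v ∘ e) with ht
  refine ⟨fun k => ∑ j, if g j = k then t j else 0, ?_⟩
  -- Q times this vector is the combination of the columns g j
  have h5 : Q.mulVec (fun k => ∑ j, if g j = k then t j else 0) = (Q.submatrix id g).mulVec t := by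
    funext i
    simp only [Matrix.mulVec, dotProduct, Matrix.submatrix_apply, id]
    simp_rw [Finset.mul_sum]
    rw [Finset.sum_comm]
    refine Finset.sum_congr rfl fun j _ => ?_
    simp
  rw [h5]
  -- over K : f ∘ t = det S • w
  have h6 : ∀ j, f (t j) = f S.det * w j := by
    have h7 : (S.map f).mulVec w = f ∘ (v ∘ e) := by
      funext i
      have := congrFun hw (e i)
      simpa [Matrix.mulVec, dotProduct, hS] using this
    have h8 : (S.map f).adjugate.mulVec ((S.map f).mulVec w) = (S.map f).det • w := by
      rw [Matrix.mulVec_mulVec, Matrix.adjugate_mul, Matrix.smul_mulVec, Matrix.one_mulVec]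
    intro j
    have h9 : (S.map f).adjugate = S.adjugate.map f := by
      have := RingHom.map_adjugate f S
      simpa [RingHom.mapMatrix_apply] using this.symm
    have h10 : (S.map f).det = f S.det := by
      have := RingHom.map_det f S
      simpa [RingHom.mapMatrix_apply] using this.symm
    have h11 := congrFun h8 j
    rw [h7, h9, h10] at h11
    have h12 := RingHom.map_mulVec f S.adjugate (v ∘ e) j
    rw [ht, h12, h11]
    simp
  funext i
  apply hfinj
  have h13 := RingHom.map_mulVec f (Q.submatrix id g) t i
  rw [h13]
  have h14 : f ∘ t = f S.det • w := by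
    funext j
    simpa using h6 j
  have h15 : (Q.submatrix id g).map f = (Q.map f).submatrix id g := rfl
  rw [h14, h15, Matrix.mulVec_smul, hw]
  simp

end Pool.Agent.Helper21.BPA
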