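import Pool.Agent.Helper21.BPA.GvB

/-!
PROJECT BP, block A2, module FGen: a graded module killed by `I`, with `X_a^K ∈ I + (l)` for all `a`, satisfies `H_(d+1) = l H_d` for large `d`.

Proof. `Z` is a submodule of a finite free module over a Noetherian ring, so it is spanned by finitely many elements, hence
(replace each generator by its components `cmp dg d z`, finitely many by `sum_cmp`, all in `Z` as `Z` is graded) by finitely many `z_1, .., z_m` with
`z_i ∈ gv dg (e_i)`. Put `N = B ⊔ l Z` (the submodule of all `l • u + b`, `u ∈ Z`, `b ∈ B`). Then `X_a^K • z ∈ N` for `z ∈ Z`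
(`hK`, `Ideal.mem_sup`, `Ideal.mem_span_singleton`), so `X^m • z ∈ N` for every monomial `m` of degree at least `s * K + 1` (some exponent is at least `K`),
so `g • z ∈ N` for every `g` homogeneous of degree at least `s * K + 1`. Let `d0 = s * K + max e_i`. Let `d ≥ d0`, `v ∈ Z ∩ gv dg (d+1)`,
`v = ∑ g_i • z_i`. Then `v = cmp dg (d+1) v = ∑ homogeneousComponent (d+1-e_i) g_i • z_i ∈ N` (`cmp_self`, `cmp_smul`). So `v = l • u' + b`,
and `v = cmp dg (d+1) v = l • cmp dg d u' + cmp dg (d+1) b` (`cmp_smul_hom`); `u = cmp dg d u'`.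
-/

set_option autoImplicit false

namespace Pool.Agent.Helper21.BPA

open MvPolynomial Pool.Agent.Helper72.BP

private lemma exists_ge {s K : ℕ} (m : Fin s →₀ ℕ) (h : s * K + 1 ≤ m.degree) : ∃ a, K ≤ m a := by
  by_contra hne
  push Not at hne
  have h1 : m.degree ≤ s * K := by
    rw [Finsupp.degree_eq_sum]
    calc ∑ i, m i ≤ ∑ _i : Fin s, K := Finset.sum_le_sum (fun i _ => (hne i).le)
      _ = s * K := by simp
  omega

private lemma mono_mem {k : Type} [Field k] {s b : ℕ}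
    (Z N : Submodule (MvPolynomial (Fin s) k) (Fin b → MvPolynomial (Fin s) k)) (K : ℕ)
    (hN : ∀ a, ∀ z ∈ Z, (X a : MvPolynomial (Fin s) k) ^ K • z ∈ N)
    (g : MvPolynomial (Fin s) k) (n : ℕ) (hn : s * K + 1 ≤ n) (hg : g.IsHomogeneous n)
    (z : Fin b → MvPolynomial (Fin s) k) (hz : z ∈ Z) : g • z ∈ N := by
  rw [g.as_sum, Finset.sum_smul]
  apply Submodule.sum_mem
  intro m hm
  have hdeg : m.degree = n := by
    rw [Finsupp.degree_eq_weight_one]
    exact hg (mem_support_iff.mp hm)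
  obtain ⟨a, ha⟩ := exists_ge m (by omega : s * K + 1 ≤ m.degree)
  have e1 : monomial m (coeff m g) = monomial (m - Finsupp.single a K) (coeff m g) * X a ^ K := by
    rw [X_pow_eq_monomial, monomial_mul, mul_one, tsub_add_cancel_of_le (Finsupp.single_le_iff.mpr ha)]
  rw [e1, mul_smul]
  exact N.smul_mem _ (hN a z hz)

theorem fGen {k : Type} [Field k] {s b : ℕ} (dg : Fin b → ℕ)
    (Z B : Submodule (MvPolynomial (Fin s) k) (Fin b → MvPolynomial (Fin s) k))
    (hZ : Gr dg Z) (hB : Gr dg B) (hBZ : B ≤ Z) (I : Ideal (MvPolynomial (Fin s) k))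
    (hI : ∀ f ∈ I, ∀ v ∈ Z, f • v ∈ B) (l : MvPolynomial (Fin s) k) (hl : l.IsHomogeneous 1) (K : ℕ)
    (hK : ∀ a, (X a : MvPolynomial (Fin s) k) ^ K ∈ I ⊔ Ideal.span {l}) :
    ∃ d0, ∀ d ≥ d0, ∀ v ∈ Z, v ∈ gv dg (d + 1) → ∃ u ∈ Z, u ∈ gv dg d ∧ v - l • u ∈ B := by
  classical
  let N : Submodule (MvPolynomial (Fin s) k) (Fin b → MvPolynomial (Fin s) k) :=
    B ⊔ Z.map (LinearMap.lsmul (MvPolynomial (Fin s) k) (Fin b → MvPolynomial (Fin s) k) l)
  have hN : ∀ a, ∀ z ∈ Z, (X a : MvPolynomial (Fin s) k) ^ K • z ∈ N := by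
    intro a z hz
    obtain ⟨i, hi, j, hj, hij⟩ := Submodule.mem_sup.mp (hK a)
    obtain ⟨c, rfl⟩ := Ideal.mem_span_singleton'.mp hj
    rw [← hij, add_smul]
    refine Submodule.add_mem _ (Submodule.mem_sup_left (hI i hi z hz)) (Submodule.mem_sup_right ?_)
    refine ⟨c • z, Z.smul_mem c hz, ?_⟩
    rw [LinearMap.lsmul_apply, ← mul_smul, mul_comm]
  have hA : ∀ z ∈ Z, ∃ D, ∀ n, s * K + 1 + D ≤ n → ∀ f : MvPolynomial (Fin s) k, cmp dg n (f • z) ∈ N := by
    intro z hz
    obtain ⟨D, hD⟩ := sum_cmp dg z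
    refine ⟨D, ?_⟩
    intro n hn f
    have h1 : cmp dg n (f • z) = ∑ e ∈ Finset.range D, homogeneousComponent (n - e) f • cmp dg e z := by
      conv_lhs => rw [hD]
      rw [Finset.smul_sum, map_sum]
      apply Finset.sum_congr rfl
      intro e he
      have he' : e < D := Finset.mem_range.mp he
      have h2 := cmp_smul dg e (n - e) (cmp dg e z) (cmp_mem dg e z) f
      rw [show e + (n - e) = n by omega] at h2
      exact h2
    rw [h1]
    apply Submodule.sum_mem
    intro e he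
    have he' : e < D := Finset.mem_range.mp he
    exact mono_mem Z N K hN _ (n - e) (by omega) (homogeneousComponent_isHomogeneous _ _) _ (hZ z hz e)
  obtain ⟨T, hT⟩ : Z.FG := IsNoetherian.noetherian Z
  have hTZ : ∀ z ∈ T, z ∈ Z := by
    intro z hz
    rw [← hT]
    exact Submodule.subset_span hz
  choose! Dz hDz using hA
  refine ⟨s * K + 1 + T.sup Dz, ?_⟩
  intro d hd v hv hvd
  have hvN : v ∈ N := by
    have hv' := hv
    rw [← hT, Submodule.mem_span_finset] at hv'
    obtain ⟨f, _, hf⟩ := hv'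
    rw [← cmp_self dg (d + 1) v hvd, ← hf, map_sum]
    apply Submodule.sum_mem
    intro z hz
    have h3 : Dz z ≤ T.sup Dz := Finset.le_sup hz
    exact hDz z (hTZ z hz) (d + 1) (by omega) (f z)
  obtain ⟨y, hy, w, hw, hyw⟩ := Submodule.mem_sup.mp hvN
  obtain ⟨u', hu', rfl⟩ := hw
  refine ⟨cmp dg d u', hZ u' hu' d, cmp_mem dg d u', ?_⟩
  have h4 : v = cmp dg (d + 1) y + l • cmp dg d u' := by
    conv_lhs => rw [← cmp_self dg (d + 1) v hvd, ← hyw]
    rw [map_add, LinearMap.lsmul_apply, cmp_smul_hom dg d 1 u' l hl]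
  have h5 : v - l • cmp dg d u' = cmp dg (d + 1) y := by
    rw [sub_eq_iff_eq_add]
    exact h4
  rw [h5]
  exact hB y hy (d + 1)

end Pool.Agent.Helper21.BPA
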