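import Pool.Agent.Helper21.BPA.Defs

/-!
PROJECT BP (MP_1cfd37_ag), block A, second half: graded free modules over `k[x_1, .., x_s]`, restricted complexes.
Owner helper21.

`gv dg d`: the vectors of degree `d` in the free module with generators of degrees `dg j`.
`cmp dg d`: the projection to degree `d`.
`Gr dg Z`: the submodule `Z` is graded.
`HM dg dg' M`: the matrix `M` is homogeneous, target degrees `dg`, source degrees `dg'`.
`kerM`, `imM`: kernel and image of a matrix. `gd Z dg d`: the dimension of the degree `d` part of `Z`.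
`phi σ'`: pull back to `R^(p+1)` by `x ↦ ((x,0), σ'(x))`. `psi`: restriction of `C[y]` to `C^(p+1)`.
-/

set_option autoImplicit false

namespace Pool.Agent.Helper21.BPA

open MvPolynomial Pool.Agent.Helper72.BP

/-- The vectors of degree `d`. -/
def gv {k : Type} [Field k] {s b : ℕ} (dg : Fin b → ℕ) (d : ℕ) : Submodule k (Fin b → MvPolynomial (Fin s) k) where
  carrier := {v | ∀ j, WH (fun _ => 1) (dg j) d (v j)}
  add_mem' := by
    intro u v hu hv j m hm
    rw [Pi.add_apply, coeff_add] at hm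
    by_cases h : coeff m (u j) = 0
    · rw [h, zero_add] at hm
      exact hv j m hm
    · exact hu j m h
  zero_mem' := by
    intro j m hm
    exact absurd (coeff_zero m) hm
  smul_mem' := by
    intro c u hu j m hm
    rw [Pi.smul_apply, coeff_smul] at hm
    exact hu j m (fun h => hm (by rw [h, smul_zero]))

/-- The projection to the vectors of degree `d`. -/
noncomputable def cmp {k : Type} [Field k] {s b : ℕ} (dg : Fin b → ℕ) (d : ℕ) :
    (Fin b → MvPolynomial (Fin s) k) →ₗ[k] (Fin b → MvPolynomial (Fin s) k) :=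
  LinearMap.pi fun j => if dg j ≤ d then (homogeneousComponent (d - dg j)).comp (LinearMap.proj j) else 0

/-- A graded submodule. -/
def Gr {k : Type} [Field k] {s b : ℕ} (dg : Fin b → ℕ)
    (Z : Submodule (MvPolynomial (Fin s) k) (Fin b → MvPolynomial (Fin s) k)) : Prop :=
  ∀ v ∈ Z, ∀ d, cmp dg d v ∈ Z

/-- A homogeneous matrix. -/
def HM {k : Type} [Field k] {s a b : ℕ} (dg : Fin a → ℕ) (dg' : Fin b → ℕ)
    (M : Matrix (Fin a) (Fin b) (MvPolynomial (Fin s) k)) : Prop :=
  ∀ i j, WH (fun _ => 1) (dg i) (dg' j) (M i j)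

/-- The kernel of a matrix. -/
noncomputable def kerM {k : Type} [Field k] {s a b : ℕ} (M : Matrix (Fin a) (Fin b) (MvPolynomial (Fin s) k)) :
    Submodule (MvPolynomial (Fin s) k) (Fin b → MvPolynomial (Fin s) k) := LinearMap.ker M.mulVecLin

/-- The image of a matrix. -/
noncomputable def imM {k : Type} [Field k] {s a b : ℕ} (M : Matrix (Fin a) (Fin b) (MvPolynomial (Fin s) k)) :
    Submodule (MvPolynomial (Fin s) k) (Fin a → MvPolynomial (Fin s) k) := LinearMap.range M.mulVecLin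

/-- The dimension of the degree `d` part. -/
noncomputable def gd {k : Type} [Field k] {s b : ℕ}
    (Z : Submodule (MvPolynomial (Fin s) k) (Fin b → MvPolynomial (Fin s) k)) (dg : Fin b → ℕ) (d : ℕ) : ℕ :=
  Module.finrank k ↥(Z.restrictScalars k ⊓ gv dg d)

/-- The differential of a polynomial at a point. -/
noncomputable def dv {ι : Type} (w : ι → ℝ) (f : MvPolynomial ι ℝ) : ι → ℝ := fun x => eval w (pderiv x f)

/-- `h` is in `I` locally at `w`. -/
def LM {ι : Type} (w : ι → ℝ) (I : Ideal (MvPolynomial ι ℝ)) (h : MvPolynomial ι ℝ) : Prop :=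
  ∃ δ : MvPolynomial ι ℝ, eval w δ ≠ 0 ∧ δ * h ∈ I

/-- Local exactness modulo an ideal. -/
def LEx {ι : Type} {a b c : ℕ} (w : ι → ℝ) (I : Ideal (MvPolynomial ι ℝ))
    (P : Matrix (Fin a) (Fin b) (MvPolynomial ι ℝ)) (Q : Matrix (Fin b) (Fin c) (MvPolynomial ι ℝ)) : Prop :=
  ∀ v : Fin b → MvPolynomial ι ℝ, (∀ i, P.mulVec v i ∈ I) →
    ∃ δ : MvPolynomial ι ℝ, eval w δ ≠ 0 ∧ ∃ u : Fin c → MvPolynomial ι ℝ, ∀ j, δ * v j - Q.mulVec u j ∈ I

/-- The pull back to `R^(p+1)`. -/
noncomputable def phi {p : ℕ} {κ τ : Type} (σ' : τ → MvPolynomial (Fin (p + 1)) ℝ) :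
    MvPolynomial (Var (Ix p κ) τ) ℝ →ₐ[ℝ] MvPolynomial (Fin (p + 1)) ℝ :=
  aeval (Sum.elim (inc X) σ' : Var (Ix p κ) τ → MvPolynomial (Fin (p + 1)) ℝ)

/-- The restriction to `C^(p+1)`. -/
noncomputable def psi {p : ℕ} {κ : Type} : MvPolynomial (Ix p κ) ℂ →ₐ[ℂ] MvPolynomial (Fin (p + 1)) ℂ :=
  aeval (inc X : Ix p κ → MvPolynomial (Fin (p + 1)) ℂ)

/-- The point of the cone over `x`. -/
noncomputable def pt {p : ℕ} {κ τ : Type} (σ' : τ → MvPolynomial (Fin (p + 1)) ℝ) (x : Fin (p + 1) → ℝ) :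
    Var (Ix p κ) τ → ℝ := Sum.elim (inc x) (fun s => eval x (σ' s))

section

variable {p : ℕ} {κ τ : Type} [Fintype κ] [Fintype τ] {F : MvPolynomial (Var (Ix p κ) τ) ℝ}
  {J : Ideal (MvPolynomial (Var (Ix p κ) τ) ℝ)} {σ : τ → MvPolynomial (Ix p κ) ℂ}

/-- The restricted real matrices. -/
noncomputable def Gm (R : Pre F J σ) (σ' : τ → MvPolynomial (Fin (p + 1)) ℝ) (i : ℕ) :
    Matrix (Fin (R.rk i)) (Fin (R.rk (i + 1))) (MvPolynomial (Fin (p + 1)) ℝ) := (R.M i).map (phi σ')

/-- The restricted complex matrices. -/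
noncomputable def Hm (R : Pre F J σ) (i : ℕ) :
    Matrix (Fin (R.rk i)) (Fin (R.rk (i + 1))) (MvPolynomial (Fin (p + 1)) ℂ) := (R.H i).map psi

end

end Pool.Agent.Helper21.BPA
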