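import Pool.Agent.Helper21.BPA.Par

/-!
PROJECT BP, block A2, module GMod: eventual behaviour of a graded module with `V_(d+1) = l V_d`, `l = ∑ c_a X_a`.

Proof. Let `L u = ∑ a, c a • T a u` (a linear map commuting with all `T a`). For `d ≥ d0` it maps `V d` onto `V (d+1)`
(`hXV`, `hl`), so `finrank (V (d+1)) ≤ finrank (V d)`; so the dimension is constant `= N` for `d ≥ d1`, and there `L : V d → V (d+1)` is bijective
(surjective linear map between spaces of the same finite dimension). Suppose `N` is odd. Let `S : V (d1+1) ≃ V d1` be the inverse of `L`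
and `T'_a = S ∘ T_a : V d1 → V d1`, so `L (T'_a u) = T_a u`. They commute: `L L T'_a T'_b u = L T_a T'_b u = T_a L T'_b u = T_a T_b u`, symmetric,
and `L` is injective on `V d1` and `V (d1+1)`. By `par` there is `v ≠ 0` in `V d1` with `T'_a v = ξ_a v`; then `T_a v = L (T'_a v) = ξ_a • L v`.
-/

set_option autoImplicit false

namespace Pool.Agent.Helper21.BPA

theorem gMod {s : ℕ} {W : Type} [AddCommGroup W] [Module ℝ W] (T : Fin s → Module.End ℝ W)
    (hT : ∀ a b, Commute (T a) (T b)) (c : Fin s → ℝ) (V : ℕ → Submodule ℝ W)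
    (hfin : ∀ d, FiniteDimensional ℝ ↥(V d)) (hXV : ∀ a d, ∀ v ∈ V d, T a v ∈ V (d + 1)) (d0 : ℕ)
    (hl : ∀ d ≥ d0, ∀ v ∈ V (d + 1), ∃ u ∈ V d, v = ∑ a, c a • T a u) :
    ∃ d1 ≥ d0, ∃ N : ℕ, (∀ d ≥ d1, Module.finrank ℝ ↥(V d) = N) ∧
      (∀ d ≥ d1, ∀ u ∈ V d, ∑ a, c a • T a u = 0 → u = 0) ∧
      (Odd N → ∃ v ∈ V d1, v ≠ 0 ∧ ∃ ξ : Fin s → ℝ, ∀ a, T a v = ξ a • ∑ b, c b • T b v) := by
  obtain ⟨L, hL⟩ : ∃ L : Module.End ℝ W, ∀ u, L u = ∑ a, c a • T a u :=
    ⟨∑ a, c a • T a, fun u => by simp [LinearMap.sum_apply]⟩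
  have hTT : ∀ a b u, T a (T b u) = T b (T a u) := fun a b u => LinearMap.congr_fun (hT a b) u
  have hLT : ∀ a u, L (T a u) = T a (L u) := by
    intro a u
    rw [hL, hL, map_sum]
    refine Finset.sum_congr rfl fun b _ => ?_
    rw [map_smul, hTT]
  have hLV : ∀ d, ∀ u ∈ V d, L u ∈ V (d + 1) := by
    intro d u hu
    rw [hL]
    exact Submodule.sum_mem _ fun a _ => Submodule.smul_mem _ _ (hXV a d u hu)
  -- the restriction of `L`
  let Ld : ∀ d, ↥(V d) →ₗ[ℝ] ↥(V (d + 1)) := fun d => L.restrict (hLV d)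
  have hLd : ∀ d (u : ↥(V d)), ((Ld d u : ↥(V (d + 1))) : W) = L u := fun d u => rfl
  have hsurj : ∀ d ≥ d0, Function.Surjective (Ld d) := by
    intro d hd v
    obtain ⟨u, hu, huv⟩ := hl d hd v v.2
    exact ⟨⟨u, hu⟩, Subtype.ext (by rw [hLd, hL]; exact huv.symm)⟩
  have hle : ∀ d ≥ d0, Module.finrank ℝ ↥(V (d + 1)) ≤ Module.finrank ℝ ↥(V d) := fun d hd =>
    LinearMap.finrank_le_finrank_of_surjective (hsurj d hd)
  -- the dimension is eventually constant
  obtain ⟨d1, hd1, N, hN⟩ : ∃ d1 ≥ d0, ∃ N : ℕ, ∀ d ≥ d1, Module.finrank ℝ ↥(V d) = N := by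
    have hex : ∃ m, ∃ d ≥ d0, Module.finrank ℝ ↥(V d) = m := ⟨_, d0, le_rfl, rfl⟩
    classical
    obtain ⟨d1, hd1, h1⟩ := Nat.find_spec hex
    refine ⟨d1, hd1, Nat.find hex, ?_⟩
    intro d hd
    induction d, hd using Nat.le_induction with
    | base => exact h1
    | succ d hd ih =>
      have h2 := hle d (le_trans hd1 hd)
      have h3 := Nat.find_min' hex ⟨d + 1, by omega, rfl⟩
      omega
  have hinj : ∀ d ≥ d1, Function.Injective (Ld d) := by
    intro d hd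
    rw [LinearMap.injective_iff_surjective_of_finrank_eq_finrank (by rw [hN d hd, hN (d + 1) (by omega)])]
    exact hsurj d (le_trans hd1 hd)
  have hker : ∀ d ≥ d1, ∀ u ∈ V d, L u = 0 → u = 0 := by
    intro d hd u hu h
    have h1 : Ld d ⟨u, hu⟩ = Ld d 0 := Subtype.ext (by rw [hLd, map_zero]; exact h)
    exact congrArg Subtype.val (hinj d hd h1)
  refine ⟨d1, hd1, N, hN, fun d hd u hu h => hker d hd u hu (by rw [hL]; exact h), ?_⟩
  intro hodd
  let e : ↥(V d1) ≃ₗ[ℝ] ↥(V (d1 + 1)) := LinearEquiv.ofBijective (Ld d1) ⟨hinj d1 le_rfl, hsurj d1 hd1⟩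
  let T' : Fin s → Module.End ℝ ↥(V d1) := fun a => e.symm.toLinearMap ∘ₗ ((T a).restrict (hXV a d1))
  have hT' : ∀ a (u : ↥(V d1)), L (T' a u : ↥(V d1)) = T a u := by
    intro a u
    have h1 : e (T' a u) = (T a).restrict (hXV a d1) u := by
      change e (e.symm _) = _
      rw [e.apply_symm_apply]
    have h2 := congrArg (fun x : ↥(V (d1 + 1)) => (x : W)) h1
    exact h2
  have hcomm : ∀ a b, Commute (T' a) (T' b) := by
    intro a b
    change T' a * T' b = T' b * T' a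
    refine LinearMap.ext fun u => ?_
    change T' a (T' b u) = T' b (T' a u)
    have key : ∀ a b, L (L (T' a (T' b u) : ↥(V d1))) = T a (T b u) := by
      intro a b
      rw [hT', hLT, hT']
    apply Subtype.ext
    have h1 : L (L ((T' a (T' b u) : ↥(V d1)) - (T' b (T' a u) : ↥(V d1)))) = 0 := by
      rw [map_sub, map_sub, key, key, hTT, sub_self]
    have hm : ((T' a (T' b u) : ↥(V d1)) - (T' b (T' a u) : ↥(V d1)) : W) ∈ V d1 :=
      Submodule.sub_mem _ (T' a (T' b u)).2 (T' b (T' a u)).2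
    have h2 := hker (d1 + 1) (by omega) _ (hLV d1 _ hm) h1
    exact sub_eq_zero.1 (hker d1 le_rfl _ hm h2)
  obtain ⟨v, hv, ξ, hξ⟩ := par (by rw [hN d1 le_rfl]; exact hodd) T' hcomm
  refine ⟨v, v.2, fun h => hv (Subtype.ext h), ξ, fun a => ?_⟩
  rw [← hT' a v, hξ a, ← hL]
  change L (ξ a • (v : W)) = _
  rw [map_smul]

end Pool.Agent.Helper21.BPA
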