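import Pool.Agent.Helper21.BPA.GDefs

/-!
PROJECT BP, block A2, module GvA: basic lemmas on `gv` and `cmp` (graded pieces of a free module over a polynomial ring).

Proofs. `WH (fun _ => 1) e d f` says: every monomial `m` of `f` has `Finsupp.weight (fun _ => 1) m + e = d`; the weight is the degree
(`Finsupp.weight_one_apply`, `Finsupp.degree_eq_weight_one`, or `Finsupp.weight_apply` and `Finsupp.sum`). `cmp dg d v j` is the homogeneous component
`d - dg j` of `v j` if `dg j ≤ d` and `0` otherwise; so `coeff m (cmp dg d v j) = if degree m + dg j = d then coeff m (v j) else 0`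
(`coeff_homogeneousComponent`): prove this first (`coeff_cmp`), then everything follows by comparing coefficients
(for `cmp_smul`, `cmp_smul_hom` use `coeff_mul` or decompose `δ` (`sum_homogeneousComponent`) and `v` (`sum_cmp`) and use linearity,
`IsHomogeneous.mul`). `sum_cmp`: take `D` larger than all `degree m + dg j` with `m` in the support of `v j`.
-/

set_option autoImplicit false

namespace Pool.Agent.Helper21.BPA

open MvPolynomial Pool.Agent.Helper72.BP

variable {k : Type} [Field k] {s b : ℕ}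

private theorem w1 (m : Fin s →₀ ℕ) : Finsupp.weight (fun _ => 1) m = m.degree := by
  rw [Finsupp.degree_eq_weight_one]

private theorem wh_iff (f : MvPolynomial (Fin s) k) (e d : ℕ) :
    WH (fun _ => 1) e d f ↔ ∀ m, coeff m f ≠ 0 → m.degree + e = d := by
  constructor
  · intro h m hm
    rw [← w1]
    exact h m hm
  · intro h m hm
    rw [w1]
    exact h m hm

private theorem hom_iff (f : MvPolynomial (Fin s) k) (d : ℕ) :
    f.IsHomogeneous d ↔ ∀ m, coeff m f ≠ 0 → m.degree = d := by
  constructor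
  · intro h m hm
    rw [Finsupp.degree_eq_weight_one]
    exact h hm
  · intro h m hm
    have h1 := h m hm
    rw [Finsupp.degree_eq_weight_one] at h1
    exact h1

private theorem coeff_cmp (dg : Fin b → ℕ) (d : ℕ) (v : Fin b → MvPolynomial (Fin s) k) (j : Fin b) (m : Fin s →₀ ℕ) :
    coeff m (cmp dg d v j) = if m.degree + dg j = d then coeff m (v j) else 0 := by
  unfold cmp
  rw [LinearMap.pi_apply]
  by_cases h : dg j ≤ d
  · rw [if_pos h, LinearMap.comp_apply, LinearMap.proj_apply, coeff_homogeneousComponent]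
    by_cases h1 : m.degree + dg j = d
    · rw [if_pos h1, if_pos (by omega)]
    · rw [if_neg h1, if_neg (by omega)]
  · rw [if_neg h, LinearMap.zero_apply, coeff_zero, if_neg (by omega)]

theorem wh_zero_iff (f : MvPolynomial (Fin s) k) (d : ℕ) :
    WH (fun _ => 1) 0 d f ↔ f.IsHomogeneous d := by
  rw [wh_iff, hom_iff]
  simp only [add_zero]

theorem wh_one_iff (f : MvPolynomial (Fin s) k) (e d : ℕ) :
    WH (fun _ => 1) e d f ↔ (e ≤ d ∧ f.IsHomogeneous (d - e)) ∨ f = 0 := by
  rw [wh_iff, hom_iff]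
  constructor
  · intro h
    by_cases hf : f = 0
    · exact Or.inr hf
    · obtain ⟨m, hm⟩ := MvPolynomial.ne_zero_iff.1 hf
      have h1 := h m hm
      refine Or.inl ⟨by omega, fun m' hm' => ?_⟩
      have h2 := h m' hm'
      omega
  · rintro (⟨h1, h2⟩ | rfl)
    · intro m hm
      have h3 := h2 m hm
      omega
    · intro m hm
      exact absurd (coeff_zero m) hm

theorem cmp_mem (dg : Fin b → ℕ) (d : ℕ) (v : Fin b → MvPolynomial (Fin s) k) : cmp dg d v ∈ gv dg d := by
  show ∀ j, WH (fun _ => 1) (dg j) d (cmp dg d v j)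
  intro j
  rw [wh_iff]
  intro m hm
  rw [coeff_cmp] at hm
  by_contra h
  exact hm (if_neg h)

private theorem gv_iff (dg : Fin b → ℕ) (d : ℕ) (v : Fin b → MvPolynomial (Fin s) k) :
    v ∈ gv dg d ↔ ∀ j, ∀ m, coeff m (v j) ≠ 0 → m.degree + dg j = d := by
  show (∀ j, WH (fun _ => 1) (dg j) d (v j)) ↔ _
  exact forall_congr' fun j => wh_iff (v j) (dg j) d

theorem cmp_self (dg : Fin b → ℕ) (d : ℕ) (v : Fin b → MvPolynomial (Fin s) k) (hv : v ∈ gv dg d) :
    cmp dg d v = v := by
  rw [gv_iff] at hv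
  funext j
  ext m
  rw [coeff_cmp]
  by_cases h : coeff m (v j) = 0
  · rw [h, ite_self]
  · rw [if_pos (hv j m h)]

theorem cmp_ne (dg : Fin b → ℕ) (d d' : ℕ) (h : d' ≠ d) (v : Fin b → MvPolynomial (Fin s) k) (hv : v ∈ gv dg d) :
    cmp dg d' v = 0 := by
  rw [gv_iff] at hv
  funext j
  ext m
  rw [coeff_cmp, Pi.zero_apply, coeff_zero]
  by_cases h1 : coeff m (v j) = 0
  · rw [h1, ite_self]
  · have h2 := hv j m h1
    rw [if_neg (by omega)]

theorem sum_cmp (dg : Fin b → ℕ) (v : Fin b → MvPolynomial (Fin s) k) :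
    ∃ D, v = ∑ d ∈ Finset.range D, cmp dg d v := by
  refine ⟨(∑ j, ((v j).totalDegree + dg j)) + 1, ?_⟩
  funext j
  ext m
  rw [Finset.sum_apply, coeff_sum]
  simp only [coeff_cmp]
  rw [Finset.sum_ite_eq]
  by_cases h : coeff m (v j) = 0
  · rw [h, ite_self]
  · have h1 : (v j).totalDegree + dg j ≤ ∑ j, ((v j).totalDegree + dg j) :=
      Finset.single_le_sum (f := fun j => (v j).totalDegree + dg j) (fun _ _ => Nat.zero_le _) (Finset.mem_univ j)
    have h2 : m.degree ≤ (v j).totalDegree := by
      have h3 := le_totalDegree (MvPolynomial.mem_support_iff.2 h)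
      have h4 : m.degree = m.sum fun _ e => e := rfl
      rw [h4]
      exact h3
    rw [if_pos (Finset.mem_range.2 (by omega))]

theorem smul_mem_gv (dg : Fin b → ℕ) (d e : ℕ) (v : Fin b → MvPolynomial (Fin s) k) (hv : v ∈ gv dg d)
    (δ : MvPolynomial (Fin s) k) (hδ : δ.IsHomogeneous e) : δ • v ∈ gv dg (d + e) := by
  rw [gv_iff] at hv ⊢
  rw [hom_iff] at hδ
  intro j m hm
  rw [Pi.smul_apply, smul_eq_mul, coeff_mul] at hm
  obtain ⟨x, hx, hx'⟩ := Finset.exists_ne_zero_of_sum_ne_zero hm
  have h1 := hδ x.1 (left_ne_zero_of_mul hx')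
  have h2 := hv j x.2 (right_ne_zero_of_mul hx')
  have h3 : x.1.degree + x.2.degree = m.degree := by
    rw [← Finset.HasAntidiagonal.mem_antidiagonal.1 hx, map_add]
  omega

theorem cmp_smul (dg : Fin b → ℕ) (d e : ℕ) (v : Fin b → MvPolynomial (Fin s) k) (hv : v ∈ gv dg d)
    (δ : MvPolynomial (Fin s) k) : cmp dg (d + e) (δ • v) = homogeneousComponent e δ • v := by
  rw [gv_iff] at hv
  funext j
  ext m
  rw [coeff_cmp, Pi.smul_apply, Pi.smul_apply, smul_eq_mul, smul_eq_mul, coeff_mul, coeff_mul]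
  have h3 : ∀ x ∈ Finset.HasAntidiagonal.antidiagonal m, coeff x.1 (homogeneousComponent e δ) * coeff x.2 (v j) =
      if m.degree + dg j = d + e then coeff x.1 δ * coeff x.2 (v j) else 0 := by
    intro x hx
    have h3 : x.1.degree + x.2.degree = m.degree := by
      rw [← Finset.HasAntidiagonal.mem_antidiagonal.1 hx, map_add]
    rw [coeff_homogeneousComponent]
    by_cases h1 : coeff x.2 (v j) = 0
    · rw [h1, mul_zero, mul_zero, ite_self]
    · have h2 := hv j x.2 h1
      by_cases h4 : m.degree + dg j = d + e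
      · rw [if_pos h4, if_pos (by omega)]
      · rw [if_neg h4, if_neg (by omega), zero_mul]
  rw [Finset.sum_congr rfl h3]
  by_cases h4 : m.degree + dg j = d + e
  · simp only [if_pos h4]
  · simp only [if_neg h4, Finset.sum_const_zero]

theorem cmp_smul_hom (dg : Fin b → ℕ) (d e : ℕ) (v : Fin b → MvPolynomial (Fin s) k)
    (δ : MvPolynomial (Fin s) k) (hδ : δ.IsHomogeneous e) : cmp dg (d + e) (δ • v) = δ • cmp dg d v := by
  rw [hom_iff] at hδ
  funext j
  ext m
  rw [coeff_cmp, Pi.smul_apply, Pi.smul_apply, smul_eq_mul, smul_eq_mul, coeff_mul, coeff_mul]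
  have h3 : ∀ x ∈ Finset.HasAntidiagonal.antidiagonal m, coeff x.1 δ * coeff x.2 (cmp dg d v j) =
      if m.degree + dg j = d + e then coeff x.1 δ * coeff x.2 (v j) else 0 := by
    intro x hx
    have h3 : x.1.degree + x.2.degree = m.degree := by
      rw [← Finset.HasAntidiagonal.mem_antidiagonal.1 hx, map_add]
    rw [coeff_cmp]
    by_cases h1 : coeff x.1 δ = 0
    · rw [h1, zero_mul, zero_mul, ite_self]
    · have h2 := hδ x.1 h1
      by_cases h4 : m.degree + dg j = d + e
      · rw [if_pos h4, if_pos (by omega)]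
      · rw [if_neg h4, if_neg (by omega), mul_zero]
  rw [Finset.sum_congr rfl h3]
  by_cases h4 : m.degree + dg j = d + e
  · simp only [if_pos h4]
  · simp only [if_neg h4, Finset.sum_const_zero]

end Pool.Agent.Helper21.BPA
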