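import Pool.Agent.Helper21.BPA.GvA

/-!
PROJECT BP, block A2, module GvB: homogeneous matrices.

Proofs. `cmp_mulVec`: both sides are additive in `v`; write `M.mulVec v i = ∑ j, M i j * v j`; the entry `M i j` is `0` or homogeneous of degree
`dg' j - dg i` with `dg i ≤ dg' j` (`wh_one_iff`); compare the homogeneous components; or: `v = ∑ cmp dg' e v` (`sum_cmp`), each
`M.mulVec (cmp dg' e v)` is in `gv dg e` (`mulVec_mem_gv`), then `cmp_self`, `cmp_ne`. `mulVec_mem_gv`: `WH` is additive and a monomial of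
`M i j * v j` is a sum of a monomial of `M i j` (weight `dg' j - dg i`) and one of `v j` (weight `d - dg' j`) (`support_mul` or `coeff_mul`).
`gr_ker`, `gr_im`: from `cmp_mulVec`. `im_deg`: `v = M u`, so `v = cmp dg d v = M (cmp dg' d u)`.
-/

set_option autoImplicit false

namespace Pool.Agent.Helper21.BPA

open MvPolynomial Pool.Agent.Helper72.BP

variable {k : Type} [Field k] {s a b : ℕ}

theorem mem_kerM (M : Matrix (Fin a) (Fin b) (MvPolynomial (Fin s) k)) (v : Fin b → MvPolynomial (Fin s) k) :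
    v ∈ kerM M ↔ M.mulVec v = 0 := by
  rw [kerM, LinearMap.mem_ker, Matrix.mulVecLin_apply]

theorem mem_imM (M : Matrix (Fin a) (Fin b) (MvPolynomial (Fin s) k)) (v : Fin a → MvPolynomial (Fin s) k) :
    v ∈ imM M ↔ ∃ u, M.mulVec u = v := by
  rw [imM, LinearMap.mem_range]
  rfl

theorem mulVec_mem_gv (dg : Fin a → ℕ) (dg' : Fin b → ℕ) (M : Matrix (Fin a) (Fin b) (MvPolynomial (Fin s) k))
    (hM : HM dg dg' M) (d : ℕ) (v : Fin b → MvPolynomial (Fin s) k) (hv : v ∈ gv dg' d) :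
    M.mulVec v ∈ gv dg d := by
  intro i m hm
  have h1 : M.mulVec v i = ∑ j, M i j * v j := rfl
  rw [h1, coeff_sum] at hm
  obtain ⟨j, -, hj⟩ := Finset.exists_ne_zero_of_sum_ne_zero hm
  rw [coeff_mul] at hj
  obtain ⟨x, hx, hx0⟩ := Finset.exists_ne_zero_of_sum_ne_zero hj
  have h2 := hM i j x.1 (left_ne_zero_of_mul hx0)
  have h3 := hv j x.2 (right_ne_zero_of_mul hx0)
  have h4 : x.1 + x.2 = m := Finset.HasAntidiagonal.mem_antidiagonal.1 hx
  rw [← h4, map_add]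
  omega

theorem cmp_mulVec (dg : Fin a → ℕ) (dg' : Fin b → ℕ) (M : Matrix (Fin a) (Fin b) (MvPolynomial (Fin s) k))
    (hM : HM dg dg' M) (d : ℕ) (v : Fin b → MvPolynomial (Fin s) k) :
    cmp dg d (M.mulVec v) = M.mulVec (cmp dg' d v) := by
  have key : ∀ e, cmp dg d (M.mulVec (cmp dg' e v)) = M.mulVec (cmp dg' d (cmp dg' e v)) := by
    intro e
    by_cases h : d = e
    · subst h
      rw [cmp_self dg' d _ (cmp_mem dg' d v), cmp_self dg d _ (mulVec_mem_gv dg dg' M hM d _ (cmp_mem dg' d v))]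
    · rw [cmp_ne dg' e d h _ (cmp_mem dg' e v), cmp_ne dg e d h _ (mulVec_mem_gv dg dg' M hM e _ (cmp_mem dg' e v)),
        Matrix.mulVec_zero]
  obtain ⟨D, hD⟩ := sum_cmp dg' v
  have hl : ∀ w : Fin b → MvPolynomial (Fin s) k, M.mulVec w = M.mulVecLin w := fun w => rfl
  calc cmp dg d (M.mulVec v) = cmp dg d (M.mulVec (∑ e ∈ Finset.range D, cmp dg' e v)) := by rw [← hD]
    _ = ∑ e ∈ Finset.range D, cmp dg d (M.mulVec (cmp dg' e v)) := by
        rw [hl, map_sum, map_sum]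
        rfl
    _ = ∑ e ∈ Finset.range D, M.mulVec (cmp dg' d (cmp dg' e v)) := Finset.sum_congr rfl fun e _ => key e
    _ = M.mulVec (∑ e ∈ Finset.range D, cmp dg' d (cmp dg' e v)) := by
        rw [hl, map_sum]
        rfl
    _ = M.mulVec (cmp dg' d v) := by rw [← map_sum, ← hD]

theorem gr_top (dg : Fin b → ℕ) :
    Gr dg (⊤ : Submodule (MvPolynomial (Fin s) k) (Fin b → MvPolynomial (Fin s) k)) :=
  fun _ _ _ => Submodule.mem_top

theorem gr_ker (dg : Fin a → ℕ) (dg' : Fin b → ℕ) (M : Matrix (Fin a) (Fin b) (MvPolynomial (Fin s) k))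
    (hM : HM dg dg' M) : Gr dg' (kerM M) := by
  intro v hv d
  rw [mem_kerM] at hv ⊢
  rw [← cmp_mulVec dg dg' M hM, hv, map_zero]

theorem gr_im (dg : Fin a → ℕ) (dg' : Fin b → ℕ) (M : Matrix (Fin a) (Fin b) (MvPolynomial (Fin s) k))
    (hM : HM dg dg' M) : Gr dg (imM M) := by
  intro v hv d
  rw [mem_imM] at hv ⊢
  obtain ⟨u, rfl⟩ := hv
  exact ⟨cmp dg' d u, (cmp_mulVec dg dg' M hM d u).symm⟩

theorem im_deg (dg : Fin a → ℕ) (dg' : Fin b → ℕ) (M : Matrix (Fin a) (Fin b) (MvPolynomial (Fin s) k))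
    (hM : HM dg dg' M) (d : ℕ) (v : Fin a → MvPolynomial (Fin s) k) (hv : v ∈ imM M) (hv' : v ∈ gv dg d) :
    ∃ u ∈ gv dg' d, M.mulVec u = v := by
  obtain ⟨u, rfl⟩ := (mem_imM M v).1 hv
  exact ⟨cmp dg' d u, cmp_mem dg' d u, by rw [← cmp_mulVec dg dg' M hM, cmp_self dg d _ hv']⟩

end Pool.Agent.Helper21.BPA
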