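import Pool.Agent.Helper21.BPA.GvB

/-!
PROJECT BP, block A2, module GvDim: dimensions of graded pieces.

Proofs. `gv dg d` is the space of all families `(v j)` with `v j` supported in the finite set `{m : Fin (p+1) →₀ ℕ | degree m + dg j = d}`.
`finrank_gv`: linear equivalence of `gv dg d` with `Π j, homogeneousSubmodule (Fin (p+1)) k (d - dg j)` or `0` if `d < dg j`
(or with `(Σ j, {m // degree m + dg j = d}) →₀ k`); `homogeneousSubmodule_eq_finsupp_supported`, `Finsupp.supportedEquivFinsupp`;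
the number of monomials of degree `e` in `p + 1` variables is `(e + p).choose p` (`Finset.card_finsuppAntidiag...`, or `Sym.card_sym_eq_choose` /
`Sym.card_sym_eq_multichoose` with the equivalence of `Sym (Fin (p+1)) e` and `{m | degree m = e}` (`Sym.equivNatSum`?), or induction on `p`).
`gd_top`: `⊤ ⊓ gv = gv`. `rank_null`: rank-nullity (`LinearMap.finrank_range_add_finrank_ker`) for the `k`-linear map
`gv dg' d → (Fin a → MvPolynomial (Fin s) k)` given by `M.mulVec`: its kernel is `kerM M ⊓ gv dg' d`, its range is `imM M ⊓ gv dg d`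
(`im_deg`, `mulVec_mem_gv`).
-/

set_option autoImplicit false

namespace Pool.Agent.Helper21.BPA

open MvPolynomial Pool.Agent.Helper72.BP

private theorem gvd_sum {s : ℕ} (m : Fin s →₀ ℕ) :
    Finsupp.weight (fun _ => (1 : ℕ)) m = m.sum (fun _ => id) := by
  rw [Finsupp.weight_apply]
  refine Finsupp.sum_congr fun x _ => ?_
  simp

private noncomputable def gvdEq (s e d : ℕ) (h : e ≤ d) :
    {m : Fin s →₀ ℕ // Finsupp.weight (fun _ => (1 : ℕ)) m + e = d} ≃ Sym (Fin s) (d - e) :=
  (Equiv.subtypeEquivRight (fun m => by rw [gvd_sum]; omega)).trans (Sym.equivNatSum (Fin s) (d - e)).symm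

private theorem gvd_finite (s e d : ℕ) :
    Finite {m : Fin s →₀ ℕ // Finsupp.weight (fun _ => (1 : ℕ)) m + e = d} := by
  rcases le_or_gt e d with h | h
  · exact Finite.of_equiv _ (gvdEq s e d h).symm
  · have : IsEmpty {m : Fin s →₀ ℕ // Finsupp.weight (fun _ => (1 : ℕ)) m + e = d} :=
      ⟨fun m => by have := m.2; omega⟩
    infer_instance

private theorem gvd_card (p e d : ℕ) :
    Nat.card {m : Fin (p + 1) →₀ ℕ // Finsupp.weight (fun _ => (1 : ℕ)) m + e = d} =
      if e ≤ d then (d - e + p).choose p else 0 := by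
  split_ifs with h
  · rw [Nat.card_congr (gvdEq (p + 1) e d h), Nat.card_eq_fintype_card, Sym.card_sym_eq_choose,
      Fintype.card_fin]
    have h1 : p + 1 + (d - e) - 1 = d - e + p := by omega
    rw [h1]
    exact Nat.choose_symm_add
  · have : IsEmpty {m : Fin (p + 1) →₀ ℕ // Finsupp.weight (fun _ => (1 : ℕ)) m + e = d} :=
      ⟨fun m => by have := m.2; omega⟩
    exact Nat.card_of_isEmpty

private noncomputable def gvdCf {k : Type} [Field k] {s b : ℕ} (dg : Fin b → ℕ) (d : ℕ) :
    ↥(gv dg d : Submodule k (Fin b → MvPolynomial (Fin s) k)) →ₗ[k]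
      ((Σ j : Fin b, {m : Fin s →₀ ℕ // Finsupp.weight (fun _ => (1 : ℕ)) m + dg j = d}) → k) where
  toFun v x := coeff x.2.1 (v.1 x.1)
  map_add' u v := by
    funext x
    simp
  map_smul' c v := by
    funext x
    simp

private theorem gvd_bij {k : Type} [Field k] {s b : ℕ} (dg : Fin b → ℕ) (d : ℕ) :
    Function.Bijective (gvdCf (k := k) (s := s) dg d) := by
  classical
  constructor
  · intro u v huv
    apply Subtype.ext
    funext j
    refine MvPolynomial.ext _ _ fun m => ?_
    by_cases hm : Finsupp.weight (fun _ => (1 : ℕ)) m + dg j = d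
    · exact congrFun huv ⟨j, ⟨m, hm⟩⟩
    · have h1 : ∀ w : ↥(gv dg d : Submodule k (Fin b → MvPolynomial (Fin s) k)), coeff m (w.1 j) = 0 := by
        intro w
        by_contra hne
        exact hm (w.2 j m hne)
      rw [h1 u, h1 v]
  · intro c
    have : ∀ j, Finite {m : Fin s →₀ ℕ // Finsupp.weight (fun _ => (1 : ℕ)) m + dg j = d} :=
      fun j => gvd_finite s (dg j) d
    let : ∀ j, Fintype {m : Fin s →₀ ℕ // Finsupp.weight (fun _ => (1 : ℕ)) m + dg j = d} :=
      fun j => Fintype.ofFinite _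
    let v : Fin b → MvPolynomial (Fin s) k := fun j =>
      ∑ m : {m : Fin s →₀ ℕ // Finsupp.weight (fun _ => (1 : ℕ)) m + dg j = d}, monomial m.1 (c ⟨j, m⟩)
    have hv : ∀ j (m : Fin s →₀ ℕ) (hm : Finsupp.weight (fun _ => (1 : ℕ)) m + dg j = d),
        coeff m (v j) = c ⟨j, ⟨m, hm⟩⟩ := by
      intro j m hm
      show coeff m (∑ m' : {m : Fin s →₀ ℕ // Finsupp.weight (fun _ => (1 : ℕ)) m + dg j = d},
        monomial m'.1 (c ⟨j, m'⟩)) = _
      rw [coeff_sum, Finset.sum_eq_single (⟨m, hm⟩ :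
        {m : Fin s →₀ ℕ // Finsupp.weight (fun _ => (1 : ℕ)) m + dg j = d})]
      · rw [coeff_monomial, if_pos rfl]
      · intro m' _ hne
        rw [coeff_monomial, if_neg]
        intro h
        exact hne (Subtype.ext h)
      · intro h
        exact absurd (Finset.mem_univ _) h
    have hv0 : ∀ j (m : Fin s →₀ ℕ), ¬ Finsupp.weight (fun _ => (1 : ℕ)) m + dg j = d →
        coeff m (v j) = 0 := by
      intro j m hm
      show coeff m (∑ m' : {m : Fin s →₀ ℕ // Finsupp.weight (fun _ => (1 : ℕ)) m + dg j = d},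
        monomial m'.1 (c ⟨j, m'⟩)) = _
      rw [coeff_sum]
      refine Finset.sum_eq_zero fun m' _ => ?_
      rw [coeff_monomial, if_neg]
      intro h
      exact hm (h ▸ m'.2)
    refine ⟨⟨v, ?_⟩, ?_⟩
    · intro j m hm
      by_contra hne
      exact hm (hv0 j m hne)
    · funext x
      exact hv x.1 x.2.1 x.2.2

theorem gv_finite {k : Type} [Field k] {s b : ℕ} (dg : Fin b → ℕ) (d : ℕ) :
    FiniteDimensional k ↥(gv dg d : Submodule k (Fin b → MvPolynomial (Fin s) k)) := by
  have : ∀ j, Finite {m : Fin s →₀ ℕ // Finsupp.weight (fun _ => (1 : ℕ)) m + dg j = d} :=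
    fun j => gvd_finite s (dg j) d
  exact Module.Finite.equiv (LinearEquiv.ofBijective (gvdCf (k := k) (s := s) dg d) (gvd_bij dg d)).symm

theorem finrank_gv {k : Type} [Field k] {p b : ℕ} (dg : Fin b → ℕ) (d : ℕ) :
    Module.finrank k ↥(gv dg d : Submodule k (Fin b → MvPolynomial (Fin (p + 1)) k)) =
      ∑ j, if dg j ≤ d then (d - dg j + p).choose p else 0 := by
  have : ∀ j, Finite {m : Fin (p + 1) →₀ ℕ // Finsupp.weight (fun _ => (1 : ℕ)) m + dg j = d} :=
    fun j => gvd_finite (p + 1) (dg j) d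
  let : ∀ j, Fintype {m : Fin (p + 1) →₀ ℕ // Finsupp.weight (fun _ => (1 : ℕ)) m + dg j = d} :=
    fun j => Fintype.ofFinite _
  rw [LinearEquiv.finrank_eq (LinearEquiv.ofBijective (gvdCf (k := k) (s := p + 1) dg d) (gvd_bij dg d)),
    Module.finrank_fintype_fun_eq_card, Fintype.card_sigma]
  refine Finset.sum_congr rfl fun j _ => ?_
  rw [← Nat.card_eq_fintype_card]
  exact gvd_card p (dg j) d

theorem gd_top {k : Type} [Field k] {s b : ℕ} (dg : Fin b → ℕ) (d : ℕ) :
    gd (⊤ : Submodule (MvPolynomial (Fin s) k) (Fin b → MvPolynomial (Fin s) k)) dg d =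
      Module.finrank k ↥(gv dg d : Submodule k (Fin b → MvPolynomial (Fin s) k)) := by
  unfold gd
  rw [Submodule.restrictScalars_top, top_inf_eq]

theorem rank_null {k : Type} [Field k] {s a b : ℕ} (dg : Fin a → ℕ) (dg' : Fin b → ℕ)
    (M : Matrix (Fin a) (Fin b) (MvPolynomial (Fin s) k)) (hM : HM dg dg' M) (d : ℕ) :
    Module.finrank k ↥(gv dg' d : Submodule k (Fin b → MvPolynomial (Fin s) k)) =
      gd (kerM M) dg' d + gd (imM M) dg d := by
  have := gv_finite (k := k) (s := s) dg' d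
  let V : Submodule k (Fin b → MvPolynomial (Fin s) k) := gv dg' d
  let f : ↥V →ₗ[k] (Fin a → MvPolynomial (Fin s) k) := (M.mulVecLin.restrictScalars k).comp V.subtype
  have hf : ∀ v : ↥V, f v = M.mulVec v.1 := fun v => rfl
  have h1 := LinearMap.finrank_range_add_finrank_ker f
  have h2 : LinearMap.range f = (imM M).restrictScalars k ⊓ gv dg d := by
    ext w
    rw [LinearMap.mem_range, Submodule.mem_inf, Submodule.restrictScalars_mem]
    constructor
    · rintro ⟨v, rfl⟩
      rw [hf]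
      exact ⟨(mem_imM M _).2 ⟨v.1, rfl⟩, mulVec_mem_gv dg dg' M hM d v.1 v.2⟩
    · rintro ⟨hw1, hw2⟩
      obtain ⟨u, hu, rfl⟩ := im_deg dg dg' M hM d w hw1 hw2
      exact ⟨⟨u, hu⟩, rfl⟩
  have h3 : (LinearMap.ker f).map V.subtype = (kerM M).restrictScalars k ⊓ gv dg' d := by
    ext w
    rw [Submodule.mem_map, Submodule.mem_inf, Submodule.restrictScalars_mem, mem_kerM]
    constructor
    · rintro ⟨v, hv, rfl⟩
      rw [LinearMap.mem_ker, hf] at hv
      exact ⟨hv, v.2⟩
    · rintro ⟨hw1, hw2⟩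
      exact ⟨⟨w, hw2⟩, LinearMap.mem_ker.2 hw1, rfl⟩
  have h4 : Module.finrank k ↥(LinearMap.ker f) = gd (kerM M) dg' d := by
    unfold gd
    rw [← h3]
    exact (Submodule.finrank_map_subtype_eq V (LinearMap.ker f)).symm
  have h5 : Module.finrank k ↥(LinearMap.range f) = gd (imM M) dg d := by
    unfold gd
    rw [h2]
  rw [h4, h5] at h1
  show Module.finrank k ↥V = _
  omega

end Pool.Agent.Helper21.BPA
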