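import Pool.Agent.Helper21.BPA.GDefs

/-!
PROJECT BP, block A2, module MinRank: pointwise exactness at all points `x ≠ 0` gives the ranks over the fraction field and nonvanishing minors.

Proof. Let `A = C[x_0, .., x_s]`, `K` its fraction field, `m = rank_K Q`, `t = rank_K P`. `P Q = 0` gives `t + m ≤ b`
(`Matrix.rank_add_rank_le_card_of_mul_eq_zero` or similar). For a point `x ≠ 0`: the rank of `Q(x)` is at most `m` and the rank of `P(x)` at most `t`
(a submatrix of `Q(x)` of size `m + 1` with nonzero determinant would give a submatrix of `Q` of size `m + 1` with nonzero determinant over `K`, as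
`eval x (det (Q.submatrix e g)) = det ((Q(x)).submatrix e g)`, `RingHom.map_det`), and by exactness and rank-nullity `rank P(x) + rank Q(x) = b`.
There is a point `x ≠ 0`, so `t + m ≥ b`; so `t + m = b` and `rank Q(x) = m` for all `x ≠ 0`; a matrix of rank `m` over a field has a nonzero minor of
size `m`. Useful (prove as private lemmas): for a matrix `N` over a field, `m ≤ N.rank ↔ ∃ e g, (N.submatrix e g).det ≠ 0` with
`e : Fin m → _`, `g : Fin m → _` (choose `m` independent columns (`Matrix.rank_eq_finrank_span_cols`, `exists_linearIndependent`...), then `m`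
independent rows of the resulting matrix).
-/

set_option autoImplicit false

namespace Pool.Agent.Helper21.BPA

open MvPolynomial Pool.Agent.Helper72.BP

private theorem exists_li_rows {K : Type*} [Field K] {b c : ℕ} (N : Matrix (Fin b) (Fin c) K) {m : ℕ}
    (hm : m ≤ N.rank) : ∃ e : Fin m → Fin b, LinearIndependent K (fun i => N (e i)) := by
  rw [N.rank_eq_finrank_span_row] at hm
  obtain ⟨f, hf, -, hli⟩ := Submodule.exists_fun_fin_finrank_span_eq K (Set.range N.row)
  choose e0 he0 using hf
  refine ⟨fun i => e0 (Fin.castLE hm i), ?_⟩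
  have h2 := hli.comp (Fin.castLE hm) (Fin.castLE_injective hm)
  have h3 : (f ∘ Fin.castLE hm) = fun i => N (e0 (Fin.castLE hm i)) := by
    funext i
    exact (he0 (Fin.castLE hm i)).symm
  rwa [h3] at h2

private theorem exists_minor {K : Type*} [Field K] {b c : ℕ} (N : Matrix (Fin b) (Fin c) K) {m : ℕ}
    (hm : m ≤ N.rank) : ∃ (e : Fin m → Fin b) (g : Fin m → Fin c), (N.submatrix e g).det ≠ 0 := by
  obtain ⟨e, he⟩ := exists_li_rows N hm
  have h1 : (N.submatrix e id).rank = m := by
    have h2 : LinearIndependent K (N.submatrix e id).row := he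
    rw [h2.rank_matrix, Fintype.card_fin]
  have h3 : m ≤ ((N.submatrix e id).transpose).rank := by
    rw [Matrix.rank_transpose, h1]
  obtain ⟨g, hg⟩ := exists_li_rows _ h3
  refine ⟨e, g, ?_⟩
  have h4 : LinearIndependent K ((N.submatrix e g).transpose).row := hg
  rw [Matrix.linearIndependent_rows_iff_isUnit] at h4
  have h5 := (Matrix.isUnit_iff_isUnit_det _).mp h4
  rw [Matrix.det_transpose] at h5
  exact h5.ne_zero

private theorem le_rank_of_minor {K : Type*} [Field K] {b c : ℕ} (N : Matrix (Fin b) (Fin c) K) {m : ℕ}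
    (e : Fin m → Fin b) (g : Fin m → Fin c) (h : (N.submatrix e g).det ≠ 0) : m ≤ N.rank := by
  have h1 : (N.submatrix e g).rank = m := by
    rw [Matrix.rank_of_isUnit _ ((Matrix.isUnit_iff_isUnit_det _).mpr (isUnit_iff_ne_zero.mpr h)),
      Fintype.card_fin]
  calc m = (N.submatrix e g).rank := h1.symm
    _ ≤ N.rank := Matrix.rank_submatrix_le N e g

private theorem rank_eval_le {s b c : ℕ} (Q : Matrix (Fin b) (Fin c) (MvPolynomial (Fin (s + 1)) ℂ))
    (x : Fin (s + 1) → ℂ) :
    (Q.map (eval x)).rank ≤ (Q.map (algebraMap (MvPolynomial (Fin (s + 1)) ℂ)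
        (FractionRing (MvPolynomial (Fin (s + 1)) ℂ)))).rank := by
  obtain ⟨e, g, h⟩ := exists_minor (Q.map (eval x)) (le_refl _)
  refine le_rank_of_minor _ e g ?_
  intro h0
  apply h
  have h1 : (Q.map (eval x)).submatrix e g = (eval x).mapMatrix (Q.submatrix e g) := by
    ext i j
    rfl
  have h2 : (Q.map (algebraMap (MvPolynomial (Fin (s + 1)) ℂ)
        (FractionRing (MvPolynomial (Fin (s + 1)) ℂ)))).submatrix e g =
      (algebraMap (MvPolynomial (Fin (s + 1)) ℂ)
        (FractionRing (MvPolynomial (Fin (s + 1)) ℂ))).mapMatrix (Q.submatrix e g) := by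
    ext i j
    rfl
  rw [h2, ← RingHom.map_det] at h0
  have h3 : (Q.submatrix e g).det = 0 :=
    (map_eq_zero_iff _ (IsFractionRing.injective (MvPolynomial (Fin (s + 1)) ℂ)
      (FractionRing (MvPolynomial (Fin (s + 1)) ℂ)))).mp h0
  rw [h1, ← RingHom.map_det, h3, map_zero]

private theorem rank_add_of_ex2 {K : Type*} [Field K] {a b c : ℕ} (A : Matrix (Fin a) (Fin b) K)
    (B : Matrix (Fin b) (Fin c) K) (h : Ex2 A B) : A.rank + B.rank = b := by
  have h1 : LinearMap.range B.mulVecLin = LinearMap.ker A.mulVecLin := by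
    ext v
    rw [LinearMap.mem_range, LinearMap.mem_ker]
    constructor
    · rintro ⟨u, hu⟩
      exact (h v).mpr ⟨u, hu⟩
    · intro hv
      obtain ⟨u, hu⟩ := (h v).mp hv
      exact ⟨u, hu⟩
  have h2 := LinearMap.finrank_range_add_finrank_ker A.mulVecLin
  rw [← h1, Module.finrank_fin_fun] at h2
  exact h2

theorem minRank {s a b c : ℕ} (P : Matrix (Fin a) (Fin b) (MvPolynomial (Fin (s + 1)) ℂ))
    (Q : Matrix (Fin b) (Fin c) (MvPolynomial (Fin (s + 1)) ℂ)) (hPQ : P * Q = 0)
    (hex : ∀ x : Fin (s + 1) → ℂ, x ≠ 0 → Ex2 (P.map (eval x)) (Q.map (eval x))) :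
    ∃ m : ℕ, (Q.map (algebraMap (MvPolynomial (Fin (s + 1)) ℂ)
        (FractionRing (MvPolynomial (Fin (s + 1)) ℂ)))).rank = m ∧
      (P.map (algebraMap (MvPolynomial (Fin (s + 1)) ℂ)
        (FractionRing (MvPolynomial (Fin (s + 1)) ℂ)))).rank + m = b ∧
      ∀ x : Fin (s + 1) → ℂ, x ≠ 0 → ∃ (e : Fin m → Fin b) (g : Fin m → Fin c),
        eval x ((Q.submatrix e g).det) ≠ 0 := by
  have h1 : (P.map (algebraMap (MvPolynomial (Fin (s + 1)) ℂ)
        (FractionRing (MvPolynomial (Fin (s + 1)) ℂ)))).rank +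
      (Q.map (algebraMap (MvPolynomial (Fin (s + 1)) ℂ)
        (FractionRing (MvPolynomial (Fin (s + 1)) ℂ)))).rank ≤ b := by
    have h2 := Matrix.rank_add_rank_le_card_of_mul_eq_zero
      (A := P.map (algebraMap (MvPolynomial (Fin (s + 1)) ℂ)
        (FractionRing (MvPolynomial (Fin (s + 1)) ℂ))))
      (B := Q.map (algebraMap (MvPolynomial (Fin (s + 1)) ℂ)
        (FractionRing (MvPolynomial (Fin (s + 1)) ℂ))))
      (by rw [← Matrix.map_mul, hPQ]; exact Matrix.map_zero _ (map_zero _))
    rwa [Fintype.card_fin] at h2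
  have h3 : ∀ x : Fin (s + 1) → ℂ, x ≠ 0 →
      (P.map (eval x)).rank + (Q.map (eval x)).rank = b := fun x hx => rank_add_of_ex2 _ _ (hex x hx)
  refine ⟨_, rfl, ?_, ?_⟩
  · have hx : (fun _ => 1 : Fin (s + 1) → ℂ) ≠ 0 := by
      intro h
      exact one_ne_zero (congrFun h 0)
    have := h3 _ hx
    have hP := rank_eval_le P (fun _ => 1)
    have hQ := rank_eval_le Q (fun _ => 1)
    omega
  · intro x hx
    have := h3 x hx
    have hP := rank_eval_le P x
    have hQ := rank_eval_le Q x
    have hm : (Q.map (algebraMap (MvPolynomial (Fin (s + 1)) ℂ)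
        (FractionRing (MvPolynomial (Fin (s + 1)) ℂ)))).rank ≤ (Q.map (eval x)).rank := by omega
    obtain ⟨e, g, h⟩ := exists_minor (Q.map (eval x)) hm
    refine ⟨e, g, ?_⟩
    rw [RingHom.map_det]
    exact h

end Pool.Agent.Helper21.BPA
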