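import Mathlib

/-!
PROJECT BP, block A2, module Null: an ideal of `C[x]` whose only possible zero is `0` contains a power of every variable.

Proof. Nullstellensatz `MvPolynomial.vanishingIdeal_zeroLocus_eq_radical`: `X a` vanishes on the zero locus of `I`, so it is in the radical;
take the maximum of the exponents.
-/

set_option autoImplicit false

namespace Pool.Agent.Helper21.BPA

open MvPolynomial

theorem null {s : ℕ} (I : Ideal (MvPolynomial (Fin s) ℂ))
    (h : ∀ x : Fin s → ℂ, (∀ f ∈ I, eval x f = 0) → x = 0) :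
    ∃ K : ℕ, ∀ a, (X a : MvPolynomial (Fin s) ℂ) ^ K ∈ I := by
  have h1 : ∀ a, ∃ n : ℕ, (X a : MvPolynomial (Fin s) ℂ) ^ n ∈ I := by
    intro a
    have h2 : (X a : MvPolynomial (Fin s) ℂ) ∈ vanishingIdeal ℂ (zeroLocus ℂ I) := by
      rw [mem_vanishingIdeal_iff]
      intro x hx
      have hx0 : x = 0 := h x fun f hf => by
        rw [← coe_aeval_eq_eval]
        exact hx f hf
      rw [hx0, aeval_X, Pi.zero_apply]
    rw [vanishingIdeal_zeroLocus_eq_radical] at h2
    exact h2
  choose n hn using h1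
  refine ⟨Finset.univ.sup n, fun a => ?_⟩
  exact I.pow_mem_of_pow_mem (hn a) (Finset.le_sup (Finset.mem_univ a))

/-- A matrix of polynomials which is injective at all points `x ≠ 0` is injective. -/
theorem inj_of_points {s b c : ℕ} (Q : Matrix (Fin b) (Fin c) (MvPolynomial (Fin (s + 1)) ℂ))
    (h : ∀ x : Fin (s + 1) → ℂ, x ≠ 0 → ∀ u, (Q.map (eval x)).mulVec u = 0 → u = 0)
    (v : Fin c → MvPolynomial (Fin (s + 1)) ℂ) (hv : Q.mulVec v = 0) : v = 0 := by
  have h1 : ∀ x : Fin (s + 1) → ℂ, x ≠ 0 → ∀ j, eval x (v j) = 0 := by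
    intro x hx j
    have h2 : (Q.map (eval x)).mulVec (fun j => eval x (v j)) = 0 := by
      funext i
      have h3 : eval x ((Q.mulVec v) i) = 0 := by
        rw [hv, Pi.zero_apply, map_zero]
      rw [Pi.zero_apply, ← h3, Matrix.mulVec, Matrix.mulVec, dotProduct, dotProduct, map_sum]
      refine Finset.sum_congr rfl fun k _ => ?_
      rw [map_mul, Matrix.map_apply]
    exact congrFun (h x hx _ h2) j
  funext j
  have h4 : (X 0 : MvPolynomial (Fin (s + 1)) ℂ) * v j = 0 := by
    apply MvPolynomial.funext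
    intro x
    rw [map_mul, map_zero, eval_X]
    by_cases hx : x = 0
    · rw [hx, Pi.zero_apply, zero_mul]
    · rw [h1 x hx j, mul_zero]
  rcases mul_eq_zero.1 h4 with h5 | h5
  · exact absurd h5 (X_ne_zero 0)
  · exact h5

end Pool.Agent.Helper21.BPA
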