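import Pool.Agent.Helper21.BPA.FGen
import Pool.Agent.Helper21.BPA.MinRank
import Pool.Agent.Helper21.BPA.Cramer
import Pool.Agent.Helper21.BPA.Null

/-!
PROJECT BP, block A2, module LargeExact: pointwise exactness at all `x ≠ 0` gives exactness in large degrees.

Proof. `m` from `minRank`. `I` = the ideal of all minors `(Q.submatrix e g).det`, `e g : Fin m → _`. Its only possible zero is `0`, so `X_a^K ∈ I` (`null`).
`I` kills `kerM P / imM Q` (`cramer`, `Submodule.span_induction`). `fGen` with `Z = kerM P`, `B = imM Q`, `l = 0`.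
-/

set_option autoImplicit false

namespace Pool.Agent.Helper21.BPA

open MvPolynomial Pool.Agent.Helper72.BP

theorem largeExact {s a b c : ℕ} (dga : Fin a → ℕ) (dgb : Fin b → ℕ) (dgc : Fin c → ℕ)
    (P : Matrix (Fin a) (Fin b) (MvPolynomial (Fin (s + 1)) ℂ))
    (Q : Matrix (Fin b) (Fin c) (MvPolynomial (Fin (s + 1)) ℂ)) (hP : HM dga dgb P) (hQ : HM dgb dgc Q)
    (hPQ : P * Q = 0)
    (hex : ∀ x : Fin (s + 1) → ℂ, x ≠ 0 → Ex2 (P.map (eval x)) (Q.map (eval x))) :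
    ∃ d0, ∀ d ≥ d0, gd (kerM P) dgb d = gd (imM Q) dgb d := by
  obtain ⟨m, hQr, hPr, hmin⟩ := minRank P Q hPQ hex
  let I : Ideal (MvPolynomial (Fin (s + 1)) ℂ) :=
    Ideal.span {f | ∃ (e : Fin m → Fin b) (g : Fin m → Fin c), f = (Q.submatrix e g).det}
  obtain ⟨K, hK⟩ := null I (by
    intro x hx
    by_contra hne
    obtain ⟨e, g, heg⟩ := hmin x hne
    exact heg (hx _ (Ideal.subset_span ⟨e, g, rfl⟩)))
  have hI : ∀ f ∈ I, ∀ v ∈ kerM P, f • v ∈ imM Q := by
    intro f hf v hv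
    have hv' : P.mulVec v = 0 := (mem_kerM P v).1 hv
    refine Submodule.span_induction (p := fun f _ => f • v ∈ imM Q) ?_ ?_ ?_ ?_ hf
    · rintro f ⟨e, g, rfl⟩
      obtain ⟨u, hu⟩ := cramer P Q hPQ hQr hPr e g v hv'
      rw [mem_imM]
      exact ⟨u, hu⟩
    · simp only [zero_smul]
      exact Submodule.zero_mem _
    · intro x y _ _ hx hy
      simp only [add_smul]
      exact Submodule.add_mem _ hx hy
    · intro a x _ hx
      simp only [smul_eq_mul, mul_smul]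
      exact Submodule.smul_mem _ _ hx
  have hBZ : imM Q ≤ kerM P := by
    intro v hv
    rw [mem_imM] at hv
    obtain ⟨u, rfl⟩ := hv
    rw [mem_kerM, Matrix.mulVec_mulVec, hPQ, Matrix.zero_mulVec]
  obtain ⟨d0, hd0⟩ := fGen dgb (kerM P) (imM Q) (gr_ker dga dgb P hP) (gr_im dgb dgc Q hQ) hBZ I hI 0
    (isHomogeneous_zero _ _ _) K (fun a => Ideal.mem_sup_left (hK a))
  refine ⟨d0 + 1, fun d hd => ?_⟩
  have key : (kerM P).restrictScalars ℂ ⊓ gv dgb d = (imM Q).restrictScalars ℂ ⊓ gv dgb d := by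
    apply le_antisymm
    · rintro v ⟨hv1, hv2⟩
      obtain ⟨d', rfl⟩ : ∃ d', d = d' + 1 := ⟨d - 1, by omega⟩
      obtain ⟨u, _, _, hu⟩ := hd0 d' (by omega) v hv1 hv2
      rw [zero_smul, sub_zero] at hu
      exact ⟨hu, hv2⟩
    · rintro v ⟨hv1, hv2⟩
      exact ⟨hBZ hv1, hv2⟩
  unfold gd
  rw [key]

end Pool.Agent.Helper21.BPA
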