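import Pool.Agent.Helper21.BPA.TruncAut

/-!
PROJECT BP, block A2, module LocReg: elements with independent differentials at a point form a regular sequence locally at the point.

Proof. Translate so that `w = 0` (the automorphism `X_i ↦ X_i + C (w i)`). Extend the family `a` by linear forms
to a family with index type `ι` (a basis of `ι → ℝ`; `ι'` is finite because of the independence): so we may assume that `ι' = ι` after an injection
`ι' → ι`; the other elements are not in `S` nor equal to `j`. Claim: if `a_j h ∈ (a_S) + m^(k+1)` then `h ∈ (a_S) + m^k`. By `truncAut` (for `k + 1`) write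
`h ≡ α(h1)` and the coefficients `e_i ≡ α(e_i1)` modulo `m^(k+1)`; then `α(x_j h1 - ∑_(i ∈ S) x_i e_i1) ∈ m^(k+1)`, so
`x_j h1 - ∑ x_i e_i1 ∈ m^(k+1)`; looking at monomials, `h1 ∈ (x_S) + m^k`: (drop from `h1` all monomials divisible by some `x_i`, `i ∈ S`; the rest `h2` has
`x_j h2 ∈ m^(k+1)` as no monomial of `x_j h2` is divisible by an `x_i`, `i ∈ S`; so `h2 ∈ m^k`). Apply `α`. So `a_j h ∈ (a_S)` gives
`h ∈ ⋂_k ((a_S) + m^k)`. Krull intersection in the Noetherian ring `ℝ[x]`, module `ℝ[x] ⧸ (a_S)`, ideal `m`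
(`Ideal.mem_iInf_smul_pow_eq_bot_iff`: `x ∈ ⨅ I^i • ⊤ ↔ ∃ r : I, r • x = x`): there is `r ∈ m` with `(1 - r) h ∈ (a_S)`; `δ = 1 - r`.
-/

set_option autoImplicit false

namespace Pool.Agent.Helper21.BPA

open MvPolynomial Pool.Agent.Helper72.BP

private lemma lr_eval_lin {ι : Type} [Fintype ι] (c : ι → ℝ) :
    eval (0 : ι → ℝ) (∑ x, C (c x) * X x) = 0 := by
  simp

private lemma lr_dv_lin {ι : Type} [Fintype ι] (c : ι → ℝ) (w : ι → ℝ) :
    dv w (∑ x, C (c x) * X x) = c := by
  classical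
  funext y
  simp [dv, pderiv_X, Pi.single_apply]

private lemma lr_mem_mx {ι : Type} (f : MvPolynomial ι ℝ) (h0 : eval (0 : ι → ℝ) f = 0) : f ∈ mx ι := by
  have h : f ∈ idealOfVars ι ℝ ^ 1 := by
    rw [mem_pow_idealOfVars_iff']
    intro x hx
    have hx0 : x = 0 := by
      have : x.degree = 0 := by omega
      exact (Finsupp.degree_eq_zero_iff x).1 this
    rw [hx0, ← constantCoeff_eq, ← eval_zero']
    exact h0
  rw [pow_one] at h
  exact h

private lemma lr_eval_mx {ι : Type} (f : MvPolynomial ι ℝ) (h : f ∈ mx ι) : eval (0 : ι → ℝ) f = 0 := by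
  have : mx ι ≤ RingHom.ker (eval (0 : ι → ℝ)) := by
    rw [mx, Ideal.span_le]
    rintro _ ⟨i, rfl⟩
    simp [RingHom.mem_ker]
  exact this h

private lemma lr_mono {ι : Type} (S : Set ι) (j : ι) (hj : j ∉ S) (h1 g : MvPolynomial ι ℝ)
    (hg : g ∈ Ideal.span (X '' S : Set (MvPolynomial ι ℝ))) (k : ℕ)
    (h : X j * h1 - g ∈ mx ι ^ (k + 1)) : h1 ∈ Ideal.span (X '' S : Set (MvPolynomial ι ℝ)) ⊔ mx ι ^ k := by
  classical
  rw [h1.as_sum]
  refine Ideal.sum_mem _ (fun d hd => ?_)
  by_cases hS : ∃ i ∈ S, d i ≠ 0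
  · apply Ideal.mem_sup_left
    rw [mem_ideal_span_X_image]
    intro m hm
    have : m = d := by
      by_contra hne
      rw [mem_support_iff, coeff_monomial, if_neg (Ne.symm hne)] at hm
      exact hm rfl
    rw [this]
    exact hS
  · apply Ideal.mem_sup_right
    have hc : coeff d h1 ≠ 0 := mem_support_iff.1 hd
    have h' : X j * h1 - g ∈ idealOfVars ι ℝ ^ (k + 1) := h
    rw [mem_pow_idealOfVars_iff'] at h'
    have hgd : coeff (Finsupp.single j 1 + d) g = 0 := by
      by_contra hne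
      rw [mem_ideal_span_X_image] at hg
      obtain ⟨i, hiS, hi⟩ := hg _ (mem_support_iff.2 hne)
      apply hS
      refine ⟨i, hiS, ?_⟩
      have hij : j ≠ i := by
        rintro rfl
        exact hj hiS
      rw [Finsupp.add_apply, Finsupp.single_eq_of_ne' hij, zero_add] at hi
      exact hi
    have hk : k ≤ d.degree := by
      by_contra hlt
      have h2 := h' (Finsupp.single j 1 + d) (by
        rw [map_add, Finsupp.degree_single]; omega)
      rw [coeff_sub, hgd, sub_zero, coeff_X_mul] at h2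
      exact hc h2
    have : (monomial d (coeff d h1) : MvPolynomial ι ℝ) ∈ idealOfVars ι ℝ ^ k :=
      (monomial_mem_pow_idealOfVars_iff k d hc).2 hk
    exact this

private lemma lr_step {ι : Type} [Finite ι] (b : ι → MvPolynomial ι ℝ) (h0 : ∀ i, eval (0 : ι → ℝ) (b i) = 0)
    (hind : LinearIndependent ℝ (fun i => dv (0 : ι → ℝ) (b i))) (S : Set ι) (j : ι) (hj : j ∉ S)
    (h : MvPolynomial ι ℝ) (hh : b j * h ∈ Ideal.span (b '' S)) (k : ℕ) :
    h ∈ Ideal.span (b '' S) ⊔ mx ι ^ k := by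
  obtain ⟨hs, hi⟩ := truncAut b h0 hind (k + 1)
  set α : MvPolynomial ι ℝ →+* MvPolynomial ι ℝ := (aeval b : MvPolynomial ι ℝ →ₐ[ℝ] MvPolynomial ι ℝ).toRingHom with hα
  have hαX : ∀ i, α (X i) = b i := fun i => by simp [hα]
  have hmap : Ideal.map α (Ideal.span (X '' S)) = Ideal.span (b '' S) := by
    rw [Ideal.map_span, ← Set.image_comp]
    congr 1
    apply Set.image_congr'
    intro i
    exact hαX i
  have hsur : Function.Surjective ((Ideal.Quotient.mk (mx ι ^ (k + 1))).comp α) := by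
    intro y
    obtain ⟨f, rfl⟩ := Ideal.Quotient.mk_surjective y
    obtain ⟨g, hg⟩ := hs f
    exact ⟨g, (Ideal.Quotient.eq.2 hg).symm⟩
  have h1 : (Ideal.Quotient.mk (mx ι ^ (k + 1))) (b j * h) ∈
      Ideal.map ((Ideal.Quotient.mk (mx ι ^ (k + 1))).comp α) (Ideal.span (X '' S)) := by
    rw [← Ideal.map_map, hmap]
    exact Ideal.mem_map_of_mem _ hh
  rw [Ideal.mem_map_iff_of_surjective _ hsur] at h1
  obtain ⟨g, hgJ, hg⟩ := h1
  obtain ⟨h1, hh1⟩ := hs h
  have hh1' : h - α h1 ∈ mx ι ^ (k + 1) := hh1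
  have h2 : X j * h1 - g ∈ mx ι ^ (k + 1) := by
    apply hi
    have e : α (X j * h1 - g) = (b j * h - α g) - b j * (h - α h1) := by
      rw [map_sub, map_mul, hαX]; ring
    have hm : α (X j * h1 - g) ∈ mx ι ^ (k + 1) := by
      rw [e]
      exact sub_mem (Ideal.Quotient.eq.1 hg.symm) (Ideal.mul_mem_left _ _ hh1')
    exact hm
  have h3 := lr_mono S j hj h1 g hgJ k h2
  have h4 : α h1 ∈ Ideal.span (b '' S) ⊔ mx ι ^ k := by
    have h5 := Ideal.mem_map_of_mem α h3
    rw [Ideal.map_sup, hmap, Ideal.map_pow] at h5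
    have hle : Ideal.map α (mx ι) ≤ mx ι := by
      rw [Ideal.map_le_iff_le_comap]
      conv_lhs => rw [mx]
      rw [Ideal.span_le]
      rintro _ ⟨i, rfl⟩
      change α (X i) ∈ mx ι
      rw [hαX]
      exact lr_mem_mx _ (h0 i)
    have hle2 : Ideal.span (b '' S) ⊔ Ideal.map α (mx ι) ^ k ≤ Ideal.span (b '' S) ⊔ mx ι ^ k :=
      sup_le_sup_left (Ideal.pow_right_mono hle k) _
    exact hle2 h5
  have e : h = (h - α h1) + α h1 := by ring
  rw [e]
  exact add_mem (Ideal.mem_sup_right (Ideal.pow_le_pow_right (Nat.le_succ k) hh1')) h4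

private lemma lr_krull {ι : Type} [Finite ι] (I : Ideal (MvPolynomial ι ℝ)) (h : MvPolynomial ι ℝ)
    (hh : ∀ k, h ∈ I ⊔ mx ι ^ k) : LM (0 : ι → ℝ) I h := by
  have h1 : (Ideal.Quotient.mk I h) ∈
      (⨅ i : ℕ, (mx ι) ^ i • ⊤ : Submodule (MvPolynomial ι ℝ) (MvPolynomial ι ℝ ⧸ I)) := by
    rw [Submodule.mem_iInf]
    intro k
    obtain ⟨x, hx, y, hy, hxy⟩ := Submodule.mem_sup.1 (hh k)
    rw [← hxy, map_add, Ideal.Quotient.eq_zero_iff_mem.2 hx, zero_add]
    have e : (Ideal.Quotient.mk I y) = y • (Ideal.Quotient.mk I 1) := by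
      change (Ideal.Quotient.mk I) y = (Ideal.Quotient.mk I) (y * 1)
      rw [mul_one]
    rw [e]
    exact Submodule.smul_mem_smul hy trivial
  rw [Ideal.mem_iInf_smul_pow_eq_bot_iff] at h1
  obtain ⟨r, hr⟩ := h1
  refine ⟨1 - (r : MvPolynomial ι ℝ), ?_, ?_⟩
  · rw [map_sub, map_one, lr_eval_mx _ r.2, sub_zero]
    exact one_ne_zero
  · have e : (Ideal.Quotient.mk I) ((r : MvPolynomial ι ℝ) * h) = Ideal.Quotient.mk I h := by
      rw [map_mul]
      exact hr
    rw [sub_mul, one_mul]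
    exact Ideal.Quotient.eq.1 e.symm

/-- The case of a family indexed by the variables, at the origin. -/
private lemma lr_full {ι : Type} [Finite ι] (b : ι → MvPolynomial ι ℝ) (h0 : ∀ i, eval (0 : ι → ℝ) (b i) = 0)
    (hind : LinearIndependent ℝ (fun i => dv (0 : ι → ℝ) (b i))) (S : Set ι) (j : ι) (hj : j ∉ S)
    (h : MvPolynomial ι ℝ) (hh : b j * h ∈ Ideal.span (b '' S)) : LM (0 : ι → ℝ) (Ideal.span (b '' S)) h :=
  lr_krull _ _ (lr_step b h0 hind S j hj h hh)

/-- The case of the origin. -/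
private lemma lr_zero {ι ι' : Type} [Finite ι] (a : ι' → MvPolynomial ι ℝ) (hz : ∀ j, eval (0 : ι → ℝ) (a j) = 0)
    (hind : LinearIndependent ℝ (fun j => dv (0 : ι → ℝ) (a j))) (S : Set ι') (j : ι') (hj : j ∉ S)
    (h : MvPolynomial ι ℝ) (hh : a j * h ∈ Ideal.span (a '' S)) : LM (0 : ι → ℝ) (Ideal.span (a '' S)) h := by
  classical
  have := Fintype.ofFinite ι
  let B := Module.Basis.extend hind.linearIndepOn_id
  let e := B.indexEquiv (Pi.basisFun ℝ ι)
  let f : ι' → ι := fun i => e ⟨dv (0 : ι → ℝ) (a i), hind.linearIndepOn_id.subset_extend _ ⟨i, rfl⟩⟩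
  have hfe : ∀ i, ((e.symm (f i)) : ι → ℝ) = dv (0 : ι → ℝ) (a i) := fun i => by
    simp only [f, Equiv.symm_apply_apply]
  have hfinj : Function.Injective f := by
    intro i i' hii
    apply hind.injective
    change dv (0 : ι → ℝ) (a i) = dv (0 : ι → ℝ) (a i')
    rw [← hfe i, ← hfe i', hii]
  let b : ι → MvPolynomial ι ℝ := fun i =>
    if hi : ∃ i', f i' = i then a hi.choose else ∑ x, C (((e.symm i) : ι → ℝ) x) * X x
  have hbf : ∀ i', b (f i') = a i' := fun i' => by
    have hex : ∃ i'', f i'' = f i' := ⟨i', rfl⟩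
    simp only [b, dif_pos hex]
    rw [hfinj hex.choose_spec]
  have hb0 : ∀ i, eval (0 : ι → ℝ) (b i) = 0 := fun i => by
    by_cases hi : ∃ i', f i' = i
    · obtain ⟨i', rfl⟩ := hi
      rw [hbf]
      exact hz i'
    · simp only [b, dif_neg hi]
      exact lr_eval_lin _
  have hbd : ∀ i, dv (0 : ι → ℝ) (b i) = ((e.symm i) : ι → ℝ) := fun i => by
    by_cases hi : ∃ i', f i' = i
    · obtain ⟨i', rfl⟩ := hi
      rw [hbf, hfe]
    · simp only [b, dif_neg hi]
      exact lr_dv_lin _ _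
  have hbind : LinearIndependent ℝ (fun i => dv (0 : ι → ℝ) (b i)) := by
    have h1 := (B.reindex e).linearIndependent
    have h2 : (⇑(B.reindex e) : ι → (ι → ℝ)) = fun i => dv (0 : ι → ℝ) (b i) := by
      funext i
      rw [hbd, Module.Basis.reindex_apply, Module.Basis.extend_apply_self]
    rw [h2] at h1
    exact h1
  have himg : b '' (f '' S) = a '' S := by
    rw [← Set.image_comp]
    apply Set.image_congr'
    intro i
    exact hbf i
  have h1 := lr_full b hb0 hbind (f '' S) (f j) (by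
    rintro ⟨i, hi, hij⟩
    exact hj (hfinj hij ▸ hi)) h (by rw [himg, hbf]; exact hh)
  rw [himg] at h1
  exact h1

private lemma lr_pderiv {ι : Type} (w : ι → ℝ) (x : ι) (f : MvPolynomial ι ℝ) :
    pderiv x (aeval (fun i => X i + C (w i)) f : MvPolynomial ι ℝ) = aeval (fun i => X i + C (w i)) (pderiv x f) := by
  classical
  induction f using MvPolynomial.induction_on with
  | C a => simp
  | add p q hp hq => rw [map_add, map_add, hp, hq, map_add, map_add]
  | mul_X p i hp =>
    rw [map_mul, pderiv_mul, hp, pderiv_mul, map_add, map_mul, map_mul, aeval_X]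
    congr 2
    by_cases hxi : i = x
    · subst hxi
      simp
    · rw [map_add, pderiv_C, add_zero, pderiv_X, Pi.single_apply, if_neg hxi]
      simp

private lemma lr_eval {ι : Type} (w : ι → ℝ) (f : MvPolynomial ι ℝ) :
    eval (0 : ι → ℝ) (aeval (fun i => X i + C (w i)) f : MvPolynomial ι ℝ) = eval w f := by
  induction f using MvPolynomial.induction_on with
  | C a => simp
  | add p q hp hq => rw [map_add, map_add, hp, hq, map_add]
  | mul_X p i hp =>
    rw [map_mul, map_mul, hp, aeval_X, map_mul]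
    simp

private lemma lr_inv {ι : Type} (w : ι → ℝ) (f : MvPolynomial ι ℝ) :
    (aeval (fun i => X i - C (w i)) (aeval (fun i => X i + C (w i)) f : MvPolynomial ι ℝ) : MvPolynomial ι ℝ) = f := by
  induction f using MvPolynomial.induction_on with
  | C a => simp
  | add p q hp hq => rw [map_add, map_add, hp, hq]
  | mul_X p i hp =>
    rw [map_mul, map_mul, hp, aeval_X]
    simp

private lemma lr_inv' {ι : Type} (w : ι → ℝ) (f : MvPolynomial ι ℝ) :
    (aeval (fun i => X i + C (w i)) (aeval (fun i => X i - C (w i)) f : MvPolynomial ι ℝ) : MvPolynomial ι ℝ) = f := by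
  induction f using MvPolynomial.induction_on with
  | C a => simp
  | add p q hp hq => rw [map_add, map_add, hp, hq]
  | mul_X p i hp =>
    rw [map_mul, map_mul, hp, aeval_X]
    simp

theorem locReg {ι ι' : Type} [Finite ι] (w : ι → ℝ) (a : ι' → MvPolynomial ι ℝ) (hz : ∀ j, eval w (a j) = 0)
    (hind : LinearIndependent ℝ (fun j => dv w (a j))) (S : Set ι') (j : ι') (hj : j ∉ S) (h : MvPolynomial ι ℝ)
    (hh : a j * h ∈ Ideal.span (a '' S)) : LM w (Ideal.span (a '' S)) h := by
  set T : MvPolynomial ι ℝ →ₐ[ℝ] MvPolynomial ι ℝ := aeval (fun i => X i + C (w i)) with hT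
  set T' : MvPolynomial ι ℝ →ₐ[ℝ] MvPolynomial ι ℝ := aeval (fun i => X i - C (w i)) with hT'
  have hTT : ∀ f, T' (T f) = f := lr_inv w
  have hTT' : ∀ f, T (T' f) = f := lr_inv' w
  have h0 : ∀ j, eval (0 : ι → ℝ) (T (a j)) = 0 := fun j => by
    rw [hT, lr_eval]
    exact hz j
  have hd : (fun j => dv (0 : ι → ℝ) (T (a j))) = fun j => dv w (a j) := by
    funext j x
    simp only [dv]
    rw [hT, lr_pderiv, lr_eval]
  have himg : Ideal.span ((fun j => T (a j)) '' S) = Ideal.map T (Ideal.span (a '' S)) := by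
    rw [Ideal.map_span, ← Set.image_comp]
    rfl
  have himg' : Ideal.span (a '' S) = Ideal.map T' (Ideal.span ((fun j => T (a j)) '' S)) := by
    rw [Ideal.map_span, ← Set.image_comp]
    congr 1
    apply Set.image_congr'
    intro i
    exact (hTT (a i)).symm
  obtain ⟨δ, hδ, hm⟩ := lr_zero (fun j => T (a j)) h0 (by rw [hd]; exact hind) S j hj (T h) (by
    rw [himg, ← map_mul]
    exact Ideal.mem_map_of_mem T hh)
  refine ⟨T' δ, ?_, ?_⟩
  · rw [← lr_eval w (T' δ)]
    change eval (0 : ι → ℝ) (T (T' δ)) ≠ 0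
    rw [hTT']
    exact hδ
  · have h1 := Ideal.mem_map_of_mem T' hm
    rw [← himg', map_mul, hTT] at h1
    exact h1

end Pool.Agent.Helper21.BPA
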