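import Mathlib

/-!
PROJECT BP, block A2, module Par: commuting endomorphisms of a real vector space of odd dimension have a joint eigenvector.

Proof. Strong induction on the dimension `n`. If all `T a` are scalar, any nonzero vector will do. Otherwise take `a` with `T a` not scalar and a real
eigenvalue `μ` of `T a` (the characteristic polynomial has odd degree `n`, so a real root). `K = ker (T a - μ)` and `R = range (T a - μ)` are stable under
all `T b`, both have dimension less than `n`, and `dim K + dim R = n` is odd, so one of them has odd dimension.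
-/

set_option autoImplicit false

namespace Pool.Agent.Helper21.BPA

open Polynomial Filter

/-- A monic real polynomial of odd degree has a real root. -/
private theorem exists_root_odd {p : ℝ[X]} (hp : p.Monic) (hd : Odd p.natDegree) : ∃ x, p.IsRoot x := by
  have hpos : 0 < p.natDegree := hd.pos
  have h1 : Tendsto (fun x => p.eval x) atTop atTop :=
    p.tendsto_atTop_of_leadingCoeff_nonneg (natDegree_pos_iff_degree_pos.1 hpos) (by rw [hp.leadingCoeff]; norm_num)
  let q : ℝ[X] := -(p.comp (-X))
  have hX : (-X : ℝ[X]).natDegree = 1 := by rw [natDegree_neg, natDegree_X]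
  have hqd : q.natDegree = p.natDegree := by
    show (-(p.comp (-X))).natDegree = _
    rw [natDegree_neg, natDegree_comp, hX, mul_one]
  have hql : q.leadingCoeff = 1 := by
    show (-(p.comp (-X))).leadingCoeff = _
    rw [leadingCoeff_neg, leadingCoeff_comp (by rw [hX]; norm_num), hp.leadingCoeff, leadingCoeff_neg, leadingCoeff_X,
      hd.neg_one_pow]
    norm_num
  have h2 : Tendsto (fun x => q.eval x) atTop atTop :=
    q.tendsto_atTop_of_leadingCoeff_nonneg (natDegree_pos_iff_degree_pos.1 (by rw [hqd]; exact hpos))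
      (by rw [hql]; norm_num)
  obtain ⟨x, hx⟩ := (h1.eventually_ge_atTop 0).exists
  obtain ⟨y, hy⟩ := (h2.eventually_ge_atTop 0).exists
  have hy' : p.eval (-y) ≤ 0 := by
    have : q.eval y = -(p.eval (-y)) := by
      show (-(p.comp (-X))).eval y = _
      rw [eval_neg, eval_comp, eval_neg, eval_X]
    rw [this] at hy
    linarith
  have h3 : (0 : ℝ) ∈ Set.range (fun z => p.eval z) := by
    refine mem_range_of_exists_le_of_exists_ge p.continuous ⟨-y, hy'⟩ ⟨x, hx⟩
  obtain ⟨z, hz⟩ := h3
  exact ⟨z, hz⟩

/-- The induction. -/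
private theorem par_aux (n : ℕ) : ∀ (V : Type) [AddCommGroup V] [Module ℝ V] [FiniteDimensional ℝ V],
    Module.finrank ℝ V = n → Odd n → ∀ {s : ℕ} (T : Fin s → Module.End ℝ V), (∀ a b, Commute (T a) (T b)) →
    ∃ v : V, v ≠ 0 ∧ ∃ ξ : Fin s → ℝ, ∀ a, T a v = ξ a • v := by
  induction n using Nat.strong_induction_on with
  | _ n ih =>
  intro V _ _ _ hn hodd s T hT
  by_cases h : ∀ a, ∃ c : ℝ, ∀ v, T a v = c • v
  · choose ξ hξ using h
    have : Nontrivial V := Module.nontrivial_of_finrank_pos (R := ℝ) (by rw [hn]; exact hodd.pos)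
    obtain ⟨v, hv⟩ := exists_ne (0 : V)
    exact ⟨v, hv, ξ, fun a => hξ a v⟩
  · push Not at h
    obtain ⟨a, ha⟩ := h
    obtain ⟨μ, hμ⟩ := exists_root_odd (LinearMap.charpoly_monic (T a)) (by rw [LinearMap.charpoly_natDegree, hn]; exact hodd)
    have hev : Module.End.HasEigenvalue (T a) μ := by
      rw [Module.End.hasEigenvalue_iff_isRoot_charpoly]
      exact hμ
    let S : Module.End ℝ V := T a - μ • 1
    have hSb : ∀ b, Commute S (T b) := fun b => (hT a b).sub_left ((Commute.one_left (T b)).smul_left μ)
    have hSv : ∀ b v, S (T b v) = T b (S v) := fun b v => LinearMap.congr_fun (hSb b) v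
    -- the step for a stable subspace of smaller odd dimension
    have step : ∀ W : Submodule ℝ V, (∀ b, ∀ v ∈ W, T b v ∈ W) → Module.finrank ℝ W < n → Odd (Module.finrank ℝ W) →
        ∃ v : V, v ≠ 0 ∧ ∃ ξ : Fin s → ℝ, ∀ a, T a v = ξ a • v := by
      intro W hW hlt hWo
      obtain ⟨v, hv, ξ, hξ⟩ := ih _ hlt W rfl hWo (fun b => (T b).restrict (hW b)) (fun b c => by
        apply LinearMap.ext
        intro v
        apply Subtype.ext
        exact LinearMap.congr_fun (hT b c) v)
      refine ⟨v, fun h0 => hv (Subtype.ext h0), ξ, fun b => ?_⟩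
      exact congrArg Subtype.val (hξ b)
    have hK : ∀ b, ∀ v ∈ LinearMap.ker S, T b v ∈ LinearMap.ker S := by
      intro b v hv
      rw [LinearMap.mem_ker] at hv ⊢
      rw [hSv, hv, map_zero]
    have hR : ∀ b, ∀ v ∈ LinearMap.range S, T b v ∈ LinearMap.range S := by
      rintro b _ ⟨v, rfl⟩
      exact ⟨T b v, hSv b v⟩
    have hsum := LinearMap.finrank_range_add_finrank_ker S
    rw [hn] at hsum
    have hKpos : 0 < Module.finrank ℝ (LinearMap.ker S) := by
      rw [Module.finrank_pos_iff, Submodule.nontrivial_iff_ne_bot]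
      obtain ⟨v, hv⟩ := hev.exists_hasEigenvector
      intro hbot
      have hvK : v ∈ LinearMap.ker S := by
        rw [LinearMap.mem_ker]
        show T a v - μ • v = 0
        rw [hv.apply_eq_smul, sub_self]
      rw [hbot, Submodule.mem_bot] at hvK
      exact hv.2 hvK
    have hKlt : Module.finrank ℝ (LinearMap.ker S) < n := by
      rw [← hn]
      apply Submodule.finrank_lt
      intro htop
      obtain ⟨v, hv⟩ := ha μ
      have hvK : v ∈ LinearMap.ker S := by
        rw [htop]
        exact Submodule.mem_top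
      rw [LinearMap.mem_ker] at hvK
      have h0 : T a v - μ • v = 0 := hvK
      exact hv (sub_eq_zero.1 h0)
    rcases Nat.even_or_odd (Module.finrank ℝ (LinearMap.ker S)) with he | ho
    · refine step (LinearMap.range S) hR (by omega) ?_
      rw [← hsum] at hodd
      rcases Nat.even_or_odd (Module.finrank ℝ (LinearMap.range S)) with he' | ho'
      · exact absurd (he'.add he) (Nat.not_even_iff_odd.2 hodd)
      · exact ho'
    · exact step (LinearMap.ker S) hK hKlt ho

theorem par {V : Type} [AddCommGroup V] [Module ℝ V] [FiniteDimensional ℝ V] (hV : Odd (Module.finrank ℝ V))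
    {s : ℕ} (T : Fin s → Module.End ℝ V) (hT : ∀ a b, Commute (T a) (T b)) :
    ∃ v : V, v ≠ 0 ∧ ∃ ξ : Fin s → ℝ, ∀ a, T a v = ξ a • v :=
  par_aux _ V rfl hV T hT

end Pool.Agent.Helper21.BPA
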