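import Pool.Agent.Helper21.BPA.FGen
import Pool.Agent.Helper21.BPA.GvDim
import Pool.Agent.Helper21.BPA.GMod

/-!
PROJECT BP, block A2, module Par2: a graded module `H = Z/B` killed by `I`, such that the real zeros of `I` are on the line of `ξ`, and `H` vanishes locally
at `ξ`, has eventually constant even dimension.

Proof. `l = ∑ C (c a) * X a`. By `fGen` (`H_(d+1) = l H_d`, `d ≥ d0`). Let `W = (Fin b → A) ⧸ B` (as a real vector space), `T a` = multiplication by `X a`,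
`V d` = image of `Z ∩ gv dg d` in `W`; `finrank (V d) + gd B dg d = gd Z dg d`. By `gMod` the dimension is constant `N` for `d ≥ d1`. Suppose `N` odd:
there are `v ∈ Z ∩ gv dg d1`, `v ∉ B`, `x : Fin s → ℝ` with `X_a v ≡ x_a l v mod B`.
(1) For `g` homogeneous of degree `e`: `g v ≡ g(x) l^e v mod B` (monomials: induction on the degree, multiply by `X_a` and by `l`).
(2) `l^e v ∉ B` for all `e` (injectivity of `l` on `V d`, `d ≥ d1`; `l^e v ∈ Z ∩ gv dg (d1 + e)`).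
(3) `f ∈ I` implies `f(x) = 0`: `f v ∈ B`, `B` graded, so `cmp dg (d1+e) (f v) = f_e v ∈ B`, so `f_e(x) l^e v ∈ B`, `f_e(x) = 0` for all `e`.
(4) So `x = t • ξ` (`huniq`). (5) `δ v ∈ B` with `δ(ξ) ≠ 0` (`hloc`): as in (3) `δ_e(x) = 0` for all `e`. `t ≠ 0`: `l v = ∑ c_a X_a v ≡ l(x) l v`, so `l(x) = 1`
by (2), `x ≠ 0`. `δ_e(x) = t^e δ_e(ξ)`, so `δ(ξ) = 0`, contradiction.
-/

set_option autoImplicit false

namespace Pool.Agent.Helper21.BPA

open MvPolynomial Pool.Agent.Helper72.BP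

private theorem aeval_hom {s e : ℕ} {R : Type} [CommRing R] [Algebra ℝ R]
    (g : MvPolynomial (Fin s) ℝ) (hg : g.IsHomogeneous e) (x : Fin s → ℝ) (t : R) :
    aeval (fun a => x a • t) g = (eval x g) • t ^ e := by
  rw [aeval_def, eval₂_eq', eval_eq', Finset.sum_smul]
  refine Finset.sum_congr rfl fun m hm => ?_
  have h1 : ∑ i, m i = e := by
    have h2 : Finsupp.weight 1 m = e := hg (mem_support_iff.mp hm)
    have h4 : Finsupp.weight 1 m = m.degree := by
      rw [Finsupp.degree_eq_weight_one]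
      rfl
    rw [← h2, h4, Finsupp.degree_eq_sum]
  have h3 : ∀ i, (x i • t) ^ (m i) = algebraMap ℝ R (x i ^ m i) * t ^ (m i) := by
    intro i
    rw [Algebra.smul_def, mul_pow, map_pow]
  rw [Finset.prod_congr rfl fun i _ => h3 i, Finset.prod_mul_distrib, ← map_prod,
    Finset.prod_pow_eq_pow_sum, h1, Algebra.smul_def, map_mul, mul_assoc]

private noncomputable def ann {s b : ℕ}
    (B : Submodule (MvPolynomial (Fin s) ℝ) (Fin b → MvPolynomial (Fin s) ℝ))
    (u : Fin b → MvPolynomial (Fin s) ℝ) : Ideal (MvPolynomial (Fin s) ℝ) :=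
  B.comap (LinearMap.toSpanSingleton (MvPolynomial (Fin s) ℝ) _ u)

private theorem mem_ann {s b : ℕ}
    (B : Submodule (MvPolynomial (Fin s) ℝ) (Fin b → MvPolynomial (Fin s) ℝ))
    (u : Fin b → MvPolynomial (Fin s) ℝ) (g : MvPolynomial (Fin s) ℝ) :
    g ∈ ann B u ↔ g • u ∈ B := Iff.rfl

private theorem key {s e : ℕ} (J : Ideal (MvPolynomial (Fin s) ℝ)) (x : Fin s → ℝ)
    (l : MvPolynomial (Fin s) ℝ) (h : ∀ a, X a - C (x a) * l ∈ J) (g : MvPolynomial (Fin s) ℝ)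
    (hg : g.IsHomogeneous e) : g - C (eval x g) * l ^ e ∈ J := by
  let φ : MvPolynomial (Fin s) ℝ →ₐ[ℝ] (MvPolynomial (Fin s) ℝ ⧸ J) := Ideal.Quotient.mkₐ ℝ J
  have hφ : φ = aeval (φ ∘ X) := aeval_unique φ
  have h1 : (φ ∘ X) = fun a => x a • φ l := by
    funext a
    have h2 : φ (X a) = φ (C (x a) * l) := Ideal.Quotient.eq.mpr (h a)
    rw [C_mul', map_smul] at h2
    exact h2
  have h3 : φ g = φ (C (eval x g) * l ^ e) := by
    rw [C_mul', map_smul, map_pow, ← aeval_hom g hg x (φ l), ← h1, ← hφ]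
  exact Ideal.Quotient.eq.mp h3

private theorem eval_smul_hom {s e : ℕ} (g : MvPolynomial (Fin s) ℝ) (hg : g.IsHomogeneous e)
    (x : Fin s → ℝ) (t : ℝ) : eval (t • x) g = t ^ e * eval x g := by
  have h1 := aeval_hom g hg x t
  have h2 : (fun a => x a • t) = t • x := by
    funext a
    rw [Pi.smul_apply, smul_eq_mul, smul_eq_mul, mul_comm]
  rw [h2, smul_eq_mul, mul_comm] at h1
  rw [← h1, ← coe_aeval_eq_eval]
  rfl

private theorem eval_zero_of {s : ℕ} (g : MvPolynomial (Fin s) ℝ) (x : Fin s → ℝ)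
    (h : ∀ e, eval x (homogeneousComponent e g) = 0) : eval x g = 0 := by
  rw [← sum_homogeneousComponent g, map_sum]
  exact Finset.sum_eq_zero fun e _ => h e

private theorem lhom {s : ℕ} (c : Fin s → ℝ) :
    (∑ a, C (c a) * X a : MvPolynomial (Fin s) ℝ).IsHomogeneous 1 :=
  IsHomogeneous.sum _ _ _ fun a _ => isHomogeneous_C_mul_X _ _

private theorem rank_quot {s b : ℕ} (dg : Fin b → ℕ)
    (Z B : Submodule (MvPolynomial (Fin s) ℝ) (Fin b → MvPolynomial (Fin s) ℝ))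
    (hBZ : B ≤ Z) (d : ℕ) :
    Module.finrank ℝ ↥((Z.restrictScalars ℝ ⊓ gv dg d).map (B.restrictScalars ℝ).mkQ) +
      gd B dg d = gd Z dg d := by
  have hfd := gv_finite (k := ℝ) (s := s) dg d
  let S : Submodule ℝ (Fin b → MvPolynomial (Fin s) ℝ) := Z.restrictScalars ℝ ⊓ gv dg d
  have hS : FiniteDimensional ℝ S := Submodule.finiteDimensional_of_le (inf_le_right)
  have h1 := LinearMap.finrank_range_add_finrank_ker ((B.restrictScalars ℝ).mkQ.domRestrict S)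
  rw [LinearMap.range_domRestrict, LinearMap.ker_domRestrict, Submodule.ker_mkQ] at h1
  have h2 : Submodule.comap S.subtype (B.restrictScalars ℝ) =
      (B.restrictScalars ℝ ⊓ gv dg d).submoduleOf S := by
    ext v
    constructor
    · intro hv
      exact ⟨hv, v.2.2⟩
    · intro hv
      exact hv.1
  have h3 : (B.restrictScalars ℝ ⊓ gv dg d) ≤ S := inf_le_inf_right _ hBZ
  rw [h2, (Submodule.submoduleOfEquivOfLe h3).finrank_eq] at h1
  exact h1

theorem par2 {s b : ℕ} (dg : Fin b → ℕ)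
    (Z B : Submodule (MvPolynomial (Fin s) ℝ) (Fin b → MvPolynomial (Fin s) ℝ))
    (hZ : Gr dg Z) (hB : Gr dg B) (hBZ : B ≤ Z) (I : Ideal (MvPolynomial (Fin s) ℝ))
    (hI : ∀ f ∈ I, ∀ v ∈ Z, f • v ∈ B) (c : Fin s → ℝ) (K : ℕ)
    (hK : ∀ a, (X a : MvPolynomial (Fin s) ℝ) ^ K ∈ I ⊔ Ideal.span {∑ a, C (c a) * X a})
    (ξ : Fin s → ℝ) (huniq : ∀ x : Fin s → ℝ, (∀ f ∈ I, eval x f = 0) → ∃ t : ℝ, x = t • ξ)
    (hloc : ∀ v ∈ Z, ∃ δ : MvPolynomial (Fin s) ℝ, eval ξ δ ≠ 0 ∧ δ • v ∈ B) :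
    ∃ N, Even N ∧ ∃ d1, ∀ d ≥ d1, gd Z dg d = gd B dg d + N := by
  obtain ⟨d0, hd0⟩ := fGen dg Z B hZ hB hBZ I hI _ (lhom c) K hK
  let F := Fin b → MvPolynomial (Fin s) ℝ
  let l : MvPolynomial (Fin s) ℝ := ∑ a, C (c a) * X a
  let Bk : Submodule ℝ F := B.restrictScalars ℝ
  let mX : Fin s → F →ₗ[ℝ] F := fun a =>
    { toFun := fun v => (X a : MvPolynomial (Fin s) ℝ) • v
      map_add' := fun u v => smul_add _ u v
      map_smul' := fun r v => smul_comm _ r v }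
  have hmX : ∀ a, Bk ≤ Bk.comap (mX a) := fun a v hv => B.smul_mem _ hv
  let T : Fin s → Module.End ℝ (F ⧸ Bk) := fun a => Bk.mapQ Bk (mX a) (hmX a)
  have hTa : ∀ a (v : F), T a (Bk.mkQ v) = Bk.mkQ ((X a : MvPolynomial (Fin s) ℝ) • v) :=
    fun a v => rfl
  have hcomm : ∀ a b, Commute (T a) (T b) := by
    intro a b
    refine LinearMap.ext fun w => ?_
    obtain ⟨v, rfl⟩ := Bk.mkQ_surjective w
    change T a (T b (Bk.mkQ v)) = T b (T a (Bk.mkQ v))
    rw [hTa, hTa, hTa, hTa, smul_comm]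
  let V : ℕ → Submodule ℝ (F ⧸ Bk) := fun d => (Z.restrictScalars ℝ ⊓ gv dg d).map Bk.mkQ
  have hfin : ∀ d, FiniteDimensional ℝ ↥(V d) := by
    intro d
    have hfd := gv_finite (k := ℝ) (s := s) dg d
    have hS : FiniteDimensional ℝ ↥(Z.restrictScalars ℝ ⊓ gv dg d : Submodule ℝ F) :=
      Submodule.finiteDimensional_of_le inf_le_right
    infer_instance
  have hXV : ∀ a d, ∀ v ∈ V d, T a v ∈ V (d + 1) := by
    rintro a d _ ⟨u, ⟨hu1, hu2⟩, rfl⟩
    rw [hTa]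
    exact ⟨_, ⟨Z.smul_mem _ hu1, smul_mem_gv dg d 1 u hu2 _ (isHomogeneous_X _ _)⟩, rfl⟩
  have hLsum : ∀ v : F, ∑ a, c a • T a (Bk.mkQ v) = Bk.mkQ (l • v) := by
    intro v
    have h1 : l • v = ∑ a, c a • ((X a : MvPolynomial (Fin s) ℝ) • v) := by
      change (∑ a, C (c a) * X a : MvPolynomial (Fin s) ℝ) • v = _
      rw [Finset.sum_smul]
      refine Finset.sum_congr rfl fun a _ => ?_
      rw [C_mul', smul_assoc]
    rw [h1, map_sum]
    refine Finset.sum_congr rfl fun a _ => ?_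
    rw [hTa]
    exact (LinearMap.map_smul Bk.mkQ (c a) _)
  have hl : ∀ d ≥ d0, ∀ v ∈ V (d + 1), ∃ u ∈ V d, v = ∑ a, c a • T a u := by
    rintro d hd _ ⟨v, ⟨hv1, hv2⟩, rfl⟩
    obtain ⟨u, hu1, hu2, hu3⟩ := hd0 d hd v hv1 hv2
    refine ⟨Bk.mkQ u, ⟨u, ⟨hu1, hu2⟩, rfl⟩, ?_⟩
    rw [hLsum]
    exact (Submodule.Quotient.eq Bk).mpr hu3
  obtain ⟨d1, _, N, hN, hinj, hodd⟩ := gMod T hcomm c V hfin hXV d0 hl
  refine ⟨N, ?_, d1, ?_⟩
  swap
  · intro d hd
    rw [← rank_quot dg Z B hBZ d, add_comm]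
    congr 1
    exact hN d hd
  by_contra hev
  obtain ⟨w, ⟨u, ⟨hu1, hu2⟩, rfl⟩, hw0, x, hx⟩ := hodd (Nat.not_even_iff_odd.mp hev)
  have hu0 : u ∉ B := fun h => hw0 ((Submodule.Quotient.mk_eq_zero Bk).mpr h)
  have hann : ∀ a, X a - C (x a) * l ∈ ann B u := by
    intro a
    rw [mem_ann, sub_smul, C_mul', smul_assoc]
    have h1 := hx a
    rw [hTa, hLsum, ← map_smul] at h1
    exact (Submodule.Quotient.eq Bk).mp h1
  have hpow : ∀ e, l ^ e • u ∈ gv dg (d1 + e) ∧ l ^ e ∉ ann B u := by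
    intro e
    induction e with
    | zero =>
      rw [pow_zero]
      refine ⟨by rw [one_smul]; exact hu2, ?_⟩
      rw [mem_ann, one_smul]
      exact hu0
    | succ e ih =>
      have h1 : l ^ (e + 1) • u = l • (l ^ e • u) := by
        rw [pow_succ', mul_smul]
      rw [mem_ann, h1]
      refine ⟨smul_mem_gv dg (d1 + e) 1 _ ih.1 l (lhom c), ?_⟩
      intro h2
      apply ih.2
      rw [mem_ann]
      have h3 : Bk.mkQ (l ^ e • u) ∈ V (d1 + e) := ⟨_, ⟨Z.smul_mem _ hu1, ih.1⟩, rfl⟩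
      have h4 : ∑ a, c a • T a (Bk.mkQ (l ^ e • u)) = 0 := by
        rw [hLsum]
        exact (Submodule.Quotient.mk_eq_zero Bk).mpr h2
      exact (Submodule.Quotient.mk_eq_zero Bk).mp (hinj (d1 + e) (by omega) _ h3 h4)
  have hcomp : ∀ f : MvPolynomial (Fin s) ℝ, f • u ∈ B → ∀ e,
      eval x (homogeneousComponent e f) = 0 := by
    intro f hf e
    by_contra hne
    have h1 : homogeneousComponent e f ∈ ann B u := by
      rw [mem_ann, ← cmp_smul dg d1 e u hu2 f]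
      exact hB _ hf _
    have h2 := key (ann B u) x l hann _ (homogeneousComponent_isHomogeneous e f)
    have h3 : C (eval x (homogeneousComponent e f)) * l ^ e ∈ ann B u := by
      have h4 := (ann B u).sub_mem h1 h2
      rwa [sub_sub_cancel] at h4
    have h5 := (ann B u).mul_mem_left (C (eval x (homogeneousComponent e f))⁻¹) h3
    rw [← mul_assoc, ← C_mul, inv_mul_cancel₀ hne, C_1, one_mul] at h5
    exact (hpow e).2 h5
  obtain ⟨t, ht⟩ := huniq x fun f hf => eval_zero_of f x (hcomp f (hI f hf u hu1))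
  have hl1 : eval x l = 1 := by
    have h1 := key (ann B u) x l hann l (lhom c)
    rw [pow_one] at h1
    by_contra hne
    have h2 : (1 - eval x l) ≠ 0 := fun h => hne (sub_eq_zero.mp h).symm
    have h3 : l - C (eval x l) * l = C (1 - eval x l) * l := by
      rw [C_sub, C_1, sub_mul, one_mul]
    rw [h3] at h1
    have h5 := (ann B u).mul_mem_left (C (1 - eval x l)⁻¹) h1
    rw [← mul_assoc, ← C_mul, inv_mul_cancel₀ h2, C_1, one_mul] at h5
    exact (hpow 1).2 (by rwa [pow_one])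
  have ht0 : t ≠ 0 := by
    rintro rfl
    rw [zero_smul] at ht
    have h1 := eval_smul_hom l (lhom c) x 0
    rw [zero_smul, ← ht, hl1, pow_one, zero_mul] at h1
    exact one_ne_zero h1
  obtain ⟨δ, hδ1, hδ2⟩ := hloc u hu1
  apply hδ1
  refine eval_zero_of δ ξ fun e => ?_
  have h1 := hcomp δ hδ2 e
  rw [ht, eval_smul_hom _ (homogeneousComponent_isHomogeneous e δ)] at h1
  exact (mul_eq_zero.mp h1).resolve_left (pow_ne_zero e ht0)

end Pool.Agent.Helper21.BPA
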