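import Pool.Agent.Helper21.BPA.GDefs

/-!
PROJECT BP, block A2: the equations of the section `x ↦ ((x,0), σ'(x))` and the family of functions with independent differentials.
-/

set_option autoImplicit false

namespace Pool.Agent.Helper21.BPA

open MvPolynomial Pool.Agent.Helper72.BP

/-- The equations of the section: `y_k` for `k : κ` and `t_s - σ'_s(y_0, .., y_p)` for `s : τ`. -/
noncomputable def vv {p : ℕ} {κ τ : Type} (σ' : τ → MvPolynomial (Fin (p + 1)) ℝ) :
    κ ⊕ τ → MvPolynomial (Var (Ix p κ) τ) ℝ :=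
  Sum.elim (fun k => X (Sum.inl (Sum.inr k)))
    (fun s => X (Sum.inr s) - rename (fun a => (Sum.inl (Sum.inl a) : Var (Ix p κ) τ)) (σ' s))

/-- `F`, the `f_j`, and all equations of the section but the one of `s0`. -/
noncomputable def fam {p : ℕ} {κ τ : Type} (F : MvPolynomial (Var (Ix p κ) τ) ℝ)
    (f : Fin p → MvPolynomial (Var (Ix p κ) τ) ℝ) (σ' : τ → MvPolynomial (Fin (p + 1)) ℝ) (s0 : τ) :
    Option (Fin p ⊕ {k : κ ⊕ τ // k ≠ Sum.inr s0}) → MvPolynomial (Var (Ix p κ) τ) ℝ
  | none => F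
  | some (Sum.inl j) => f j
  | some (Sum.inr k) => vv σ' k.1

end Pool.Agent.Helper21.BPA
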