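import Pool.Agent.Helper21.BPA.GDefs

/-!
PROJECT BP, block A2, module TruncAut: `x_i ↦ a_i` with `a_i(0) = 0` and independent differentials at `0` is an automorphism modulo `m^k`.

Proof. `m` = the ideal generated by the variables = `{f | eval 0 f = 0}`. `α = aeval a`. (1) `α (m) ⊆ m`. (2) `m ⊆ span_ℝ {a_i} + m²`: `a_i = ∑_x (dv 0 (a i) x) X_x + m²`
(linear part), the vectors `dv 0 (a i)`, `i : ι`, are a basis of `ι → ℝ`, so each `X_x` is a real combination of the `a_i` modulo `m²`. (3) So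
`m^j ⊆ α(m^j) + m^(j+1)` for all `j` (products of `j` elements), so by induction on `k`, `ℝ[x] = α(ℝ[x]) + m^k`. That is the first claim.
(4) `α` induces a surjective linear endomorphism of the finite dimensional space `ℝ[x] ⧸ m^k`
(finite: monomials of degree `< k` span; or `ℝ[x] ⧸ m^k` is Artinian/Noetherian: `Module.Finite`), so it is injective. That is the second claim.
-/

set_option autoImplicit false

namespace Pool.Agent.Helper21.BPA

open MvPolynomial Pool.Agent.Helper72.BP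

/-- The ideal of the origin. -/
noncomputable def mx (ι : Type) : Ideal (MvPolynomial ι ℝ) := Ideal.span (Set.range X)

private theorem mx_eq (ι : Type) : mx ι = idealOfVars ι ℝ := rfl

private theorem mem_mx_one {ι : Type} (f : MvPolynomial ι ℝ) : f ∈ mx ι ↔ coeff 0 f = 0 := by
  rw [← pow_one (mx ι), mx_eq, mem_pow_idealOfVars_iff']
  constructor
  · intro h
    exact h 0 (by simp)
  · intro h x hx
    have : x = 0 := by
      have h1 : Finsupp.degree x = 0 := by omega
      exact (Finsupp.degree_eq_zero_iff x).1 h1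
    rw [this]
    exact h

private theorem deg_one {ι : Type} (m : ι →₀ ℕ) (h : Finsupp.degree m = 1) : ∃ x, m = Finsupp.single x 1 := by
  have h1 : m ≠ 0 := by
    rintro rfl
    simp at h
  obtain ⟨x, hx⟩ := Finsupp.ne_iff.1 h1
  have h2 : Finsupp.single x 1 ≤ m := by
    rw [Finsupp.single_le_iff]
    exact Nat.one_le_iff_ne_zero.2 hx
  obtain ⟨c, rfl⟩ := le_iff_exists_add.1 h2
  rw [map_add, Finsupp.degree_single] at h
  have h3 : Finsupp.degree c = 0 := by omega
  exact ⟨x, by rw [(Finsupp.degree_eq_zero_iff c).1 h3, add_zero]⟩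

private theorem mem_mx_two {ι : Type} (f : MvPolynomial ι ℝ) (h0 : coeff 0 f = 0)
    (h1 : ∀ x : ι, coeff (Finsupp.single x 1) f = 0) : f ∈ mx ι ^ 2 := by
  rw [mx_eq, mem_pow_idealOfVars_iff']
  intro m hm
  have h2 : Finsupp.degree m = 0 ∨ Finsupp.degree m = 1 := by omega
  rcases h2 with h2 | h2
  · rw [(Finsupp.degree_eq_zero_iff m).1 h2]
    exact h0
  · obtain ⟨x, hx⟩ := deg_one m h2
    rw [hx]
    exact h1 x

private theorem dv_zero {ι : Type} (f : MvPolynomial ι ℝ) (x : ι) :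
    dv (0 : ι → ℝ) f x = coeff (Finsupp.single x 1) f := by
  unfold dv
  rw [eval_zero, constantCoeff_eq, coeff_pderiv]
  simp

private theorem map_mx {ι : Type} (a : ι → MvPolynomial ι ℝ) (h0 : ∀ i, eval (0 : ι → ℝ) (a i) = 0) (k : ℕ)
    (f : MvPolynomial ι ℝ) (hf : f ∈ mx ι ^ k) : aeval a f ∈ mx ι ^ k := by
  have h1 : Ideal.map (aeval a : MvPolynomial ι ℝ →ₐ[ℝ] MvPolynomial ι ℝ) (mx ι) ≤ mx ι := by
    unfold mx
    rw [Ideal.map_span, Ideal.span_le]
    rintro _ ⟨_, ⟨x, rfl⟩, rfl⟩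
    have h2 : (aeval a (X x : MvPolynomial ι ℝ) : MvPolynomial ι ℝ) = a x := aeval_X a x
    have h3 : a x ∈ mx ι := by
      rw [mem_mx_one]
      have := h0 x
      rwa [eval_zero, constantCoeff_eq] at this
    show (aeval a (X x : MvPolynomial ι ℝ) : MvPolynomial ι ℝ) ∈ mx ι
    rw [h2]
    exact h3
  have h2 := Ideal.mem_map_of_mem (aeval a : MvPolynomial ι ℝ →ₐ[ℝ] MvPolynomial ι ℝ) hf
  rw [Ideal.map_pow] at h2
  exact Ideal.pow_right_mono h1 k h2

private theorem X_mem {ι : Type} (x : ι) : (X x : MvPolynomial ι ℝ) ∈ mx ι := Ideal.subset_span ⟨x, rfl⟩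

private theorem step_X {ι : Type} [Finite ι] (a : ι → MvPolynomial ι ℝ) (h0 : ∀ i, eval (0 : ι → ℝ) (a i) = 0)
    (hind : LinearIndependent ℝ (fun i => dv (0 : ι → ℝ) (a i))) (x : ι) :
    ∃ g ∈ mx ι, X x - aeval a g ∈ mx ι ^ 2 := by
  classical
  have := Fintype.ofFinite ι
  have hspan : Submodule.span ℝ (Set.range (fun i => dv (0 : ι → ℝ) (a i))) = ⊤ := by
    apply hind.span_eq_top_of_card_eq_finrank'
    simp
  have hx : (Pi.single x 1 : ι → ℝ) ∈ Submodule.span ℝ (Set.range (fun i => dv (0 : ι → ℝ) (a i))) := by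
    rw [hspan]
    trivial
  obtain ⟨c, hc⟩ := (Submodule.mem_span_range_iff_exists_fun ℝ).1 hx
  refine ⟨∑ i, C (c i) * X i, Ideal.sum_mem _ fun i _ => Ideal.mul_mem_left _ _ (X_mem i), ?_⟩
  have h2 : (aeval a (∑ i, C (c i) * X i) : MvPolynomial ι ℝ) = ∑ i, C (c i) * a i := by
    rw [map_sum]
    refine Finset.sum_congr rfl fun i _ => ?_
    rw [map_mul, aeval_X, aeval_C]
    rfl
  rw [h2]
  apply mem_mx_two
  · rw [coeff_sub, coeff_sum]
    have h3 : ∀ i, coeff 0 (C (c i) * a i) = 0 := by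
      intro i
      have := h0 i
      rw [eval_zero, constantCoeff_eq] at this
      rw [coeff_C_mul, this, mul_zero]
    simp [h3, coeff_zero_X]
  · intro y
    have h4 := congrFun hc y
    rw [Finset.sum_apply] at h4
    rw [coeff_sub, coeff_sum]
    have h5 : ∀ i, coeff (Finsupp.single y 1) (C (c i) * a i) = (c i • dv (0 : ι → ℝ) (a i)) y := by
      intro i
      rw [coeff_C_mul, Pi.smul_apply, dv_zero, smul_eq_mul]
    rw [Finset.sum_congr rfl fun i _ => h5 i, h4, coeff_X, sub_eq_zero]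
    by_cases hxy : x = y
    · subst hxy
      simp
    · rw [Pi.single_eq_of_ne (Ne.symm hxy), if_neg]
      intro h
      exact hxy (Finsupp.single_left_injective one_ne_zero h)

private theorem const_split {ι : Type} (f : MvPolynomial ι ℝ) : f - C (coeff 0 f) ∈ mx ι := by
  rw [mem_mx_one, coeff_sub, coeff_zero_C, sub_self]

private theorem step_one {ι : Type} [Finite ι] (a : ι → MvPolynomial ι ℝ) (h0 : ∀ i, eval (0 : ι → ℝ) (a i) = 0)
    (hind : LinearIndependent ℝ (fun i => dv (0 : ι → ℝ) (a i))) (f : MvPolynomial ι ℝ) (hf : f ∈ mx ι) :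
    ∃ g ∈ mx ι, f - aeval a g ∈ mx ι ^ 2 := by
  induction hf using Submodule.span_induction with
  | mem y hy =>
    obtain ⟨x, rfl⟩ := hy
    exact step_X a h0 hind x
  | zero => exact ⟨0, Ideal.zero_mem _, by rw [map_zero, sub_zero]; exact Ideal.zero_mem _⟩
  | add y z _ _ hy hz =>
    obtain ⟨g, hg, hg'⟩ := hy
    obtain ⟨h, hh, hh'⟩ := hz
    refine ⟨g + h, Ideal.add_mem _ hg hh, ?_⟩
    rw [map_add, add_sub_add_comm]
    exact Ideal.add_mem _ hg' hh'
  | smul r y hym hy =>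
    obtain ⟨g, hg, hg'⟩ := hy
    refine ⟨C (coeff 0 r) * g, Ideal.mul_mem_left _ _ hg, ?_⟩
    have h1 : (aeval a (C (coeff 0 r) * g) : MvPolynomial ι ℝ) = C (coeff 0 r) * aeval a g := by
      rw [map_mul, aeval_C]
      rfl
    rw [h1]
    have h2 : r • y - C (coeff 0 r) * aeval a g = (r - C (coeff 0 r)) * y + C (coeff 0 r) * (y - aeval a g) := by
      rw [smul_eq_mul]
      ring
    rw [h2]
    refine Ideal.add_mem _ ?_ (Ideal.mul_mem_left _ _ hg')
    rw [pow_two]
    exact Ideal.mul_mem_mul (const_split r) hym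

private theorem step_j {ι : Type} [Finite ι] (a : ι → MvPolynomial ι ℝ) (h0 : ∀ i, eval (0 : ι → ℝ) (a i) = 0)
    (hind : LinearIndependent ℝ (fun i => dv (0 : ι → ℝ) (a i))) (j : ℕ) :
    ∀ f ∈ mx ι ^ j, ∃ g ∈ mx ι ^ j, f - aeval a g ∈ mx ι ^ (j + 1) := by
  induction j with
  | zero =>
    intro f _
    refine ⟨C (coeff 0 f), by simp, ?_⟩
    have h1 : (aeval a (C (coeff 0 f)) : MvPolynomial ι ℝ) = C (coeff 0 f) := by
      rw [aeval_C]
      rfl
    rw [h1, zero_add, pow_one]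
    exact const_split f
  | succ j ih =>
    intro f hf
    rw [pow_succ] at hf
    induction hf using Submodule.mul_induction_on' with
    | mem_mul_mem f1 hf1 f2 hf2 =>
      obtain ⟨g1, hg1, hg1'⟩ := ih f1 hf1
      obtain ⟨g2, hg2, hg2'⟩ := step_one a h0 hind f2 hf2
      refine ⟨g1 * g2, by rw [pow_succ]; exact Ideal.mul_mem_mul hg1 hg2, ?_⟩
      have h2 : f1 * f2 - aeval a (g1 * g2) = f1 * (f2 - aeval a g2) + (f1 - aeval a g1) * aeval a g2 := by
        rw [map_mul]
        ring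
      rw [h2]
      refine Ideal.add_mem _ ?_ ?_
      · have : mx ι ^ (j + 1 + 1) = mx ι ^ j * mx ι ^ 2 := by rw [← pow_add]
        rw [this]
        exact Ideal.mul_mem_mul hf1 hg2'
      · rw [pow_succ]
        refine Ideal.mul_mem_mul hg1' ?_
        have h3 := map_mx a h0 1 g2 (by rw [pow_one]; exact hg2)
        rwa [pow_one] at h3
    | add y _ z _ hy hz =>
      obtain ⟨g, hg, hg'⟩ := hy
      obtain ⟨h, hh, hh'⟩ := hz
      refine ⟨g + h, Ideal.add_mem _ hg hh, ?_⟩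
      rw [map_add, add_sub_add_comm]
      exact Ideal.add_mem _ hg' hh'

private theorem first {ι : Type} [Finite ι] (a : ι → MvPolynomial ι ℝ) (h0 : ∀ i, eval (0 : ι → ℝ) (a i) = 0)
    (hind : LinearIndependent ℝ (fun i => dv (0 : ι → ℝ) (a i))) (k : ℕ) :
    ∀ f : MvPolynomial ι ℝ, ∃ g : MvPolynomial ι ℝ, f - aeval a g ∈ mx ι ^ k := by
  induction k with
  | zero => intro f; exact ⟨0, by simp⟩
  | succ k ih =>
    intro f
    obtain ⟨g, hg⟩ := ih f
    obtain ⟨h, _, hh⟩ := step_j a h0 hind k _ hg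
    refine ⟨g + h, ?_⟩
    rw [map_add, ← sub_sub]
    exact hh

private theorem finQ {ι : Type} [Finite ι] (k : ℕ) : Module.Finite ℝ (MvPolynomial ι ℝ ⧸ mx ι ^ k) := by
  let φ : restrictTotalDegree ι ℝ k →ₗ[ℝ] (MvPolynomial ι ℝ ⧸ mx ι ^ k) :=
    (Ideal.Quotient.mkₐ ℝ (mx ι ^ k)).toLinearMap ∘ₗ (restrictTotalDegree ι ℝ k).subtype
  refine Module.Finite.of_surjective φ ?_
  rw [← LinearMap.range_eq_top, eq_top_iff]
  intro y _
  obtain ⟨f, rfl⟩ := Ideal.Quotient.mk_surjective y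
  induction f using MvPolynomial.induction_on' with
  | monomial u r =>
    by_cases hu : Finsupp.degree u ≤ k
    · refine ⟨⟨monomial u r, ?_⟩, rfl⟩
      rw [mem_restrictTotalDegree]
      refine (totalDegree_monomial_le u r).trans ?_
      exact hu
    · have h1 : Ideal.Quotient.mk (mx ι ^ k) (monomial u r) = 0 := by
        rw [Ideal.Quotient.eq_zero_iff_mem]
        by_cases hr : r = 0
        · rw [hr, monomial_zero]
          exact Ideal.zero_mem _
        · rw [mx_eq, monomial_mem_pow_idealOfVars_iff k u hr]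
          omega
      rw [h1]
      exact Submodule.zero_mem _
  | add p q hp hq =>
    rw [map_add]
    exact Submodule.add_mem _ (hp trivial) (hq trivial)

theorem truncAut {ι : Type} [Finite ι] (a : ι → MvPolynomial ι ℝ) (h0 : ∀ i, eval (0 : ι → ℝ) (a i) = 0)
    (hind : LinearIndependent ℝ (fun i => dv (0 : ι → ℝ) (a i))) (k : ℕ) :
    (∀ f : MvPolynomial ι ℝ, ∃ g : MvPolynomial ι ℝ, f - aeval a g ∈ mx ι ^ k) ∧
      (∀ f : MvPolynomial ι ℝ, aeval a f ∈ mx ι ^ k → f ∈ mx ι ^ k) := by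
  refine ⟨first a h0 hind k, ?_⟩
  have := finQ (ι := ι) k
  let ψ : (MvPolynomial ι ℝ ⧸ mx ι ^ k) →ₐ[ℝ] (MvPolynomial ι ℝ ⧸ mx ι ^ k) :=
    Ideal.Quotient.liftₐ (mx ι ^ k) ((Ideal.Quotient.mkₐ ℝ (mx ι ^ k)).comp (aeval a)) (by
      intro f hf
      show Ideal.Quotient.mk (mx ι ^ k) (aeval a f) = 0
      rw [Ideal.Quotient.eq_zero_iff_mem]
      exact map_mx a h0 k f hf)
  have hψ : ∀ f, ψ (Ideal.Quotient.mk (mx ι ^ k) f) = Ideal.Quotient.mk (mx ι ^ k) (aeval a f) := by
    intro f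
    rfl
  have hsurj : Function.Surjective ψ.toLinearMap := by
    intro y
    obtain ⟨f, rfl⟩ := Ideal.Quotient.mk_surjective y
    obtain ⟨g, hg⟩ := first a h0 hind k f
    refine ⟨Ideal.Quotient.mk (mx ι ^ k) g, ?_⟩
    show ψ (Ideal.Quotient.mk (mx ι ^ k) g) = _
    rw [hψ, eq_comm, Ideal.Quotient.mk_eq_mk_iff_sub_mem]
    exact hg
  have hinj : Function.Injective ψ.toLinearMap := LinearMap.injective_iff_surjective.2 hsurj
  intro f hf
  have h1 : ψ.toLinearMap (Ideal.Quotient.mk (mx ι ^ k) f) = 0 := by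
    show ψ (Ideal.Quotient.mk (mx ι ^ k) f) = 0
    rw [hψ, Ideal.Quotient.eq_zero_iff_mem]
    exact hf
  have h2 := (map_eq_zero_iff _ hinj).1 h1
  rwa [Ideal.Quotient.eq_zero_iff_mem] at h2

end Pool.Agent.Helper21.BPA
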